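import Pool.Agent.Lib_helper48.OpChow.Defs

/-! Auxiliary definitions for the formalization of MP_1b5a48_ag (not used in the statement). -/

namespace Pool.Agent.OpChow

open MvPolynomial

universe u

attribute [local instance] MvPolynomial.weightedGradedAlgebra

variable {k : Type u} [Field k]

/-! ### auxiliary definitions -/

/-- the ideal `(N : z)` -/
def colI {B : Type u} [CommRing B] (z : B) (N : Ideal B) : Ideal B :=
  Submodule.comap (LinearMap.lsmul B B z) N

/-- the length of `B_Q / J B_Q` -/
noncomputable def lenQ {B : Type u} [CommRing B] (J Q : Ideal B) [Q.IsPrime] : ℕ∞ :=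
  Module.length (Localization.AtPrime Q)
    (Localization.AtPrime Q ⧸ J.map (algebraMap B (Localization.AtPrime Q)))

/-- the unit `τ = 1 - X` -/
noncomputable def tau : (PowerSeries ℚ)ˣ where
  val := 1 - PowerSeries.X
  inv := PowerSeries.mk fun _ => 1
  val_inv := by rw [mul_comm]; exact PowerSeries.mk_one_mul_one_sub_eq_one ℚ
  inv_val := PowerSeries.mk_one_mul_one_sub_eq_one ℚ

/-- `τ^a` -/
noncomputable def tz (a : ℤ) : PowerSeries ℚ := ((tau ^ a : (PowerSeries ℚ)ˣ) : PowerSeries ℚ)

/-- additive functions of the graded modules `B / J` -/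
structure Kap {B : Type u} [CommRing B] [Algebra k B] (gr : ℤ → Submodule k B)
    [GradedAlgebra gr] where
  κ : Ideal B → PowerSeries ℚ
  top : κ ⊤ = 0
  add : ∀ J : Ideal B, J.IsHomogeneous gr → ∀ (a : ℤ), ∀ f ∈ gr a,
    κ J = tz a * κ (colI f J) + κ (J ⊔ Ideal.span {f})

/-- the grading of the polynomial ring -/
noncomputable abbrev wg (k : Type u) [Field k] {σ : Type} (w : σ → ℤ) :
    ℤ → Submodule k (MvPolynomial σ k) := weightedHomogeneousSubmodule k w

/-- the weights with an additional variable `s = X none` of degree `0` -/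
def wtl {σ : Type} (w : σ → ℤ) : Option σ → ℤ := fun o => o.elim 0 w

/-- evaluation at `s = a` -/
noncomputable def evs {σ : Type} (a : k) : MvPolynomial (Option σ) k →ₐ[k] MvPolynomial σ k :=
  aeval fun o => o.elim (C a) X

/-- the ideal of the minors `x ∧ y` in the example -/
noncomputable def PZ (k : Type u) [Field k] : Ideal (MvPolynomial (Fin 6) k) :=
  Ideal.span {X 1 * X 5 - X 2 * X 4, X 2 * X 3 - X 0 * X 5, X 0 * X 4 - X 1 * X 3}

/-- the functional on cycles given by a coefficient of `κ` -/
noncomputable def Lam {n : ℕ} (p : ℕ) (w : Fin n → ℤ) (κ : Kap (wg k (wts (p + 1) w))) :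
    (approx k w (p + 1)).Cyc n →ₗ[ℚ] ℚ :=
  Finsupp.linearCombination ℚ fun V : (approx k w (p + 1)).Sub n =>
    PowerSeries.coeff p (κ.κ V.P)

end Pool.Agent.OpChow
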