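import Pool.Agent.Lib_helper48.OpChow.Basics
/-! Block MUL: lengths of localizations. -/

namespace Pool.Agent.OpChow

universe u

theorem mulb_mem_colI {B : Type u} [CommRing B] {f x : B} {J : Ideal B} :
    x ∈ colI f J ↔ f * x ∈ J := by
  simp [colI, Submodule.mem_comap]

/-- additivity in a ring -/
theorem mulb_length_add {R : Type u} [CommRing R] (J : Ideal R) (f : R) :
    Module.length R (R ⧸ J) =
      Module.length R (R ⧸ colI f J) + Module.length R (R ⧸ (J ⊔ Ideal.span {f})) := by
  have h1 : colI f J ≤ Submodule.comap (LinearMap.lsmul R R f) J := le_rfl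
  have h2 : J ≤ Submodule.comap (LinearMap.id : R →ₗ[R] R) (J ⊔ Ideal.span {f}) := by
    rw [Submodule.comap_id]; exact le_sup_left
  refine Module.length_eq_add_of_exact (Submodule.mapQ (colI f J) J (LinearMap.lsmul R R f) h1)
    (Submodule.mapQ J (J ⊔ Ideal.span {f}) LinearMap.id h2) ?_ ?_ ?_
  · rw [← LinearMap.ker_eq_bot, LinearMap.ker_eq_bot']
    intro x hx
    obtain ⟨x, rfl⟩ := Submodule.Quotient.mk_surjective _ x
    rw [Submodule.mapQ_apply, Submodule.Quotient.mk_eq_zero] at hx
    rw [Submodule.Quotient.mk_eq_zero]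
    exact hx
  · intro x
    obtain ⟨x, rfl⟩ := Submodule.Quotient.mk_surjective _ x
    exact ⟨Submodule.Quotient.mk x, by rw [Submodule.mapQ_apply]; rfl⟩
  · intro x
    obtain ⟨x, rfl⟩ := Submodule.Quotient.mk_surjective _ x
    rw [Submodule.mapQ_apply, Submodule.Quotient.mk_eq_zero]
    constructor
    · intro hx
      rw [LinearMap.id_apply, Submodule.mem_sup] at hx
      obtain ⟨y, hy, z, hz, hyz⟩ := hx
      rw [Ideal.mem_span_singleton'] at hz
      obtain ⟨a, rfl⟩ := hz
      refine ⟨Submodule.Quotient.mk a, ?_⟩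
      rw [Submodule.mapQ_apply, Submodule.Quotient.eq]
      have : (LinearMap.lsmul R R f) a - x = - y := by
        rw [← hyz]; simp only [LinearMap.lsmul_apply, smul_eq_mul]; ring
      rw [this]
      exact J.neg_mem hy
    · rintro ⟨y, hy⟩
      obtain ⟨y, rfl⟩ := Submodule.Quotient.mk_surjective _ y
      rw [Submodule.mapQ_apply, Submodule.Quotient.eq] at hy
      rw [LinearMap.id_apply]
      have h3 : x = f * y - ((LinearMap.lsmul R R f) y - x) := by
        simp only [LinearMap.lsmul_apply, smul_eq_mul]; ring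
      rw [h3]
      refine Ideal.sub_mem _ ?_ (le_sup_left (a := J) hy)
      exact Ideal.mul_mem_right _ _ (le_sup_right (a := J) (Ideal.mem_span_singleton_self f))

/-- colon ideals commute with localization -/
theorem mulb_map_colI {B : Type u} [CommRing B] (J Q : Ideal B) [Q.IsPrime] (f : B) :
    (colI f J).map (algebraMap B (Localization.AtPrime Q)) =
      colI (algebraMap B (Localization.AtPrime Q) f)
        (J.map (algebraMap B (Localization.AtPrime Q))) := by
  apply le_antisymm
  · rw [Ideal.map_le_iff_le_comap]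
    intro x hx
    rw [Ideal.mem_comap, mulb_mem_colI, ← map_mul]
    exact Ideal.mem_map_of_mem _ (mulb_mem_colI.1 hx)
  · intro x hx
    rw [mulb_mem_colI] at hx
    obtain ⟨⟨a, s⟩, hs⟩ := IsLocalization.surj (M := Q.primeCompl) x
    have h1 : algebraMap B (Localization.AtPrime Q) (f * a) ∈
        J.map (algebraMap B (Localization.AtPrime Q)) := by
      rw [map_mul, ← hs, ← mul_assoc]
      exact Ideal.mul_mem_right _ _ hx
    rw [IsLocalization.algebraMap_mem_map_algebraMap_iff (M := Q.primeCompl)] at h1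
    obtain ⟨t, ht, htJ⟩ := h1
    have h2 : algebraMap B (Localization.AtPrime Q) (t * a) ∈
        (colI f J).map (algebraMap B (Localization.AtPrime Q)) := by
      refine Ideal.mem_map_of_mem _ (mulb_mem_colI.2 ?_)
      rw [show f * (t * a) = t * (f * a) by ring]
      exact htJ
    have hu1 : IsUnit (algebraMap B (Localization.AtPrime Q) t) :=
      IsLocalization.map_units (M := Q.primeCompl) _ ⟨t, ht⟩
    have hu2 : IsUnit (algebraMap B (Localization.AtPrime Q) s) :=
      IsLocalization.map_units (M := Q.primeCompl) _ s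
    rw [map_mul, ← hs] at h2
    rw [← Ideal.unit_mul_mem_iff_mem _ hu2, ← Ideal.unit_mul_mem_iff_mem _ hu1, mul_comm _ x]
    exact h2

theorem lenQ_add {B : Type u} [CommRing B] (J Q : Ideal B) [Q.IsPrime] (f : B) :
    lenQ J Q = lenQ (colI f J) Q + lenQ (J ⊔ Ideal.span {f}) Q := by
  unfold lenQ
  rw [mulb_length_add _ (algebraMap B (Localization.AtPrime Q) f), mulb_map_colI, Ideal.map_sup,
    Ideal.map_span, Set.image_singleton]

theorem lenQ_zero {B : Type u} [CommRing B] {J Q : Ideal B} [Q.IsPrime] (h : ¬ J ≤ Q) :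
    lenQ J Q = 0 := by
  unfold lenQ
  rw [Module.length_eq_zero_iff]
  have : J.map (algebraMap B (Localization.AtPrime Q)) = ⊤ := by
    rw [SetLike.not_le_iff_exists] at h
    obtain ⟨x, hx, hxQ⟩ := h
    exact Ideal.eq_top_of_isUnit_mem _ (Ideal.mem_map_of_mem _ hx)
      (IsLocalization.map_units (M := Q.primeCompl) _ ⟨x, hxQ⟩)
  rw [this]
  exact Ideal.Quotient.subsingleton_iff.2 rfl

theorem lenQ_self {B : Type u} [CommRing B] (Q : Ideal B) [Q.IsPrime] : lenQ Q Q = 1 := by
  unfold lenQ
  rw [Module.length_eq_one_iff, IsLocalization.AtPrime.map_eq_maximalIdeal Q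
    (Localization.AtPrime Q), isSimpleModule_iff_isCoatom]
  exact (IsLocalRing.maximalIdeal.isMaximal _).out

theorem mulb_top_iff {B : Type u} [CommRing B] [IsNoetherianRing B] {J Q : Ideal B} [Q.IsPrime] :
    lenQ J Q ≠ ⊤ ↔ ∀ P ∈ (J.map (algebraMap B (Localization.AtPrime Q))).minimalPrimes,
      P.IsMaximal := by
  unfold lenQ
  rw [← Ideal.krullDimLE_zero_quotient_iff_forall_minimalPrimes_isMaximal,
    ← isArtinianRing_iff_krullDimLE_zero, Module.length_eq_of_surjective
      (R := Localization.AtPrime Q ⧸ J.map (algebraMap B (Localization.AtPrime Q)))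
      Ideal.Quotient.mk_surjective, Module.length_ne_top_iff, isArtinianRing_iff_isFiniteLength]

theorem lenQ_ne_top {B : Type u} [CommRing B] [IsNoetherianRing B] {J Q : Ideal B} [Q.IsPrime]
    (h : Q ∈ J.minimalPrimes) : lenQ J Q ≠ ⊤ := by
  rw [mulb_top_iff]
  intro P hP
  have hP' := hP
  rw [IsLocalization.minimalPrimes_map Q.primeCompl (Localization.AtPrime Q)] at hP
  have hPp : P.IsPrime := hP'.1.1
  have h1 : Ideal.under B P ≤ Q := by
    have h2 := (IsLocalization.isPrime_iff_isPrime_disjoint Q.primeCompl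
      (Localization.AtPrime Q) P).1 hPp
    exact Set.disjoint_compl_left_iff_subset.mp h2.2
  have h3 : Ideal.under B P = Q := le_antisymm h1 (h.2 hP.1 h1)
  have h4 : P = IsLocalRing.maximalIdeal (Localization.AtPrime Q) := by
    rw [← IsLocalization.map_under Q.primeCompl (Localization.AtPrime Q) P, h3,
      IsLocalization.AtPrime.map_eq_maximalIdeal Q (Localization.AtPrime Q)]
  rw [h4]
  exact IsLocalRing.maximalIdeal.isMaximal _

theorem lenQ_top {B : Type u} [CommRing B] [IsNoetherianRing B] {J Q : Ideal B} [Q.IsPrime]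
    (h : J ≤ Q) (h' : Q ∉ J.minimalPrimes) : lenQ J Q = ⊤ := by
  by_contra hc
  rw [← ne_eq, mulb_top_iff] at hc
  apply h'
  have h1 : J.map (algebraMap B (Localization.AtPrime Q)) ≤
      IsLocalRing.maximalIdeal (Localization.AtPrime Q) := by
    rw [← IsLocalization.AtPrime.map_eq_maximalIdeal Q (Localization.AtPrime Q)]
    exact Ideal.map_mono h
  obtain ⟨P, hP, hPm⟩ := Ideal.exists_minimalPrimes_le h1
  have h2 := hc P hP
  have h3 : P = IsLocalRing.maximalIdeal (Localization.AtPrime Q) := IsLocalRing.eq_maximalIdeal h2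
  rw [IsLocalization.minimalPrimes_map Q.primeCompl (Localization.AtPrime Q)] at hP
  rw [h3] at hP
  rw [Set.mem_preimage] at hP
  rwa [IsLocalization.AtPrime.under_maximalIdeal (Localization.AtPrime Q) Q] at hP

end Pool.Agent.OpChow
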