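import Pool.Agent.Lib_helper48.OpChow.VAR
import Pool.Agent.Lib_helper48.OpChow.MUL
/-!
# Block CYC: the K-polynomial and the cycle of a homogeneous ideal
-/

namespace Pool.Agent.OpChow

open MvPolynomial

universe u

attribute [local instance] MvPolynomial.weightedGradedAlgebra

variable {k : Type u} [Field k]

section general

theorem blkCYC_wb_succ {x : WithBot ℕ∞} {d : ℕ} (h : x + 1 ≤ ((d + 1 : ℕ) : WithBot ℕ∞)) :
    x ≤ (d : WithBot ℕ∞) := by
  induction x with
  | bot => exact bot_le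
  | coe m =>
    induction m with
    | top =>
      exfalso
      have h2 : ((⊤ : ℕ∞) : WithBot ℕ∞) + 1 = ((⊤ : ℕ∞) : WithBot ℕ∞) := rfl
      rw [h2] at h
      have h3 : ((⊤ : ℕ∞)) ≤ ((d + 1 : ℕ) : ℕ∞) := WithBot.coe_le_coe.1 h
      exact absurd h3 (not_le.2 (ENat.natCast_lt_top _))
    | coe m =>
      have h3 : ((m + 1 : ℕ) : WithBot ℕ∞) ≤ ((d + 1 : ℕ) : WithBot ℕ∞) := by
        refine le_trans (le_of_eq ?_) h
        push_cast
        rfl
      have h4 : m + 1 ≤ d + 1 := by exact_mod_cast h3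
      have h5 : m ≤ d := by omega
      exact_mod_cast h5

theorem blkCYC_wb_lt {x : WithBot ℕ∞} {d : ℕ} (h : x ≤ ((d + 1 : ℕ) : WithBot ℕ∞))
    (h' : x ≠ ((d + 1 : ℕ) : WithBot ℕ∞)) : x ≤ (d : WithBot ℕ∞) := by
  induction x with
  | bot => exact bot_le
  | coe m =>
    induction m with
    | top =>
      exfalso
      have h3 : ((⊤ : ℕ∞)) ≤ ((d + 1 : ℕ) : ℕ∞) := WithBot.coe_le_coe.1 h
      exact absurd h3 (not_le.2 (ENat.natCast_lt_top _))
    | coe m =>
      have h3 : m ≤ d + 1 := by exact_mod_cast h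
      have h4 : m ≠ d + 1 := by
        rintro rfl
        exact h' rfl
      have h5 : m ≤ d := by omega
      exact_mod_cast h5

variable {B : Type u} [CommRing B]

theorem blkCYC_dim_lt {P Q : Ideal B} (hP : P.IsPrime) (h : P < Q) :
    ringKrullDim (B ⧸ Q) + 1 ≤ ringKrullDim (B ⧸ P) := by
  obtain ⟨x, hxQ, hxP⟩ := SetLike.exists_of_lt h
  refine ringKrullDim_succ_le_of_surjective (Ideal.Quotient.factor h.le)
    (Ideal.Quotient.factor_surjective h.le) (r := Ideal.Quotient.mk P x) ?_ ?_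
  · refine mem_nonZeroDivisors_of_ne_zero ?_
    rwa [Ne, Ideal.Quotient.eq_zero_iff_mem]
  · rw [Ideal.Quotient.factor_mk]
    exact Ideal.Quotient.eq_zero_iff_mem.2 hxQ

theorem blkCYC_mem_colI {z x : B} {N : Ideal B} : x ∈ colI z N ↔ z * x ∈ N := Iff.rfl

theorem blkCYC_le_colI (z : B) (N : Ideal B) : N ≤ colI z N := fun _ hx => N.mul_mem_left z hx

variable [Algebra k B] {gr : ℤ → Submodule k B} [GradedAlgebra gr]

theorem blkCYC_colI_hom {J : Ideal B} (hJ : J.IsHomogeneous gr) {a : ℤ} {f : B} (hf : f ∈ gr a) :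
    (colI f J).IsHomogeneous gr := by
  intro i x hx
  have h1 := hJ (a + i) (blkCYC_mem_colI.1 hx)
  rw [DirectSum.coe_decompose_mul_add_of_left_mem gr hf] at h1
  exact h1

theorem blkCYC_sup_hom {J : Ideal B} (hJ : J.IsHomogeneous gr) {a : ℤ} {f : B} (hf : f ∈ gr a) :
    (J ⊔ Ideal.span {f}).IsHomogeneous gr := by
  refine hJ.sup (Ideal.homogeneous_span _ _ ?_)
  rintro x rfl
  exact ⟨a, hf⟩

theorem blkCYC_ind [IsNoetherianRing B] (p : Ideal B → Prop) (htop : p ⊤)
    (hprime : ∀ J : Ideal B, J.IsPrime → J.IsHomogeneous gr →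
      (∀ J' : Ideal B, J < J' → J'.IsHomogeneous gr → p J') → p J)
    (hadd : ∀ J : Ideal B, J.IsHomogeneous gr → ∀ (a : ℤ), ∀ f ∈ gr a,
      p (colI f J) → p (J ⊔ Ideal.span {f}) → p J) :
    ∀ J : Ideal B, J.IsHomogeneous gr → p J := by
  refine IsNoetherian.induction (R := B) (M := B)
    (P := fun J => Ideal.IsHomogeneous gr J → p J) ?_
  intro (J : Ideal B) ih hJ
  by_cases hp : J.IsPrime
  · exact hprime J hp hJ fun J' hlt hJ' => ih J' hlt hJ'
  · by_cases ht : J = ⊤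
    · rw [ht]
      exact htop
    · have : ∃ x y : B, SetLike.IsHomogeneousElem gr x ∧ SetLike.IsHomogeneousElem gr y ∧
          x * y ∈ J ∧ x ∉ J ∧ y ∉ J := by
        by_contra hc
        apply hp
        refine hJ.isPrime_of_homogeneous_mem_or_mem ht ?_
        intro x y hx hy hxy
        by_contra hc'
        push Not at hc'
        exact hc ⟨x, y, hx, hy, hxy, hc'.1, hc'.2⟩
      obtain ⟨x, y, ⟨a, hx⟩, -, hxy, hxJ, hyJ⟩ := this
      refine hadd J hJ a x hx (ih _ ?_ (blkCYC_colI_hom hJ hx)) (ih _ ?_ (blkCYC_sup_hom hJ hx))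
      · refine lt_of_le_of_ne (blkCYC_le_colI x J) ?_
        intro he
        apply hyJ
        rw [he]
        exact hxy
      · refine lt_of_le_of_ne le_sup_left ?_
        intro he
        apply hxJ
        rw [he]
        exact Ideal.mem_sup_right (Ideal.mem_span_singleton_self x)

end general

section dvd

variable {σ : Type}

theorem blkCYC_sub_mem (f : MvPolynomial σ k) :
    f - C (constantCoeff f) ∈ (Ideal.span (X '' (Set.univ : Set σ)) : Ideal (MvPolynomial σ k)) := by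
  induction f using MvPolynomial.induction_on with
  | C a => simp
  | add f g hf hg =>
    have : f + g - C (constantCoeff (f + g)) =
        (f - C (constantCoeff f)) + (g - C (constantCoeff g)) := by
      simp only [map_add]
      ring
    rw [this]
    exact Ideal.add_mem _ hf hg
  | mul_X f i hf =>
    have : f * X i - C (constantCoeff (f * X i)) = f * X i := by simp
    rw [this]
    exact Ideal.mul_mem_left _ _ (Ideal.subset_span ⟨i, trivial, rfl⟩)

theorem blkCYC_eq_vars {J : Ideal (MvPolynomial σ k)} (hJ : J.IsPrime) (h : ∀ i, X i ∈ J) :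
    J = Ideal.span (X '' (Set.univ : Set σ)) := by
  have h1 : Ideal.span (X '' (Set.univ : Set σ)) ≤ J := by
    rw [Ideal.span_le]
    rintro _ ⟨i, -, rfl⟩
    exact h i
  refine le_antisymm ?_ h1
  intro f hf
  have h2 := blkCYC_sub_mem f
  have h3 : (C (constantCoeff f) : MvPolynomial σ k) ∈ J := by
    have := J.sub_mem hf (h1 h2)
    rwa [sub_sub_cancel] at this
  have h4 : constantCoeff f = 0 := by
    by_contra hc
    refine hJ.ne_top (J.eq_top_of_isUnit_mem h3 ?_)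
    exact (IsUnit.mk0 _ hc).map C
  rwa [h4, map_zero, sub_zero] at h2

theorem blkCYC_one_sub_ne {a : ℤ} (ha : a ≠ 0) : (1 - tz a : PowerSeries ℚ) ≠ 0 := by
  obtain ⟨u, hu, -⟩ := tz_one_sub ha
  rw [hu]
  exact mul_ne_zero PowerSeries.X_ne_zero u.ne_zero

theorem kap_dvd {σ : Type} [Fintype σ] (w : σ → ℤ) (hw : ∀ i, w i ≠ 0) (κ : Kap (wg k w))
    (d : ℕ) (J : Ideal (MvPolynomial σ k)) (hJ : J.IsHomogeneous (wg k w))
    (hd : ∀ Q : Ideal (MvPolynomial σ k), Q.IsPrime → J ≤ Q →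
      ringKrullDim (MvPolynomial σ k ⧸ Q) ≤ (d : WithBot ℕ∞)) :
    PowerSeries.X ^ (Fintype.card σ - d) ∣ κ.κ J := by
  revert d
  refine blkCYC_ind (gr := wg k w) (fun J => ∀ d : ℕ, (∀ Q : Ideal (MvPolynomial σ k), Q.IsPrime →
    J ≤ Q → ringKrullDim (MvPolynomial σ k ⧸ Q) ≤ (d : WithBot ℕ∞)) →
    PowerSeries.X ^ (Fintype.card σ - d) ∣ κ.κ J) ?_ ?_ ?_ J hJ
  · intro d _
    rw [κ.top]
    exact dvd_zero _
  · intro J hp hh ih d hd
    by_cases hall : ∀ i, X i ∈ J
    · rw [blkCYC_eq_vars hp hall]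
      have := kap_vars w κ Finset.univ
      rw [Finset.coe_univ] at this
      rw [this]
      have h1 : (PowerSeries.X : PowerSeries ℚ) ^ (Fintype.card σ) ∣ ∏ i, (1 - tz (w i)) := by
        have h2 : (∏ _i : σ, (PowerSeries.X : PowerSeries ℚ)) ∣ ∏ i, (1 - tz (w i)) := by
          refine Finset.prod_dvd_prod_of_dvd _ _ fun i _ => ?_
          obtain ⟨u, hu, -⟩ := tz_one_sub (hw i)
          exact ⟨u, hu⟩
        rwa [Finset.prod_const, Finset.card_univ] at h2
      exact dvd_mul_of_dvd_left ((pow_dvd_pow _ (Nat.sub_le _ _)).trans h1) _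
    · push Not at hall
      obtain ⟨i, hi⟩ := hall
      have hz : (X i : MvPolynomial σ k) ∈ wg k w (w i) := isWeightedHomogeneous_X k w i
      have hk := kap_prime κ hp hh hz hi
      have hlt : J < J ⊔ Ideal.span {X i} := by
        refine lt_of_le_of_ne le_sup_left ?_
        intro he
        apply hi
        rw [he]
        exact Ideal.mem_sup_right (Ideal.mem_span_singleton_self _)
      have hdim : ∀ Q : Ideal (MvPolynomial σ k), Q.IsPrime → J ⊔ Ideal.span {X i} ≤ Q →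
          ringKrullDim (MvPolynomial σ k ⧸ Q) + 1 ≤ (d : WithBot ℕ∞) := fun Q _ hQ =>
        (blkCYC_dim_lt hp (hlt.trans_le hQ)).trans (hd J hp le_rfl)
      cases d with
      | zero =>
        have ht : J ⊔ Ideal.span {X i} = ⊤ := by
          by_contra hne
          obtain ⟨M, hM, hle⟩ := Ideal.exists_le_maximal _ hne
          have h1 := hdim M hM.isPrime hle
          have : Nontrivial (MvPolynomial σ k ⧸ M) := Ideal.Quotient.nontrivial_iff.2 hM.ne_top
          have h2 : (0 : WithBot ℕ∞) ≤ ringKrullDim (MvPolynomial σ k ⧸ M) :=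
            ringKrullDim_nonneg_of_nontrivial
          have h3 : (0 : WithBot ℕ∞) + 1 ≤ ((0 : ℕ) : WithBot ℕ∞) := le_trans (by gcongr) h1
          have h4 : ((1 : ℕ) : WithBot ℕ∞) ≤ ((0 : ℕ) : WithBot ℕ∞) := by
            simpa using h3
          have h5 : (1 : ℕ) ≤ 0 := by exact_mod_cast h4
          omega
        rw [ht, κ.top] at hk
        have h0 : κ.κ J = 0 := by
          rcases mul_eq_zero.1 hk.symm with h | h
          · exact absurd h (blkCYC_one_sub_ne (hw i))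
          · exact h
        rw [h0]
        exact dvd_zero _
      | succ d =>
        have h1 := ih _ hlt (blkCYC_sup_hom hh hz) d fun Q hQ hQ' => blkCYC_wb_succ (hdim Q hQ hQ')
        rw [hk] at h1
        obtain ⟨u, hu, -⟩ := tz_one_sub (hw i)
        rw [hu] at h1
        by_cases hc : Fintype.card σ ≤ d
        · have : Fintype.card σ - (d + 1) = 0 := by omega
          rw [this, pow_zero]
          exact one_dvd _
        · have : Fintype.card σ - d = (Fintype.card σ - (d + 1)) + 1 := by omega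
          rw [this, pow_succ', mul_assoc, mul_dvd_mul_iff_left PowerSeries.X_ne_zero] at h1
          exact (Units.dvd_mul_left).1 h1
  · intro J hh a f hf h1 h2 d hd
    rw [κ.add J hh a f hf]
    refine dvd_add (dvd_mul_of_dvd_right (h1 d ?_) _) (h2 d ?_)
    · intro Q hQ hle
      exact hd Q hQ ((blkCYC_le_colI f J).trans hle)
    · intro Q hQ hle
      exact hd Q hQ (le_sup_left.trans hle)

end dvd

section cyc

variable {n : ℕ} (p : ℕ) (w : Fin n → ℤ)

theorem blkCYC_constCoeff_tz (a : ℤ) : PowerSeries.constantCoeff (tz a) = 1 := by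
  have h : (Units.map (PowerSeries.constantCoeff (R := ℚ)).toMonoidHom) tau = 1 := by
    ext
    simp [tau]
  have h2 : (Units.map (PowerSeries.constantCoeff (R := ℚ)).toMonoidHom) (tau ^ a) = 1 := by
    rw [map_zpow, h, one_zpow]
  exact congrArg Units.val h2

theorem blkCYC_dim_vars {J : Ideal (MvPolynomial (Fin (p + 1) ⊕ Fin n) k)}
    (h : ∀ j : Fin (p + 1), X (Sum.inl j) ∈ J) :
    ringKrullDim (MvPolynomial (Fin (p + 1) ⊕ Fin n) k ⧸ J) ≤ (n : WithBot ℕ∞) := by
  have h0 : ringKrullDim (MvPolynomial (Fin n) k) = (n : WithBot ℕ∞) := by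
    rw [MvPolynomial.ringKrullDim_of_isNoetherianRing, ringKrullDim_eq_zero_of_field]
    simp
  rw [← h0]
  let g : MvPolynomial (Fin n) k →ₐ[k] MvPolynomial (Fin (p + 1) ⊕ Fin n) k ⧸ J :=
    aeval fun i => Ideal.Quotient.mk J (X (Sum.inr i))
  have hg : g.comp (aeval (Sum.elim (fun _ => 0) X)) = Ideal.Quotient.mkₐ k J := by
    refine MvPolynomial.algHom_ext fun i => ?_
    cases i with
    | inl j =>
      simp only [AlgHom.comp_apply, aeval_X, Sum.elim_inl, map_zero, Ideal.Quotient.mkₐ_eq_mk]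
      exact (Ideal.Quotient.eq_zero_iff_mem.2 (h j)).symm
    | inr j =>
      simp [g]
  refine ringKrullDim_le_of_surjective g.toRingHom ?_
  intro y
  obtain ⟨f, rfl⟩ := Ideal.Quotient.mk_surjective y
  exact ⟨_, AlgHom.congr_fun hg f⟩

variable {p w}

theorem blkCYC_sub_inj : Function.Injective
    (fun V : (approx k w (p + 1)).Sub n => V.P) := by
  rintro ⟨P, _, _, _, _⟩ ⟨P', _, _, _, _⟩ h
  cases h
  rfl

/-- the prime ideal of a subscheme -/
def blkCYC_P (V : (approx k w (p + 1)).Sub n) : Ideal (MvPolynomial (Fin (p + 1) ⊕ Fin n) k) := V.P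

instance (V : (approx k w (p + 1)).Sub n) : (blkCYC_P V).IsPrime := V.prime

theorem blkCYC_dim_P (V : (approx k w (p + 1)).Sub n) :
    ringKrullDim (MvPolynomial (Fin (p + 1) ⊕ Fin n) k ⧸ blkCYC_P V) =
      ((n + 1 : ℕ) : WithBot ℕ∞) := V.dim

theorem blkCYC_P_inj : Function.Injective (blkCYC_P (k := k) (p := p) (w := w)) := blkCYC_sub_inj

theorem blkCYC_cyc (J : Ideal (MvPolynomial (Fin (p + 1) ⊕ Fin n) k)) :
    (approx k w (p + 1)).cyc n J =
      ∑ᶠ V : (approx k w (p + 1)).Sub n, Finsupp.single V (mult J (blkCYC_P V) : ℚ) := rfl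

theorem blkCYC_min {J : Ideal (MvPolynomial (Fin (p + 1) ⊕ Fin n) k)}
    (hd : ∀ Q : Ideal (MvPolynomial (Fin (p + 1) ⊕ Fin n) k), Q.IsPrime → J ≤ Q →
      ringKrullDim (MvPolynomial (Fin (p + 1) ⊕ Fin n) k ⧸ Q) ≤ ((n + 1 : ℕ) : WithBot ℕ∞))
    (V : (approx k w (p + 1)).Sub n) (h : J ≤ blkCYC_P V) : blkCYC_P V ∈ J.minimalPrimes := by
  refine ⟨⟨V.prime, h⟩, ?_⟩
  rintro q ⟨hq, hJq⟩ hle
  by_contra hc
  have hlt : q < blkCYC_P V := lt_of_le_not_ge hle hc
  have h1 := (blkCYC_dim_lt hq hlt).trans (hd q hq hJq)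
  have h3 := blkCYC_wb_succ h1
  rw [blkCYC_dim_P V] at h3
  have h4 : n + 1 ≤ n := by exact_mod_cast h3
  omega

theorem blkCYC_mult_eq (J : Ideal (MvPolynomial (Fin (p + 1) ⊕ Fin n) k))
    (V : (approx k w (p + 1)).Sub n) : mult J (blkCYC_P V) = (lenQ J (blkCYC_P V)).toNat := rfl

theorem blkCYC_mult_zero {J : Ideal (MvPolynomial (Fin (p + 1) ⊕ Fin n) k)}
    (V : (approx k w (p + 1)).Sub n) (h : ¬ J ≤ blkCYC_P V) : mult J (blkCYC_P V) = 0 := by
  rw [blkCYC_mult_eq, lenQ_zero h]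
  rfl

theorem blkCYC_ne_top {J : Ideal (MvPolynomial (Fin (p + 1) ⊕ Fin n) k)}
    (hd : ∀ Q : Ideal (MvPolynomial (Fin (p + 1) ⊕ Fin n) k), Q.IsPrime → J ≤ Q →
      ringKrullDim (MvPolynomial (Fin (p + 1) ⊕ Fin n) k ⧸ Q) ≤ ((n + 1 : ℕ) : WithBot ℕ∞))
    (V : (approx k w (p + 1)).Sub n) : lenQ J (blkCYC_P V) ≠ ⊤ := by
  by_cases h : J ≤ blkCYC_P V
  · exact lenQ_ne_top (blkCYC_min hd V h)
  · rw [lenQ_zero h]
    exact ENat.zero_ne_top

theorem blkCYC_fin {J : Ideal (MvPolynomial (Fin (p + 1) ⊕ Fin n) k)}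
    (hd : ∀ Q : Ideal (MvPolynomial (Fin (p + 1) ⊕ Fin n) k), Q.IsPrime → J ≤ Q →
      ringKrullDim (MvPolynomial (Fin (p + 1) ⊕ Fin n) k ⧸ Q) ≤ ((n + 1 : ℕ) : WithBot ℕ∞)) :
    {V : (approx k w (p + 1)).Sub n | mult J (blkCYC_P V) ≠ 0}.Finite := by
  have h1 : (J.minimalPrimes).Finite := Ideal.finite_minimalPrimes_of_isNoetherianRing _ J
  have h2 := Set.Finite.preimage
    (Set.injOn_of_injective (blkCYC_P_inj (k := k) (p := p) (w := w))) h1
  refine h2.subset ?_
  intro V hV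
  by_contra hc
  apply hV
  apply blkCYC_mult_zero
  intro hle
  exact hc (blkCYC_min hd V hle)

theorem blkCYC_Lam (κ : Kap (wg k (wts (p + 1) w)))
    {J : Ideal (MvPolynomial (Fin (p + 1) ⊕ Fin n) k)}
    (hd : ∀ Q : Ideal (MvPolynomial (Fin (p + 1) ⊕ Fin n) k), Q.IsPrime → J ≤ Q →
      ringKrullDim (MvPolynomial (Fin (p + 1) ⊕ Fin n) k ⧸ Q) ≤ ((n + 1 : ℕ) : WithBot ℕ∞)) :
    Lam p w κ ((approx k w (p + 1)).cyc n J) =
      ∑ᶠ V : (approx k w (p + 1)).Sub n,
        (mult J (blkCYC_P V) : ℚ) * PowerSeries.coeff p (κ.κ (blkCYC_P V)) := by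
  rw [blkCYC_cyc, map_finsum]
  · refine finsum_congr fun V => ?_
    rw [Lam, Finsupp.linearCombination_single, smul_eq_mul]
    rfl
  · refine (blkCYC_fin hd).subset ?_
    intro V hV h0
    apply hV
    change Finsupp.single V (mult J (blkCYC_P V) : ℚ) = 0
    rw [h0]
    simp

theorem blkCYC_mult_add {J : Ideal (MvPolynomial (Fin (p + 1) ⊕ Fin n) k)}
    (hd : ∀ Q : Ideal (MvPolynomial (Fin (p + 1) ⊕ Fin n) k), Q.IsPrime → J ≤ Q →
      ringKrullDim (MvPolynomial (Fin (p + 1) ⊕ Fin n) k ⧸ Q) ≤ ((n + 1 : ℕ) : WithBot ℕ∞))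
    (f : MvPolynomial (Fin (p + 1) ⊕ Fin n) k) (V : (approx k w (p + 1)).Sub n) :
    mult J (blkCYC_P V) =
      mult (colI f J) (blkCYC_P V) + mult (J ⊔ Ideal.span {f}) (blkCYC_P V) := by
  have h1 := blkCYC_ne_top hd V
  have h2 := lenQ_add J (blkCYC_P V) f
  rw [h2] at h1
  rw [blkCYC_mult_eq, blkCYC_mult_eq, blkCYC_mult_eq, h2, ENat.toNat_add]
  · intro h
    rw [h] at h1
    exact h1 (top_add _)
  · intro h
    rw [h] at h1
    exact h1 (add_top _)

theorem kap_cyc {n : ℕ} (p : ℕ) (w : Fin n → ℤ) (hw : ∀ i, w i ≠ 0)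
    (κ : Kap (wg k (wts (p + 1) w))) (J : Ideal (MvPolynomial (Fin (p + 1) ⊕ Fin n) k))
    (hJ : J.IsHomogeneous (wg k (wts (p + 1) w)))
    (hd : ∀ Q : Ideal (MvPolynomial (Fin (p + 1) ⊕ Fin n) k), Q.IsPrime → J ≤ Q →
      ringKrullDim (MvPolynomial (Fin (p + 1) ⊕ Fin n) k ⧸ Q) ≤ ((n + 1 : ℕ) : WithBot ℕ∞)) :
    PowerSeries.coeff p (κ.κ J) = Lam p w κ ((approx k w (p + 1)).cyc n J) := by
  have hw' : ∀ i, wts (p + 1) w i ≠ 0 := by
    rintro (i | i)
    · simp [wts]
    · simpa [wts] using hw i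
  revert hd
  refine blkCYC_ind (gr := wg k (wts (p + 1) w)) (fun J => (∀ Q : Ideal
      (MvPolynomial (Fin (p + 1) ⊕ Fin n) k), Q.IsPrime → J ≤ Q →
      ringKrullDim (MvPolynomial (Fin (p + 1) ⊕ Fin n) k ⧸ Q) ≤ ((n + 1 : ℕ) : WithBot ℕ∞)) →
    PowerSeries.coeff p (κ.κ J) = Lam p w κ ((approx k w (p + 1)).cyc n J)) ?_ ?_ ?_ J hJ
  · intro hd
    rw [blkCYC_Lam κ hd, κ.top, map_zero, eq_comm]
    refine finsum_eq_zero_of_forall_eq_zero fun V => ?_
    rw [blkCYC_mult_zero V]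
    · simp
    · intro hle
      exact (inferInstance : (blkCYC_P V).IsPrime).ne_top (top_le_iff.1 hle)
  · intro J hp hh _ hd
    rw [blkCYC_Lam κ hd]
    by_cases hdim : ringKrullDim (MvPolynomial (Fin (p + 1) ⊕ Fin n) k ⧸ J) =
      ((n + 1 : ℕ) : WithBot ℕ∞)
    · have hI : ¬ (approx k w (p + 1)).I ≤ J := by
        intro hle
        have h1 : ∀ j : Fin (p + 1), X (Sum.inl j) ∈ J := fun j =>
          hle (Ideal.subset_span ⟨j, rfl⟩)
        have h2 := blkCYC_dim_vars p h1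
        rw [hdim] at h2
        have h4 : n + 1 ≤ n := by exact_mod_cast h2
        omega
      let V₀ : (approx k w (p + 1)).Sub n := ⟨J, hp, hh, hI, hdim⟩
      have hV₀ : blkCYC_P V₀ = J := rfl
      rw [finsum_eq_single _ V₀]
      · have h1 : mult J (blkCYC_P V₀) = 1 := by
          rw [blkCYC_mult_eq]
          change (lenQ (blkCYC_P V₀) (blkCYC_P V₀)).toNat = 1
          rw [lenQ_self]
          rfl
        rw [h1, hV₀]
        simp
      · intro V hV
        rw [blkCYC_mult_zero V]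
        · simp
        · intro hle
          have hne : J ≠ blkCYC_P V := by
            intro he
            apply hV
            apply blkCYC_P_inj
            rw [← he]
            rfl
          have h1 := blkCYC_dim_lt hp (lt_of_le_of_ne hle hne)
          rw [blkCYC_dim_P, hdim] at h1
          have h2 := blkCYC_wb_succ h1
          have h4 : n + 1 ≤ n := by exact_mod_cast h2
          omega
    · have hle : ringKrullDim (MvPolynomial (Fin (p + 1) ⊕ Fin n) k ⧸ J) ≤ (n : WithBot ℕ∞) :=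
        blkCYC_wb_lt (hd J hp le_rfl) hdim
      have hQ : ∀ Q : Ideal (MvPolynomial (Fin (p + 1) ⊕ Fin n) k), Q.IsPrime → J ≤ Q →
          ringKrullDim (MvPolynomial (Fin (p + 1) ⊕ Fin n) k ⧸ Q) ≤ (n : WithBot ℕ∞) :=
        fun Q _ hJQ => (ringKrullDim_le_of_surjective (Ideal.Quotient.factor hJQ)
          (Ideal.Quotient.factor_surjective hJQ)).trans hle
      have h1 := kap_dvd (wts (p + 1) w) hw' κ n J hh hQ
      have h2 : Fintype.card (Fin (p + 1) ⊕ Fin n) - n = p + 1 := by simp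
      rw [h2] at h1
      rw [PowerSeries.X_pow_dvd_iff.1 h1 p (Nat.lt_succ_self p), eq_comm]
      refine finsum_eq_zero_of_forall_eq_zero fun V => ?_
      rw [blkCYC_mult_zero V]
      · simp
      · intro hle'
        have h3 := hQ _ V.prime hle'
        have h4 : ringKrullDim (MvPolynomial (Fin (p + 1) ⊕ Fin n) k ⧸ blkCYC_P V) ≤
          (n : WithBot ℕ∞) := h3
        rw [blkCYC_dim_P] at h4
        have h5 : n + 1 ≤ n := by exact_mod_cast h4
        omega
  · intro J hh a f hf h1 h2 hd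
    have hd1 : ∀ Q : Ideal (MvPolynomial (Fin (p + 1) ⊕ Fin n) k), Q.IsPrime → colI f J ≤ Q →
        ringKrullDim (MvPolynomial (Fin (p + 1) ⊕ Fin n) k ⧸ Q) ≤
          ((n + 1 : ℕ) : WithBot ℕ∞) := fun Q hQ hle =>
      hd Q hQ ((blkCYC_le_colI f J).trans hle)
    have hd2 : ∀ Q : Ideal (MvPolynomial (Fin (p + 1) ⊕ Fin n) k), Q.IsPrime →
        J ⊔ Ideal.span {f} ≤ Q → ringKrullDim (MvPolynomial (Fin (p + 1) ⊕ Fin n) k ⧸ Q) ≤
          ((n + 1 : ℕ) : WithBot ℕ∞) := fun Q hQ hle => hd Q hQ (le_sup_left.trans hle)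
    have h3 := h1 hd1
    have h4 := h2 hd2
    rw [blkCYC_Lam κ hd1] at h3
    rw [blkCYC_Lam κ hd2] at h4
    rw [blkCYC_Lam κ hd, κ.add J hh a f hf, map_add]
    have h5 : PowerSeries.coeff p (tz a * κ.κ (colI f J)) = PowerSeries.coeff p (κ.κ (colI f J)) := by
      have h6 := kap_dvd (wts (p + 1) w) hw' κ (n + 1) (colI f J) (blkCYC_colI_hom hh hf) hd1
      have h7 : Fintype.card (Fin (p + 1) ⊕ Fin n) - (n + 1) = p := by
        simp
        omega
      rw [h7] at h6
      obtain ⟨g, hg⟩ := h6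
      rw [hg]
      have h8 : tz a * (PowerSeries.X ^ p * g) = PowerSeries.X ^ p * (tz a * g) := by ring
      rw [h8, PowerSeries.coeff_X_pow_mul', PowerSeries.coeff_X_pow_mul', if_pos le_rfl,
        if_pos le_rfl, Nat.sub_self, PowerSeries.coeff_zero_eq_constantCoeff_apply,
        PowerSeries.coeff_zero_eq_constantCoeff_apply, map_mul, blkCYC_constCoeff_tz, one_mul]
    rw [h5, h3, h4, ← finsum_add_distrib]
    · refine finsum_congr fun V => ?_
      rw [blkCYC_mult_add hd f V]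
      push_cast
      ring
    · refine (blkCYC_fin hd1).subset ?_
      intro V hV h0
      apply hV
      change (mult (colI f J) (blkCYC_P V) : ℚ) * _ = 0
      rw [h0]
      simp
    · refine (blkCYC_fin hd2).subset ?_
      intro V hV h0
      apply hV
      change (mult (J ⊔ Ideal.span {f}) (blkCYC_P V) : ℚ) * _ = 0
      rw [h0]
      simp

end cyc

end Pool.Agent.OpChow
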