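import Pool.Agent.Lib_helper48.OpChow.PZ
namespace Pool.Agent.OpChow

open MvPolynomial

universe u

attribute [local instance] MvPolynomial.weightedGradedAlgebra

variable {k : Type u} [Field k]

theorem DIM_le_of_isIntegral {A B : Type u} [CommRing A] [CommRing B] [Algebra A B]
    [Algebra.IsIntegral A B] : ringKrullDim B ≤ ringKrullDim A := by
  refine Order.krullDim_le_of_strictMono (fun I : PrimeSpectrum B =>
    (⟨Ideal.comap (algebraMap A B) I.asIdeal, inferInstance⟩ : PrimeSpectrum A)) ?_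
  intro I J h
  exact Ideal.IsIntegral.comap_lt_comap h

/-- the class of a variable -/
noncomputable def DIM_z (k : Type u) [Field k] (i : Fin 6) : MvPolynomial (Fin 6) k ⧸ PZ k :=
  Ideal.Quotient.mk (PZ k) (X i)

theorem DIM_rel1 : DIM_z k 1 * DIM_z k 5 - DIM_z k 2 * DIM_z k 4 = 0 := by
  have h : (X 1 * X 5 - X 2 * X 4 : MvPolynomial (Fin 6) k) ∈ PZ k :=
    Ideal.subset_span (by simp)
  have := Ideal.Quotient.eq_zero_iff_mem.mpr h
  simpa [DIM_z] using this

theorem DIM_rel2 : DIM_z k 2 * DIM_z k 3 - DIM_z k 0 * DIM_z k 5 = 0 := by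
  have h : (X 2 * X 3 - X 0 * X 5 : MvPolynomial (Fin 6) k) ∈ PZ k :=
    Ideal.subset_span (by simp)
  have := Ideal.Quotient.eq_zero_iff_mem.mpr h
  simpa [DIM_z] using this

theorem DIM_rel3 : DIM_z k 0 * DIM_z k 4 - DIM_z k 1 * DIM_z k 3 = 0 := by
  have h : (X 0 * X 4 - X 1 * X 3 : MvPolynomial (Fin 6) k) ∈ PZ k :=
    Ideal.subset_span (by simp)
  have := Ideal.Quotient.eq_zero_iff_mem.mpr h
  simpa [DIM_z] using this

/-- the parameters -/
noncomputable def DIM_t (k : Type u) [Field k] : Fin 4 → MvPolynomial (Fin 6) k ⧸ PZ k :=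
  ![DIM_z k 0, DIM_z k 1 + DIM_z k 3, DIM_z k 2 + DIM_z k 4, DIM_z k 5]

theorem DIM_quartic {A B : Type u} [CommRing A] [CommRing B] [Algebra A B] (p q r : A) (z : B)
    (h : (z ^ 2 - algebraMap A B p * z) ^ 2 + algebraMap A B q * (z ^ 2 - algebraMap A B p * z)
      + algebraMap A B r * z = 0) : IsIntegral A z := by
  refine ⟨(Polynomial.X ^ 2 - Polynomial.C p * Polynomial.X) ^ 2
    + Polynomial.C q * (Polynomial.X ^ 2 - Polynomial.C p * Polynomial.X)
    + Polynomial.C r * Polynomial.X, ?_, ?_⟩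
  · have : (Polynomial.X ^ 2 - Polynomial.C p * Polynomial.X) ^ 2
      + Polynomial.C q * (Polynomial.X ^ 2 - Polynomial.C p * Polynomial.X)
      + Polynomial.C r * Polynomial.X = Polynomial.X ^ 4 + (Polynomial.C (-2 * p) * Polynomial.X ^ 3
        + Polynomial.C (p ^ 2 + q) * Polynomial.X ^ 2 + Polynomial.C (r - q * p) * Polynomial.X) := by
      simp only [map_add, map_sub, map_mul, map_pow, map_neg, map_ofNat]
      ring
    rw [this]
    refine Polynomial.monic_X_pow_add ?_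
    refine lt_of_le_of_lt (b := ((3 : ℕ) : WithBot ℕ)) (by compute_degree; rfl) ?_
    exact_mod_cast (by norm_num : 3 < 4)
  · simpa using h

theorem DIM_le : ringKrullDim (MvPolynomial (Fin 6) k ⧸ PZ k) ≤ 4 := by
  algebraize [(aeval (DIM_t k) : MvPolynomial (Fin 4) k →ₐ[k] _).toRingHom]
  have hal : ∀ a : MvPolynomial (Fin 4) k,
      algebraMap (MvPolynomial (Fin 4) k) (MvPolynomial (Fin 6) k ⧸ PZ k) a = aeval (DIM_t k) a :=
    fun a => rfl
  have h0 : algebraMap (MvPolynomial (Fin 4) k) (MvPolynomial (Fin 6) k ⧸ PZ k) (X 0) =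
      DIM_z k 0 := by rw [hal, aeval_X]; rfl
  have h1 : algebraMap (MvPolynomial (Fin 4) k) (MvPolynomial (Fin 6) k ⧸ PZ k) (X 1) =
      DIM_z k 1 + DIM_z k 3 := by rw [hal, aeval_X]; rfl
  have h2 : algebraMap (MvPolynomial (Fin 4) k) (MvPolynomial (Fin 6) k ⧸ PZ k) (X 2) =
      DIM_z k 2 + DIM_z k 4 := by rw [hal, aeval_X]; rfl
  have h3 : algebraMap (MvPolynomial (Fin 4) k) (MvPolynomial (Fin 6) k ⧸ PZ k) (X 3) =
      DIM_z k 5 := by rw [hal, aeval_X]; rfl
  have i0 : IsIntegral (MvPolynomial (Fin 4) k) (DIM_z k 0) := h0 ▸ isIntegral_algebraMap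
  have i5 : IsIntegral (MvPolynomial (Fin 4) k) (DIM_z k 5) := h3 ▸ isIntegral_algebraMap
  have i1 : IsIntegral (MvPolynomial (Fin 4) k) (DIM_z k 1) := by
    refine DIM_quartic (X 1) (X 0 * X 2) (X 0 ^ 2 * X 3) _ ?_
    rw [map_mul, map_mul, map_pow, h0, h1, h2, h3]
    linear_combination (-(DIM_z k 1 * DIM_z k 3)) * DIM_rel3 (k := k) -
      DIM_z k 1 * DIM_z k 0 * DIM_rel2 (k := k)
  have i4 : IsIntegral (MvPolynomial (Fin 4) k) (DIM_z k 4) := by
    refine DIM_quartic (X 2) (X 3 * X 1) (X 3 ^ 2 * X 0) _ ?_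
    rw [map_mul, map_mul, map_pow, h0, h1, h2, h3]
    linear_combination (-(DIM_z k 4 * DIM_z k 2)) * DIM_rel1 (k := k) -
      DIM_z k 4 * DIM_z k 5 * DIM_rel2 (k := k)
  have i3 : IsIntegral (MvPolynomial (Fin 4) k) (DIM_z k 3) := by
    have : DIM_z k 3 = (DIM_z k 1 + DIM_z k 3) - DIM_z k 1 := by ring
    rw [this]
    exact IsIntegral.sub (h1 ▸ isIntegral_algebraMap) i1
  have i2 : IsIntegral (MvPolynomial (Fin 4) k) (DIM_z k 2) := by
    have : DIM_z k 2 = (DIM_z k 2 + DIM_z k 4) - DIM_z k 4 := by ring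
    rw [this]
    exact IsIntegral.sub (h2 ▸ isIntegral_algebraMap) i4
  have hz : ∀ i, IsIntegral (MvPolynomial (Fin 4) k) (DIM_z k i) := by
    intro i
    fin_cases i
    · exact i0
    · exact i1
    · exact i2
    · exact i3
    · exact i4
    · exact i5
  have hint : Algebra.IsIntegral (MvPolynomial (Fin 4) k) (MvPolynomial (Fin 6) k ⧸ PZ k) := by
    constructor
    intro b
    obtain ⟨f, rfl⟩ := Ideal.Quotient.mk_surjective b
    induction f using MvPolynomial.induction_on with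
    | C a =>
      have : Ideal.Quotient.mk (PZ k) (C a) =
          algebraMap (MvPolynomial (Fin 4) k) (MvPolynomial (Fin 6) k ⧸ PZ k) (C a) := by
        rw [hal, algHom_C]; rfl
      rw [this]
      exact isIntegral_algebraMap
    | add p q hp hq => rw [map_add]; exact hp.add hq
    | mul_X p i hp => rw [map_mul]; exact hp.mul (hz i)
  refine (DIM_le_of_isIntegral (A := MvPolynomial (Fin 4) k)).trans ?_
  rw [MvPolynomial.ringKrullDim_of_isNoetherianRing, ringKrullDim_eq_zero_of_field]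
  simp

theorem DIM_ge : 4 ≤ ringKrullDim (MvPolynomial (Fin 6) k ⧸ PZ k) := by
  have hp : (PZ k).IsPrime := pz_prime
  let φ : MvPolynomial (Fin 6) k →ₐ[k] MvPolynomial (Fin 3) k :=
    aeval ![X 0, X 1, X 2, 0, 0, 0]
  have hφ : ∀ a ∈ PZ k, φ a = 0 := by
    intro a ha
    have : PZ k ≤ RingHom.ker φ.toRingHom := by
      rw [PZ, Ideal.span_le]
      rintro f hf
      simp only [Set.mem_insert_iff, Set.mem_singleton_iff] at hf
      change φ f = 0
      rcases hf with rfl | rfl | rfl <;> simp [φ]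
    exact this ha
  let ψ : MvPolynomial (Fin 6) k ⧸ PZ k →+* MvPolynomial (Fin 3) k :=
    Ideal.Quotient.lift (PZ k) φ.toRingHom hφ
  have hψ : Function.Surjective ψ := by
    intro b
    refine ⟨Ideal.Quotient.mk (PZ k) (rename (Fin.castLE (by norm_num)) b), ?_⟩
    change φ (rename (Fin.castLE (by norm_num)) b) = b
    rw [← AlgHom.comp_apply]
    have : φ.comp (rename (Fin.castLE (by norm_num : 3 ≤ 6))) = AlgHom.id k _ := by
      ext i
      fin_cases i <;> simp [φ]
    rw [this]; rfl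
  have hne : DIM_z k 3 ≠ 0 := by
    intro h
    have h' : (X 3 : MvPolynomial (Fin 6) k) ∈ PZ k := Ideal.Quotient.eq_zero_iff_mem.mp h
    have : PZ k ≤ RingHom.ker (eval (![0, 0, 0, 1, 0, 0] : Fin 6 → k)) := by
      rw [PZ, Ideal.span_le]
      rintro f hf
      simp only [Set.mem_insert_iff, Set.mem_singleton_iff] at hf
      change eval _ f = 0
      rcases hf with rfl | rfl | rfl <;> simp
    have h2 : eval (![0, 0, 0, 1, 0, 0] : Fin 6 → k) (X 3) = 0 := this h'
    rw [eval_X] at h2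
    exact one_ne_zero h2
  have h := ringKrullDim_succ_le_of_surjective ψ hψ (r := DIM_z k 3)
    (mem_nonZeroDivisors_of_ne_zero hne) (by
      change φ (X 3) = 0
      simp [φ])
  rw [MvPolynomial.ringKrullDim_of_isNoetherianRing, ringKrullDim_eq_zero_of_field] at h
  refine le_trans (le_of_eq ?_) h
  simp
  rfl

/-- block DIM -/
theorem pz_dim : ringKrullDim (MvPolynomial (Fin 6) k ⧸ PZ k) + 2 = 6 := by
  rw [le_antisymm DIM_le DIM_ge]
  rfl

end Pool.Agent.OpChow
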