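import Mathlib

/-!
# Chow groups of quotients by the multiplicative group, operational classes, strong cycles

Definitions for problem MP_1b5a48_ag. Everything is over a field `k`, and with rational
coefficients.

* `QP k`: quasi-projective `k`-schemes, presented as `T = (Spec B ∖ V(I)) / G_m`, where `B` is a
  `ℤ`-graded `k`-algebra of finite type (that is, `G_m` acts on `Spec B`) and `I` is a homogeneous
  ideal such that at every point outside `V(I)` some homogeneous element of degree one does not
  vanish. So `G_m` acts freely there, and `T` is an open subscheme of `Proj` of the nonnegatively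
  graded part of `B`, quasi-projective over `Spec B₀`.
* the integral closed subschemes of dimension `m` of `T` are the `(V(P) ∖ V(I)) / G_m` for the
  homogeneous primes `P` of `B` that do not contain `I` and with `dim B/P = m + 1`; the multiplicity
  of a closed subscheme along one of them may be computed upstairs, in `B_P`.
* a rational function on the subscheme given by `W` is a quotient `f/g` of homogeneous elements of
  the same degree, outside `W`; its divisor is `[V(W + f)] - [V(W + g)]`.
* `OpClass k A p` are weak operational classes of degree `p` on `X = Spec A`. Every element of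
  Fulton's operational Chow group `A^p_op(X)_ℚ` gives one, with the same value on every `T`: only the
  quasi-projective `T` above are tested, and only two of the properties of Fulton's classes are
  asked for. So the set of the classes `pull c` below contains the image of `A^p_op(X)_ℚ`, and a
  statement that some class is not of the form `pull c` is stronger than the statement that it is
  not in the image of `A^p_op(X)_ℚ`.
* `[𝔸ⁿ / G_m]`, with weights `w`, is a smooth connected stack with good moduli space
  `X = Spec k[x₁, …, xₙ]^{G_m}`; its integral closed substacks are the `[V(P) / G_m]` for the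
  homogeneous primes `P`, and its Chow groups are the equivariant Chow groups of Edidin and Graham,
  which are the ones of the schemes `((𝔸ᴺ ∖ 0) × 𝔸ⁿ) / G_m`, in codimensions less than `N`.
-/

namespace Pool.Agent.OpChow

open MvPolynomial

universe u

attribute [local instance] MvPolynomial.weightedGradedAlgebra

/-- The length of `B_Q / J B_Q`, the multiplicity of the subscheme defined by the ideal `J` along
the point `Q` (and `0` if this length is infinite, i.e. if `Q` is not a generic point of `V(J)`
but lies on it). -/
noncomputable def mult {B : Type u} [CommRing B] (J Q : Ideal B) [Q.IsPrime] : ℕ :=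
  (Module.length (Localization.AtPrime Q)
    (Localization.AtPrime Q ⧸ J.map (algebraMap B (Localization.AtPrime Q)))).toNat

/-- A presentation `T = (Spec B ∖ V(I)) / G_m` of a quasi-projective `k`-scheme. -/
structure QP (k : Type u) [Field k] where
  B : Type u
  [commRing : CommRing B]
  [algebra : Algebra k B]
  gr : ℤ → Submodule k B
  [graded : GradedAlgebra gr]
  [finiteType : Algebra.FiniteType k B]
  I : Ideal B
  I_hom : I.IsHomogeneous gr
  free : ∀ Q : Ideal B, Q.IsPrime → ¬ I ≤ Q → ∃ b ∈ gr 1, b ∉ Q

attribute [instance] QP.commRing QP.algebra QP.graded QP.finiteType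

variable {k : Type u} [Field k]

/-- The integral closed subschemes of dimension `m`. -/
structure QP.Sub (T : QP k) (m : ℕ) where
  P : Ideal T.B
  prime : P.IsPrime
  hom : P.IsHomogeneous T.gr
  not_le : ¬ T.I ≤ P
  dim : ringKrullDim (T.B ⧸ P) = ((m + 1 : ℕ) : WithBot ℕ∞)

/-- The cycles of dimension `m`, with rational coefficients. -/
abbrev QP.Cyc (T : QP k) (m : ℕ) : Type u := T.Sub m →₀ ℚ

/-- The cycle of dimension `m` of the closed subscheme defined by the homogeneous ideal `J`: the sum
of its irreducible components of dimension `m`, with their multiplicities. -/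
noncomputable def QP.cyc (T : QP k) (m : ℕ) (J : Ideal T.B) : T.Cyc m :=
  ∑ᶠ V : T.Sub m, haveI := V.prime; Finsupp.single V (mult J V.P : ℚ)

/-- The cycles of dimension `m` that are rationally equivalent to `0`: the span of the divisors of
the rational functions `f/g` on the integral closed subschemes of dimension `m + 1`. -/
noncomputable def QP.Rat (T : QP k) (m : ℕ) : Submodule ℚ (T.Cyc m) :=
  Submodule.span ℚ {z | ∃ (W : T.Sub (m + 1)) (a : ℤ) (f g : T.B), f ∈ T.gr a ∧ g ∈ T.gr a ∧
    f ∉ W.P ∧ g ∉ W.P ∧ z = T.cyc m (W.P ⊔ Ideal.span {f}) - T.cyc m (W.P ⊔ Ideal.span {g})}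

/-- The Chow group `A_m(T)`, with rational coefficients. -/
def QP.Chow (T : QP k) (m : ℕ) : Type u := T.Cyc m ⧸ T.Rat m

noncomputable instance (T : QP k) (m : ℕ) : AddCommGroup (T.Chow m) :=
  inferInstanceAs (AddCommGroup (T.Cyc m ⧸ T.Rat m))

noncomputable instance (T : QP k) (m : ℕ) : Module ℚ (T.Chow m) :=
  inferInstanceAs (Module ℚ (T.Cyc m ⧸ T.Rat m))

/-- The class of a cycle. -/
noncomputable def QP.cl (T : QP k) {m : ℕ} (z : T.Cyc m) : T.Chow m := (T.Rat m).mkQ z

/-- `T'` is the effective Cartier divisor `s = 0` of `T`, for a regular function `s` on `T`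
(given by a nonzerodivisor of degree `0`). -/
structure QP.Div (T T' : QP k) where
  s : T.B
  s_deg : s ∈ T.gr 0
  s_reg : s ∈ nonZeroDivisors T.B
  φ : T.B →ₐ[k] T'.B
  surj : Function.Surjective φ
  graded : ∀ i, ∀ b ∈ T.gr i, φ b ∈ T'.gr i
  ker : RingHom.ker φ = Ideal.span {s}
  I_map : T'.I = T.I.map φ

/-- Intersection with the divisor `s = 0`: an integral subscheme on which `s` does not vanish
identically goes to the cycle of its intersection with `T'`, and one on which `s = 0` goes to `0`
(the normal bundle of the divisor is trivial). -/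
noncomputable def QP.Div.gysin {T T' : QP k} (D : QP.Div T T') (m : ℕ) (z : T.Cyc (m + 1)) :
    T'.Cyc m :=
  open scoped Classical in
  z.sum fun V q => if D.s ∈ V.P then 0 else q • T'.cyc m (V.P.map D.φ)

/-- A morphism `T → Spec A`, given by a homomorphism from `A` to `B₀`. -/
structure Over (k : Type u) [Field k] (A : Type u) [CommRing A] [Algebra k A] where
  T : QP k
  ψ : A →ₐ[k] T.B
  deg : ∀ a, ψ a ∈ T.gr 0

/-- The morphism `T → Spec A` factors through a `k`-point of `Spec A`. -/
def Over.IsPoint {A : Type u} [CommRing A] [Algebra k A] (Y : Over k A) : Prop :=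
  ∃ χ : A →ₐ[k] k, ∀ a, Y.ψ a = algebraMap k Y.T.B (χ a)

/-- The restriction of a morphism `T → Spec A` to an effective Cartier divisor of `T`. -/
noncomputable def Over.restrict {A : Type u} [CommRing A] [Algebra k A] (Y : Over k A)
    {T' : QP k} (D : QP.Div Y.T T') : Over k A where
  T := T'
  ψ := D.φ.comp Y.ψ
  deg a := D.graded 0 _ (Y.deg a)

/-- Weak operational classes of degree `p` on the affine scheme `Spec A`: for every `T → Spec A`,
a homomorphism `A_{p+m}(T) → A_m(T)`, with the following properties, which all the operational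
classes of Fulton have:
* `point`: if `T → Spec A` factors through a `k`-point and `p > 0`, it is `0` (the pull-back of the
  class to the point lies in `A^p_op(Spec k) = A_{-p}(Spec k) = 0`);
* `div`: it commutes with the intersection with effective Cartier divisors `s = 0`, that is, with
  the refined Gysin map of `{0} → 𝔸¹` for `s : T → 𝔸¹` (here `w` is any cycle which represents the
  image of the class of `z`). -/
structure OpClass (k : Type u) [Field k] (A : Type u) [CommRing A] [Algebra k A] (p : ℕ) where
  c : ∀ (Y : Over k A) (m : ℕ), Y.T.Chow (p + m) →ₗ[ℚ] Y.T.Chow m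
  point : 0 < p → ∀ Y : Over k A, Y.IsPoint → ∀ (m : ℕ) (x : Y.T.Chow (p + m)), c Y m x = 0
  div : ∀ (Y : Over k A) (T' : QP k) (D : QP.Div Y.T T') (m : ℕ) (z : Y.T.Cyc (p + (m + 1)))
    (w : Y.T.Cyc (m + 1)), c Y (m + 1) (Y.T.cl z) = Y.T.cl w →
      c (Y.restrict D) m (T'.cl (D.gysin (p + m) z)) = T'.cl (D.gysin m w)

/-! ### The quotient stack `[𝔸ⁿ / G_m]` -/

section Stack

variable (k) {n : ℕ} (w : Fin n → ℤ)

/-- The weights on `𝔸ᴺ × 𝔸ⁿ`: `1` on the first factor, `w` on the second. -/
def wts (N : ℕ) {n : ℕ} (w : Fin n → ℤ) : Fin N ⊕ Fin n → ℤ := Sum.elim (fun _ => 1) w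

/-- The ring of invariants: `X = Spec` of it is the good moduli space of `[𝔸ⁿ / G_m]`. -/
noncomputable def Inv : Subalgebra k (MvPolynomial (Fin n) k) :=
  SetLike.GradeZero.subalgebra (weightedHomogeneousSubmodule k w)

/-- The approximation `((𝔸ᴺ ∖ 0) × 𝔸ⁿ) / G_m` of the stack `[𝔸ⁿ / G_m]`. -/
noncomputable def approx (N : ℕ) : QP k where
  B := MvPolynomial (Fin N ⊕ Fin n) k
  gr := weightedHomogeneousSubmodule k (wts N w)
  I := Ideal.span (Set.range fun j : Fin N => X (Sum.inl j))
  I_hom := by
    refine Ideal.homogeneous_span _ _ ?_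
    rintro _ ⟨j, rfl⟩
    exact ⟨1, isWeightedHomogeneous_X k (wts N w) (Sum.inl j)⟩
  free := by
    intro Q hQ hI
    by_contra hc
    push Not at hc
    apply hI
    rw [Ideal.span_le]
    rintro _ ⟨j, rfl⟩
    exact hc _ (isWeightedHomogeneous_X k (wts N w) (Sum.inl j))

/-- The inclusion of the coordinate ring of `𝔸ⁿ` in the one of `𝔸ᴺ × 𝔸ⁿ`. -/
noncomputable def incl (n N : ℕ) :
    MvPolynomial (Fin n) k →ₐ[k] MvPolynomial (Fin N ⊕ Fin n) k := rename Sum.inr

/-- The map from the approximation to the good moduli space. -/
noncomputable def toX (N : ℕ) : Inv k w →ₐ[k] (approx k w N).B := (incl k n N).comp (Inv k w).val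

theorem toX_mem (N : ℕ) (a : Inv k w) : toX k w N a ∈ (approx k w N).gr 0 := by
  obtain ⟨a, ha⟩ := a
  change rename Sum.inr a ∈ weightedHomogeneousSubmodule k (wts N w) 0
  have ha' : IsWeightedHomogeneous w a 0 := ha
  rw [mem_weightedHomogeneousSubmodule]
  intro d hd
  obtain ⟨e, he, hc⟩ := coeff_rename_ne_zero _ _ _ hd
  have := ha' hc
  rw [← he, ← this]
  simp only [Finsupp.weight_apply]
  rw [Finsupp.sum_mapDomain_index (by simp) (by intros; simp [add_mul])]
  rfl

/-- `A^p([𝔸ⁿ / G_m])_ℚ`, the Chow group of cycles of codimension `p`: by definition (Edidin and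
Graham) it is the one of `((𝔸ᵖ⁺¹ ∖ 0) × 𝔸ⁿ) / G_m`, of dimension `p + n`. -/
abbrev AX (p : ℕ) : Type u := (approx k w (p + 1)).Chow n

/-- The map from the approximation to the good moduli space. -/
noncomputable def overX (N : ℕ) : Over k (Inv k w) where
  T := approx k w N
  ψ := toX k w N
  deg := toX_mem k w N

/-- The class in `A^p` of the closed substack of codimension `p` defined by the homogeneous ideal
`P`. -/
noncomputable def cls (p : ℕ) (P : Ideal (MvPolynomial (Fin n) k)) : AX k w p :=
  (approx k w (p + 1)).cl ((approx k w (p + 1)).cyc n (P.map (incl k n (p + 1))))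

/-- The pull-back `c ↦ c ∩ [𝒳]`, from the operational classes of the good moduli space. -/
noncomputable def pull (p : ℕ) (c : OpClass k (Inv k w) p) : AX k w p :=
  c.c (overX k w (p + 1)) n ((approx k w (p + 1)).cl ((approx k w (p + 1)).cyc (p + n) ⊥))

/-- The integral closed substack of `[𝔸ⁿ / G_m]` defined by the ideal `P` is primarily strong: it
has the same codimension as its image, and the scheme theoretic preimage of its image is
primary, with underlying reduced substack the one defined by `P`. -/
structure PrimarilyStrong (P : Ideal (MvPolynomial (Fin n) k)) : Prop where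
  prime : P.IsPrime
  hom : P.IsHomogeneous (weightedHomogeneousSubmodule k w)
  codim : P.height = (P.comap (Inv k w).val).height
  primary : ((P.comap (Inv k w).val).map (Inv k w).val).IsPrimary
  radical : ((P.comap (Inv k w).val).map (Inv k w).val).radical = P

/-- The subspace of `A^p` generated by the classes of the primarily strong integral substacks of
codimension `p`. -/
noncomputable def Apst (p : ℕ) : Submodule ℚ (AX k w p) :=
  Submodule.span ℚ {z | ∃ P : Ideal (MvPolynomial (Fin n) k), PrimarilyStrong k w P ∧
    ringKrullDim (MvPolynomial (Fin n) k ⧸ P) + p = n ∧ z = cls k w p P}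

/-- The point of the stack given by `v` is properly stable: it is the only point in its fibre over
the good moduli space, and its stabilizer is finite. -/
def PStable (v : Fin n → k) : Prop :=
  (∀ v' : Fin n → k, (∀ f : MvPolynomial (Fin n) k, f ∈ Inv k w → eval v' f = eval v f) →
    ∃ t : kˣ, ∀ i, v' i = ((t ^ (w i) : kˣ) : k) * v i) ∧
  {t : kˣ | ∀ i, ((t ^ (w i) : kˣ) : k) * v i = v i}.Finite

/-- The properly stable points form a dense open substack. -/
def ProperlyStable : Prop :=
  ∃ J : Ideal (MvPolynomial (Fin n) k), J ≠ ⊥ ∧ ∀ v : Fin n → k,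
    PStable k w v ↔ ∃ f ∈ J, eval v f ≠ 0

/-- The weights `1, 1, 1, -1, -1, -1` of the example. -/
def w₀ : Fin 6 → ℤ := ![1, 1, 1, -1, -1, -1]

end Stack

end Pool.Agent.OpChow
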