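import Pool.Agent.Lib_helper48.OpChow.Basics
/-! Block HOM: uniqueness of kappa on the product with a line. -/

namespace Pool.Agent.OpChow

open MvPolynomial

universe u

attribute [local instance] MvPolynomial.weightedGradedAlgebra

variable {k : Type u} [Field k]

theorem hom_mem_colI {B : Type u} [CommRing B] {f x : B} {J : Ideal B} :
    x ∈ colI f J ↔ f * x ∈ J := by
  simp [colI, Submodule.mem_comap]

theorem hom_colI_hom {B : Type u} [CommRing B] [Algebra k B] {gr : ℤ → Submodule k B}
    [GradedAlgebra gr] {J : Ideal B} (hJ : J.IsHomogeneous gr) {a : ℤ} {f : B} (hf : f ∈ gr a) :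
    (colI f J).IsHomogeneous gr := by
  intro i x hx
  rw [hom_mem_colI] at hx ⊢
  rw [← DirectSum.coe_decompose_mul_add_of_left_mem gr hf]
  exact hJ _ hx

theorem hom_sup_hom {B : Type u} [CommRing B] [Algebra k B] {gr : ℤ → Submodule k B}
    [GradedAlgebra gr] {J : Ideal B} (hJ : J.IsHomogeneous gr) {a : ℤ} {f : B} (hf : f ∈ gr a) :
    (J ⊔ Ideal.span {f}).IsHomogeneous gr := by
  refine Ideal.IsHomogeneous.sup hJ (Ideal.homogeneous_span _ _ ?_)
  intro x hx
  rw [Set.mem_singleton_iff] at hx
  rw [hx]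
  exact ⟨a, hf⟩

theorem hom_kap_prime {B : Type u} [CommRing B] [Algebra k B] {gr : ℤ → Submodule k B}
    [GradedAlgebra gr] (κ : Kap gr) {P : Ideal B} (hP : P.IsPrime) (hh : P.IsHomogeneous gr)
    {a : ℤ} {f : B} (hf : f ∈ gr a) (hfP : f ∉ P) :
    κ.κ (P ⊔ Ideal.span {f}) = (1 - tz a) * κ.κ P := by
  have h1 : colI f P = P := by
    ext x
    rw [hom_mem_colI]
    exact ⟨fun h => (hP.mem_or_mem h).resolve_left hfP, fun h => P.mul_mem_left _ h⟩
  have h2 := κ.add P hh a f hf
  rw [h1] at h2
  linear_combination -h2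

theorem hom_tz_ne {a : ℤ} (ha : a ≠ 0) : (1 : PowerSeries ℚ) - tz a ≠ 0 := by
  intro h
  have h1 : tau ^ a = 1 := by
    apply Units.ext
    rw [sub_eq_zero] at h
    rw [Units.val_one]
    exact h.symm
  have h2 : tau ^ a.natAbs = 1 := by
    rcases Int.natAbs_eq a with h3 | h3
    · rw [h3, zpow_natCast] at h1
      exact h1
    · rw [h3, zpow_neg, zpow_natCast, inv_eq_one] at h1
      exact h1
  have h3 : (1 - PowerSeries.X : PowerSeries ℚ) ^ a.natAbs = 1 := by
    have := congrArg (fun u : (PowerSeries ℚ)ˣ => (u : PowerSeries ℚ)) h2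
    simpa [tau] using this
  have h4 : (((1 - Polynomial.X : Polynomial ℚ) ^ a.natAbs : Polynomial ℚ) : PowerSeries ℚ) =
      ((1 : Polynomial ℚ) : PowerSeries ℚ) := by
    rw [Polynomial.coe_pow, Polynomial.coe_sub, Polynomial.coe_X, Polynomial.coe_one]
    exact h3
  rw [Polynomial.coe_inj] at h4
  have h5 := congrArg Polynomial.natDegree h4
  rw [Polynomial.natDegree_pow, Polynomial.natDegree_one] at h5
  have h6 : (1 - Polynomial.X : Polynomial ℚ).natDegree = 1 := by
    rw [show (1 - Polynomial.X : Polynomial ℚ) = - (Polynomial.X - Polynomial.C 1) by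
      rw [Polynomial.C_1]; ring, Polynomial.natDegree_neg, Polynomial.natDegree_X_sub_C]
  rw [h6, mul_one] at h5
  exact ha (Int.natAbs_eq_zero.1 h5)

section Line

variable {σ : Type}

/-- the ideal of the line -/
noncomputable def homJ (k : Type u) [Field k] (σ : Type) : Ideal (MvPolynomial (Option σ) k) :=
  Ideal.span (Set.range fun i : σ => X (some i))

/-- restriction to the line -/
noncomputable def homP (k : Type u) [Field k] (σ : Type) :
    MvPolynomial (Option σ) k →ₐ[k] Polynomial k :=
  aeval fun o => o.elim Polynomial.X (fun _ => 0)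

theorem hom_sub_mem (p : MvPolynomial (Option σ) k) :
    p - Polynomial.aeval (X none : MvPolynomial (Option σ) k) (homP k σ p) ∈ homJ k σ := by
  have h : (Ideal.Quotient.mkₐ k (homJ k σ)) =
      (Ideal.Quotient.mkₐ k (homJ k σ)).comp
        ((Polynomial.aeval (X none : MvPolynomial (Option σ) k)).comp (homP k σ)) := by
    apply MvPolynomial.algHom_ext
    intro o
    cases o with
    | none => simp [homP]
    | some i =>
      rw [AlgHom.comp_apply, AlgHom.comp_apply]
      have h1 : homP k σ (X (some i)) = 0 := by simp [homP]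
      rw [h1, map_zero, map_zero]
      exact Ideal.Quotient.eq_zero_iff_mem.2 (Ideal.subset_span ⟨i, rfl⟩)
  have h2 := congrArg (fun g => g p) h
  exact Ideal.Quotient.eq.1 h2

theorem hom_ker : RingHom.ker (homP k σ) = homJ k σ := by
  apply le_antisymm
  · intro p hp
    have h := hom_sub_mem (k := k) p
    rw [RingHom.mem_ker] at hp
    rwa [hp, map_zero, sub_zero] at h
  · unfold homJ
    rw [Ideal.span_le]
    rintro _ ⟨i, rfl⟩
    simp [homP]

theorem hom_J_prime : (homJ k σ).IsPrime := by
  rw [← hom_ker]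
  exact RingHom.ker_isPrime _

theorem hom_J_hom (w : σ → ℤ) : (homJ k σ).IsHomogeneous (wg k (wtl w)) := by
  refine Ideal.homogeneous_span _ _ ?_
  rintro _ ⟨i, rfl⟩
  exact ⟨wtl w (some i), isWeightedHomogeneous_X k (wtl w) (some i)⟩

theorem hom_deg0 (w : σ → ℤ) (b : k) :
    (X none - C b : MvPolynomial (Option σ) k) ∈ wg k (wtl w) 0 := by
  refine Submodule.sub_mem _ (isWeightedHomogeneous_X k (wtl w) none) ?_
  exact isWeightedHomogeneous_C _ _

theorem hom_notin (b : k) : (X none - C b : MvPolynomial (Option σ) k) ∉ homJ k σ := by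
  rw [← hom_ker, RingHom.mem_ker]
  have : homP k σ (X none - C b) = Polynomial.X - Polynomial.C b := by
    simp [homP, Polynomial.C_eq_algebraMap]
  change homP k σ (X none - C b) ≠ 0
  rw [this]
  exact Polynomial.X_sub_C_ne_zero b

theorem hom_point_mem (b : k) (p : MvPolynomial (Option σ) k) :
    p - C (eval (fun o : Option σ => o.elim b (fun _ => 0)) p) ∈
      homJ k σ ⊔ Ideal.span {X none - C b} := by
  have h : (Ideal.Quotient.mkₐ k (homJ k σ ⊔ Ideal.span {X none - C b})) =
      (Ideal.Quotient.mkₐ k (homJ k σ ⊔ Ideal.span {X none - C b})).comp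
        ((Algebra.ofId k (MvPolynomial (Option σ) k)).comp
          (aeval (fun o : Option σ => o.elim b (fun _ => (0 : k))))) := by
    apply MvPolynomial.algHom_ext
    intro o
    apply Ideal.Quotient.eq.2
    have e : ((Algebra.ofId k (MvPolynomial (Option σ) k)).comp
        (aeval (fun o : Option σ => o.elim b (fun _ => (0 : k))))) (X o) =
        C (o.elim b (fun _ => (0 : k))) := by
      rw [AlgHom.comp_apply, aeval_X]
      rfl
    change X o - ((Algebra.ofId k (MvPolynomial (Option σ) k)).comp
        (aeval (fun o : Option σ => o.elim b (fun _ => (0 : k))))) (X o) ∈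
      homJ k σ ⊔ Ideal.span {X none - C b}
    rw [e]
    cases o with
    | none =>
      exact (le_sup_right (a := homJ k σ)) (Ideal.mem_span_singleton_self _)
    | some i =>
      have e2 : (C ((some i : Option σ).elim b (fun _ => (0 : k))) :
          MvPolynomial (Option σ) k) = 0 := C_0
      rw [e2, sub_zero]
      exact (le_sup_left (a := homJ k σ)) (Ideal.subset_span ⟨i, rfl⟩)
  have h2 := congrArg (fun g => g p) h
  have h3 := Ideal.Quotient.eq.1 h2
  exact h3

theorem hom_prime_cases [IsAlgClosed k] {J : Ideal (MvPolynomial (Option σ) k)} (hJ : J.IsPrime)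
    (h0 : homJ k σ ≤ J) : J = homJ k σ ∨ ∃ b : k, J = homJ k σ ⊔ Ideal.span {X none - C b} := by
  by_cases hle : J ≤ homJ k σ
  · exact Or.inl (le_antisymm hle h0)
  right
  rw [SetLike.not_le_iff_exists] at hle
  obtain ⟨p, hpJ, hp⟩ := hle
  have h1 := hom_sub_mem (k := k) p
  have h2 : Polynomial.aeval (X none : MvPolynomial (Option σ) k) (homP k σ p) ∈ J := by
    have := J.sub_mem hpJ (h0 h1)
    rwa [sub_sub_cancel] at this
  have h3 : homP k σ p ≠ 0 := by
    intro h
    exact hp (by rw [← hom_ker]; exact h)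
  have h4 : ∃ b : k, (X none - C b : MvPolynomial (Option σ) k) ∈ J := by
    have hs := IsAlgClosed.splits (homP k σ p)
    rw [hs.eq_prod_roots, map_mul, Polynomial.aeval_C] at h2
    have h5 : algebraMap k (MvPolynomial (Option σ) k) (homP k σ p).leadingCoeff ∉ J := by
      intro h
      refine hJ.ne_top (Ideal.eq_top_of_isUnit_mem _ h ?_)
      exact (Ne.isUnit (Polynomial.leadingCoeff_ne_zero.2 h3)).map _
    have h6 := (hJ.mem_or_mem h2).resolve_left h5
    rw [map_multiset_prod, hJ.multiset_prod_mem_iff_exists_mem] at h6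
    obtain ⟨q, hq, hqJ⟩ := h6
    rw [Multiset.mem_map] at hq
    obtain ⟨q', hq', rfl⟩ := hq
    rw [Multiset.mem_map] at hq'
    obtain ⟨b, _, rfl⟩ := hq'
    refine ⟨b, ?_⟩
    rw [map_sub, Polynomial.aeval_X, Polynomial.aeval_C] at hqJ
    exact hqJ
  obtain ⟨b, hb⟩ := h4
  refine ⟨b, le_antisymm ?_ ?_⟩
  · intro q hq
    have h5 := hom_point_mem (k := k) b q
    have h6 : homJ k σ ⊔ Ideal.span {X none - C b} ≤ J :=
      sup_le h0 (by rw [Ideal.span_singleton_le_iff_mem]; exact hb)
    have h7 : (C (eval (fun o : Option σ => o.elim b (fun _ => 0)) q) :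
        MvPolynomial (Option σ) k) ∈ J := by
      have := J.sub_mem hq (h6 h5)
      rwa [sub_sub_cancel] at this
    have h8 : eval (fun o : Option σ => o.elim b (fun _ => 0)) q = 0 := by
      by_contra hne
      refine hJ.ne_top (Ideal.eq_top_of_isUnit_mem _ h7 ?_)
      exact (Ne.isUnit hne).map _
    rwa [h8, map_zero, sub_zero] at h5
  · exact sup_le h0 (by rw [Ideal.span_singleton_le_iff_mem]; exact hb)

end Line

/-- block HOM: uniqueness of `κ` on the product with a line -/
theorem kap_unique [IsAlgClosed k] {σ : Type} [Finite σ] (w : σ → ℤ) (hw : ∀ i, w i ≠ 0)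
    (κ κ' : Kap (wg k (wtl w)))
    (h : κ.κ (Ideal.span (Set.range fun i : σ => X (some i))) =
      κ'.κ (Ideal.span (Set.range fun i : σ => X (some i))))
    (J : Ideal (MvPolynomial (Option σ) k)) (hJ : J.IsHomogeneous (wg k (wtl w))) :
    κ.κ J = κ'.κ J := by
  revert hJ
  induction J using WellFoundedGT.induction with
  | ind J ih =>
  intro hJ
  by_cases htop : J = ⊤
  · rw [htop, κ.top, κ'.top]
  by_cases hp : J.IsPrime
  · by_cases hv : ∃ i : σ, (X (some i) : MvPolynomial (Option σ) k) ∉ J
    · obtain ⟨i, hi⟩ := hv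
      have hX : (X (some i) : MvPolynomial (Option σ) k) ∈ wg k (wtl w) (w i) :=
        isWeightedHomogeneous_X k (wtl w) (some i)
      have hlt : J < J ⊔ Ideal.span {X (some i)} := by
        refine lt_of_le_of_ne le_sup_left ?_
        intro heq
        apply hi
        rw [heq]
        exact (le_sup_right (a := J)) (Ideal.mem_span_singleton_self _)
      have h1 := ih _ hlt (hom_sup_hom hJ hX)
      rw [hom_kap_prime κ hp hJ hX hi, hom_kap_prime κ' hp hJ hX hi] at h1
      exact mul_left_cancel₀ (hom_tz_ne (hw i)) h1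
    · push Not at hv
      have h0 : homJ k σ ≤ J := by
        unfold homJ
        rw [Ideal.span_le]
        rintro _ ⟨i, rfl⟩
        exact hv i
      rcases hom_prime_cases hp h0 with h1 | ⟨b, h1⟩
      · rw [h1]
        exact h
      · have h2 : ∀ κ : Kap (wg k (wtl w)), κ.κ J = 0 := by
          intro κ
          rw [h1, hom_kap_prime κ hom_J_prime (hom_J_hom w) (hom_deg0 w b) (hom_notin b)]
          have : tz 0 = 1 := by simp [tz]
          rw [this, sub_self, zero_mul]
        rw [h2, h2]
  · have h1 : ∃ x y : MvPolynomial (Option σ) k, SetLike.IsHomogeneousElem (wg k (wtl w)) x ∧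
        SetLike.IsHomogeneousElem (wg k (wtl w)) y ∧ x * y ∈ J ∧ x ∉ J ∧ y ∉ J := by
      by_contra hc
      push Not at hc
      apply hp
      refine Ideal.IsHomogeneous.isPrime_of_homogeneous_mem_or_mem hJ htop ?_
      intro x y hx hy hxy
      by_contra hor
      push Not at hor
      exact hor.2 (hc x y hx hy hxy hor.1)
    obtain ⟨x, y, ⟨a, hx⟩, _, hxy, hxJ, hyJ⟩ := h1
    have hlt1 : J < colI x J := by
      refine lt_of_le_of_ne ?_ ?_
      · intro z hz
        rw [hom_mem_colI]
        exact J.mul_mem_left _ hz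
      · intro heq
        apply hyJ
        rw [heq, hom_mem_colI]
        exact hxy
    have hlt2 : J < J ⊔ Ideal.span {x} := by
      refine lt_of_le_of_ne le_sup_left ?_
      intro heq
      apply hxJ
      rw [heq]
      exact (le_sup_right (a := J)) (Ideal.mem_span_singleton_self _)
    rw [κ.add J hJ a x hx, κ'.add J hJ a x hx, ih _ hlt1 (hom_colI_hom hJ hx),
      ih _ hlt2 (hom_sup_hom hJ hx)]

end Pool.Agent.OpChow
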