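import Pool.Agent.Lib_helper48.OpChow.Basics
namespace Pool.Agent.OpChow

open MvPolynomial

universe u

attribute [local instance] MvPolynomial.weightedGradedAlgebra

variable {k : Type u} [Field k]

/-- the first index of a pair -/
def PS_x (i : Fin 3) : Fin 6 := ⟨i.1, by omega⟩

/-- the second index of a pair -/
def PS_y (i : Fin 3) : Fin 6 := ⟨i.1 + 3, by omega⟩

theorem PS_w_x (i : Fin 3) : w₀ (PS_x i) = 1 := by
  fin_cases i <;> rfl

theorem PS_w_y (i : Fin 3) : w₀ (PS_y i) = -1 := by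
  fin_cases i <;> rfl

theorem PS_cases (m : Fin 6) : (∃ i, m = PS_x i) ∨ (∃ i, m = PS_y i) := by
  by_cases h : m.1 < 3
  · exact Or.inl ⟨⟨m.1, h⟩, by simp [PS_x]⟩
  · refine Or.inr ⟨⟨m.1 - 3, by omega⟩, ?_⟩
    apply Fin.ext
    simp only [PS_y]
    omega

theorem PS_inv_mem (i j : Fin 3) :
    (X (PS_x i) * X (PS_y j) : MvPolynomial (Fin 6) k) ∈ Inv k w₀ := by
  change IsWeightedHomogeneous w₀ (X (PS_x i) * X (PS_y j)) 0
  have h := (isWeightedHomogeneous_X k w₀ (PS_x i)).mul (isWeightedHomogeneous_X k w₀ (PS_y j))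
  rw [PS_w_x, PS_w_y] at h
  simpa using h

/-- the ideal of the products `x_i y_j` -/
noncomputable def PS_J (k : Type u) [Field k] : Ideal (MvPolynomial (Fin 6) k) :=
  Ideal.span (Set.range fun p : Fin 3 × Fin 3 => X (PS_x p.1) * X (PS_y p.2))

theorem PS_ne_bot : PS_J k ≠ ⊥ := by
  intro h
  have h1 : (X (PS_x 0) * X (PS_y 0) : MvPolynomial (Fin 6) k) ∈ PS_J k :=
    Ideal.subset_span ⟨(0, 0), rfl⟩
  rw [h, Ideal.mem_bot] at h1
  exact mul_ne_zero (X_ne_zero _) (X_ne_zero _) h1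

theorem PS_iff (v : Fin 6 → k) : (∃ f ∈ PS_J k, eval v f ≠ 0) ↔
    (∃ i, v (PS_x i) ≠ 0) ∧ (∃ j, v (PS_y j) ≠ 0) := by
  constructor
  · rintro ⟨f, hf, hv⟩
    by_contra hc
    apply hv
    have : PS_J k ≤ RingHom.ker (eval v) := by
      rw [PS_J, Ideal.span_le]
      rintro _ ⟨⟨i, j⟩, rfl⟩
      change eval v (X (PS_x i) * X (PS_y j)) = 0
      rw [map_mul, eval_X, eval_X]
      by_contra hne
      exact hc ⟨⟨i, left_ne_zero_of_mul hne⟩, ⟨j, right_ne_zero_of_mul hne⟩⟩
    exact this hf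
  · rintro ⟨⟨i, hi⟩, ⟨j, hj⟩⟩
    refine ⟨X (PS_x i) * X (PS_y j), Ideal.subset_span ⟨(i, j), rfl⟩, ?_⟩
    rw [map_mul, eval_X, eval_X]
    exact mul_ne_zero hi hj

/-- If `x = 0` or `y = 0` then every invariant has the same value at `v` and at `0`. -/
theorem PS_eval (v : Fin 6 → k) (h : (∀ i, v (PS_x i) = 0) ∨ (∀ j, v (PS_y j) = 0))
    (f : MvPolynomial (Fin 6) k) (hf : f ∈ Inv k w₀) : eval 0 f = eval v f := by
  classical
  have hf' : IsWeightedHomogeneous w₀ f 0 := hf
  rw [eval_eq', eval_eq']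
  refine Finset.sum_congr rfl fun d hd => ?_
  have hd' := hf' (mem_support_iff.mp hd)
  by_cases h0 : d = 0
  · subst h0; simp
  congr 1
  -- weight zero
  have hw : (d (PS_x 0) : ℤ) + d (PS_x 1) + d (PS_x 2) - d (PS_y 0) - d (PS_y 1) - d (PS_y 2) = 0 := by
    rw [Finsupp.weight_apply, Finsupp.sum_fintype _ _ (by simp), Fin.sum_univ_six] at hd'
    change (d 0 • (1 : ℤ)) + d 1 • (1 : ℤ) + d 2 • (1 : ℤ) + d 3 • (-1 : ℤ) + d 4 • (-1 : ℤ)
      + d 5 • (-1 : ℤ) = 0 at hd'
    change (d 0 : ℤ) + d 1 + d 2 - d 3 - d 4 - d 5 = 0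
    simp only [nsmul_eq_mul, mul_one, mul_neg] at hd'
    linarith
  have hall : (∀ i, d (PS_x i) = 0) → (∀ i, d (PS_y i) = 0) → False := by
    intro hx hy
    apply h0
    ext m
    rcases PS_cases m with ⟨i, rfl⟩ | ⟨i, rfl⟩
    · simpa using hx i
    · simpa using hy i
  have hx : ∃ i, d (PS_x i) ≠ 0 := by
    by_contra hc
    push Not at hc
    refine hall hc fun i => ?_
    rw [hc 0, hc 1, hc 2] at hw
    have : d (PS_y 0) = 0 ∧ d (PS_y 1) = 0 ∧ d (PS_y 2) = 0 := by omega
    fin_cases i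
    · exact this.1
    · exact this.2.1
    · exact this.2.2
  have hy : ∃ i, d (PS_y i) ≠ 0 := by
    by_contra hc
    push Not at hc
    refine hall (fun i => ?_) hc
    rw [hc 0, hc 1, hc 2] at hw
    have : d (PS_x 0) = 0 ∧ d (PS_x 1) = 0 ∧ d (PS_x 2) = 0 := by omega
    fin_cases i
    · exact this.1
    · exact this.2.1
    · exact this.2.2
  obtain ⟨i, hi⟩ := hx
  obtain ⟨j, hj⟩ := hy
  have e1 : ∏ m, (0 : Fin 6 → k) m ^ d m = 0 :=
    Finset.prod_eq_zero (Finset.mem_univ (PS_x i)) (by simp [hi])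
  rw [e1]
  symm
  rcases h with h | h
  · exact Finset.prod_eq_zero (Finset.mem_univ (PS_x i)) (by rw [h i]; simp [hi])
  · exact Finset.prod_eq_zero (Finset.mem_univ (PS_y j)) (by rw [h j]; simp [hj])

theorem PS_stable_of (v : Fin 6 → k) (i j : Fin 3) (hi : v (PS_x i) ≠ 0)
    (hj : v (PS_y j) ≠ 0) : PStable k w₀ v := by
  constructor
  · intro v' hv
    have hinv : ∀ a b : Fin 3, v' (PS_x a) * v' (PS_y b) = v (PS_x a) * v (PS_y b) := by
      intro a b
      have := hv _ (PS_inv_mem (k := k) a b)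
      simpa only [map_mul, eval_X] using this
    have hne : v' (PS_x i) * v' (PS_y j) ≠ 0 := by
      rw [hinv]; exact mul_ne_zero hi hj
    have hi' := left_ne_zero_of_mul hne
    have hj' := right_ne_zero_of_mul hne
    refine ⟨Units.mk0 (v' (PS_x i) / v (PS_x i)) (div_ne_zero hi' hi), fun m => ?_⟩
    rcases PS_cases m with ⟨a, rfl⟩ | ⟨b, rfl⟩
    · rw [PS_w_x, zpow_one, Units.val_mk0]
      have h1 := hinv a j
      have h2 := hinv i j
      have h3 : v' (PS_y j) * (v' (PS_x a) * v (PS_x i)) =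
          v' (PS_y j) * (v' (PS_x i) * v (PS_x a)) := by
        linear_combination v (PS_x i) * h1 - v (PS_x a) * h2
      have h4 := mul_left_cancel₀ hj' h3
      field_simp
      linear_combination h4
    · rw [PS_w_y, zpow_neg, zpow_one, Units.val_inv_eq_inv_val, Units.val_mk0]
      have h1 := hinv i b
      field_simp
      linear_combination h1
  · refine Set.Finite.subset (Set.finite_singleton (1 : kˣ)) ?_
    intro t ht
    have h := ht (PS_x i)
    rw [PS_w_x, zpow_one] at h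
    rw [Set.mem_singleton_iff]
    apply Units.ext
    have h' : ((t : k) - 1) * v (PS_x i) = 0 := by rw [sub_mul, h]; ring
    have := (mul_eq_zero.mp h').resolve_right hi
    rw [Units.val_one]
    exact sub_eq_zero.mp this

/-- block PS -/
theorem properly_stable [IsAlgClosed k] : ProperlyStable k w₀ := by
  refine ⟨PS_J k, PS_ne_bot, fun v => ?_⟩
  rw [PS_iff]
  constructor
  · intro h
    by_contra hc
    have hor : (∀ i, v (PS_x i) = 0) ∨ (∀ j, v (PS_y j) = 0) := by
      by_contra hc'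
      push Not at hc'
      exact hc hc'
    obtain ⟨t, ht⟩ := h.1 0 fun f hf => PS_eval v hor f hf
    have hv : ∀ m, v m = 0 := by
      intro m
      have h1 := ht m
      rw [Pi.zero_apply] at h1
      exact (mul_eq_zero.mp h1.symm).resolve_left (Units.ne_zero _)
    have hfin := h.2
    have huniv : {t : kˣ | ∀ i, ((t ^ (w₀ i) : kˣ) : k) * v i = v i} = Set.univ := by
      ext t
      simp [hv]
    rw [huniv, Set.finite_univ_iff] at hfin
    have hk : Finite k := by
      refine Finite.of_surjective (fun o : Option kˣ => o.elim (0 : k) Units.val) ?_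
      intro x
      by_cases hx : x = 0
      · exact ⟨none, hx.symm⟩
      · exact ⟨some (Units.mk0 x hx), rfl⟩
    exact Infinite.not_finite hk
  · rintro ⟨⟨i, hi⟩, ⟨j, hj⟩⟩
    exact PS_stable_of v i j hi hj

end Pool.Agent.OpChow
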