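import Pool.Agent.Lib_helper48.OpChow.CYC
namespace Pool.Agent.OpChow

open MvPolynomial

universe u

attribute [local instance] MvPolynomial.weightedGradedAlgebra

variable {k : Type u} [Field k]

theorem RAT_dim {R : Type u} [CommRing R] {P Q : Ideal R} (hP : P.IsPrime) (d : ℕ)
    (h : ringKrullDim (R ⧸ P) = ((d + 1 : ℕ) : WithBot ℕ∞)) (hPQ : P < Q) :
    ringKrullDim (R ⧸ Q) ≤ (d : WithBot ℕ∞) := by
  obtain ⟨x, hxQ, hxP⟩ := SetLike.exists_of_lt hPQ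
  have hx : Ideal.Quotient.mk P x ≠ 0 := fun h0 => hxP (Ideal.Quotient.eq_zero_iff_mem.mp h0)
  have h1 := ringKrullDim_succ_le_of_surjective (Ideal.Quotient.factor hPQ.le)
    (Ideal.Quotient.factor_surjective hPQ.le) (mem_nonZeroDivisors_of_ne_zero hx)
    (by rw [Ideal.Quotient.factor_mk]; exact Ideal.Quotient.eq_zero_iff_mem.mpr hxQ)
  rw [h] at h1
  have h2 : ringKrullDim (R ⧸ Q) + 1 ≤ (d : WithBot ℕ∞) + 1 := by
    refine h1.trans (le_of_eq ?_)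
    push_cast
    rfl
  rcases h3 : ringKrullDim (R ⧸ Q) with _ | m
  · exact bot_le
  · rw [h3] at h2
    have h4 : ((m + 1 : ℕ∞) : WithBot ℕ∞) ≤ ((d + 1 : ℕ∞) : WithBot ℕ∞) := h2
    have h5 : m + 1 ≤ (d : ℕ∞) + 1 := WithBot.coe_le_coe.mp h4
    have h6 : m ≤ (d : ℕ∞) := (ENat.add_le_add_iff_right (by simp)).mp h5
    exact WithBot.coe_le_coe.mpr h6

theorem RAT_div {n : ℕ} (p : ℕ) (w : Fin n → ℤ) (hw : ∀ i, w i ≠ 0)
    (κ : Kap (wg k (wts (p + 1) w)))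
    (P : Ideal (MvPolynomial (Fin (p + 1) ⊕ Fin n) k)) (hP : P.IsPrime)
    (hh : P.IsHomogeneous (wg k (wts (p + 1) w)))
    (hd : ringKrullDim (MvPolynomial (Fin (p + 1) ⊕ Fin n) k ⧸ P) =
      ((n + 1 + 1 : ℕ) : WithBot ℕ∞)) {a : ℤ} {f : MvPolynomial (Fin (p + 1) ⊕ Fin n) k}
    (hf : f ∈ wg k (wts (p + 1) w) a) (hfP : f ∉ P) :
    Lam p w κ ((approx k w (p + 1)).cyc n (P ⊔ Ideal.span {f})) =
      PowerSeries.coeff p ((1 - tz a) * κ.κ P) := by
  have hlt : P < P ⊔ Ideal.span {f} := by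
    refine lt_of_le_of_ne le_sup_left fun h => hfP ?_
    rw [h]
    exact Ideal.mem_sup_right (Ideal.mem_span_singleton_self f)
  rw [← kap_prime κ hP hh hf hfP]
  refine (kap_cyc p w hw κ _ ?_ ?_).symm
  · refine hh.sup (Ideal.homogeneous_span _ _ ?_)
    rintro x hx
    rw [Set.mem_singleton_iff.mp hx]
    exact ⟨a, hf⟩
  · intro Q _ hQ
    exact RAT_dim hP (n + 1) hd (lt_of_lt_of_le hlt hQ)

/-- block RAT (cites CYC, VAR): the functional is defined on the Chow group -/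
theorem lam_rat {n : ℕ} (p : ℕ) (w : Fin n → ℤ) (hw : ∀ i, w i ≠ 0)
    (κ : Kap (wg k (wts (p + 1) w))) :
    ∀ z ∈ (approx k w (p + 1)).Rat n, Lam p w κ z = 0 := by
  intro z hz
  refine Submodule.span_induction (p := fun z _ => Lam p w κ z = 0) ?_ ?_ ?_ ?_ hz
  · rintro z ⟨W, a, f, g, hf, hg, hfW, hgW, rfl⟩
    have h1 := RAT_div p w hw κ W.P W.prime W.hom W.dim hf hfW
    have h2 := RAT_div p w hw κ W.P W.prime W.hom W.dim hg hgW
    rw [map_sub]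
    exact sub_eq_zero.mpr (h1.trans h2.symm)
  · exact map_zero _
  · intro x y _ _ hx hy
    rw [map_add, hx, hy, add_zero]
  · intro c x _ hx
    rw [map_smul, hx, smul_zero]

end Pool.Agent.OpChow
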