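import Pool.Agent.Lib_helper48.OpChow.PZ
namespace Pool.Agent.OpChow

open MvPolynomial

universe u

attribute [local instance] MvPolynomial.weightedGradedAlgebra

variable {k : Type u} [Field k]

theorem str_comap_map {n : ℕ} (w : Fin n → ℤ) (J : Ideal (Inv k w)) :
    (J.map (Inv k w).val).comap (Inv k w).val = J := by
  refine le_antisymm ?_ Ideal.le_comap_map
  intro f hf
  rw [Ideal.mem_comap] at hf
  let A := weightedHomogeneousSubmodule k w
  -- projection
  have key : ∀ x ∈ J.map (Inv k w).val, ∀ s : MvPolynomial (Fin n) k,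
      ∃ g ∈ J, ((DirectSum.decompose A (s * x) 0 : A 0) : MvPolynomial (Fin n) k) = (Inv k w).val g := by
    intro x hx
    refine Submodule.span_induction ?_ ?_ ?_ ?_ hx
    · rintro _ ⟨j, hj, rfl⟩ s
      have hj0 : (Inv k w).val j ∈ A 0 := j.2
      refine ⟨⟨((DirectSum.decompose A s 0 : A 0) : MvPolynomial (Fin n) k),
        (DirectSum.decompose A s 0 : A 0).2⟩ * j, J.mul_mem_left _ hj, ?_⟩
      rw [DirectSum.coe_decompose_mul_of_right_mem_zero A hj0]
      rfl
    · intro s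
      exact ⟨0, J.zero_mem, by simp⟩
    · intro x y _ _ hx hy s
      obtain ⟨g, hg, h1⟩ := hx s
      obtain ⟨g', hg', h2⟩ := hy s
      refine ⟨g + g', J.add_mem hg hg', ?_⟩
      rw [mul_add, DirectSum.decompose_add, map_add, ← h1, ← h2]
      rfl
    · intro a x _ hx s
      obtain ⟨g, hg, h1⟩ := hx (s * a)
      refine ⟨g, hg, ?_⟩
      rw [← h1, smul_eq_mul, mul_assoc]
  obtain ⟨g, hg, h⟩ := key _ hf 1
  have hf0 : (Inv k w).val f ∈ A 0 := f.2
  rw [one_mul, DirectSum.decompose_of_mem_same A hf0] at h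
  have : f = g := Subtype.ext h
  rw [this]
  exact hg

theorem str_noeth {n : ℕ} (w : Fin n → ℤ) : IsNoetherianRing (Inv k w) := by
  rw [isNoetherianRing_iff, ← monotone_stabilizes_iff_noetherian]
  intro f
  have := (monotone_stabilizes_iff_noetherian (R := MvPolynomial (Fin n) k)
    (M := MvPolynomial (Fin n) k)).2 inferInstance
    ⟨fun i => Ideal.map (Inv k w).val (f i : Ideal (Inv k w)), fun i j h => Ideal.map_mono (f.2 h)⟩
  obtain ⟨N, hN⟩ := this
  refine ⟨N, fun m hm => ?_⟩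
  have := hN m hm
  have h2 := congrArg (Ideal.comap (Inv k w).val) this
  simpa [str_comap_map] using h2

/-- D1 -/
noncomputable def str_D1 (k : Type u) [Field k] : MvPolynomial (Fin 6) k := X 1 * X 5 - X 2 * X 4
noncomputable def str_D2 (k : Type u) [Field k] : MvPolynomial (Fin 6) k := X 2 * X 3 - X 0 * X 5
noncomputable def str_D3 (k : Type u) [Field k] : MvPolynomial (Fin 6) k := X 0 * X 4 - X 1 * X 3

theorem str_monoInv (i j : Fin 6) (hi : w₀ i = 1) (hj : w₀ j = -1) :
    (X i * X j : MvPolynomial (Fin 6) k) ∈ Inv k w₀ := by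
  have h1 := isWeightedHomogeneous_X k w₀ i
  have h2 := isWeightedHomogeneous_X k w₀ j
  have := h1.mul h2
  rw [hi, hj] at this
  exact this

theorem str_D1_mem : str_D1 k ∈ Inv k w₀ :=
  (Inv k w₀).sub_mem (str_monoInv 1 5 rfl rfl) (str_monoInv 2 4 rfl rfl)
theorem str_D2_mem : str_D2 k ∈ Inv k w₀ :=
  (Inv k w₀).sub_mem (str_monoInv 2 3 rfl rfl) (str_monoInv 0 5 rfl rfl)
theorem str_D3_mem : str_D3 k ∈ Inv k w₀ :=
  (Inv k w₀).sub_mem (str_monoInv 0 4 rfl rfl) (str_monoInv 1 3 rfl rfl)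

theorem str_PZ : PZ k = Ideal.span {str_D1 k, str_D2 k, str_D3 k} := rfl

theorem str_D1_PZ : str_D1 k ∈ PZ k := Ideal.subset_span (Or.inl rfl)
theorem str_D2_PZ : str_D2 k ∈ PZ k := Ideal.subset_span (Or.inr (Or.inl rfl))
theorem str_D3_PZ : str_D3 k ∈ PZ k := Ideal.subset_span (Or.inr (Or.inr rfl))

theorem str_height_le {R : Type u} [CommRing R] [IsNoetherianRing R] (a b : R) {p : Ideal R}
    (h : p ∈ (Ideal.span {a, b}).minimalPrimes) : p.height ≤ 2 := by
  refine (Ideal.height_le_card_of_mem_minimalPrimes_span (s := {a, b})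
    (Set.toFinite _) h).trans ?_
  have h1 : ({a, b} : Set R).ncard ≤ ({b} : Set R).ncard + 1 := Set.ncard_insert_le _ _
  rw [Set.ncard_singleton] at h1
  exact_mod_cast h1

theorem str_map_comap : ((PZ k).comap (Inv k w₀).val).map (Inv k w₀).val = PZ k := by
  refine le_antisymm Ideal.map_comap_le ?_
  rw [str_PZ, Ideal.span_le]
  rintro _ (rfl | rfl | rfl)
  · exact Ideal.mem_map_of_mem _ (show (⟨str_D1 k, str_D1_mem⟩ : Inv k w₀) ∈ _ from
      Ideal.mem_comap.2 (Ideal.subset_span (by simp)))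
  · exact Ideal.mem_map_of_mem _ (show (⟨str_D2 k, str_D2_mem⟩ : Inv k w₀) ∈ _ from
      Ideal.mem_comap.2 (Ideal.subset_span (by simp)))
  · exact Ideal.mem_map_of_mem _ (show (⟨str_D3 k, str_D3_mem⟩ : Inv k w₀) ∈ _ from
      Ideal.mem_comap.2 (Ideal.subset_span (by simp)))

theorem str_hom : (PZ k).IsHomogeneous (weightedHomogeneousSubmodule k w₀) := by
  refine Ideal.homogeneous_span _ _ ?_
  rintro _ (rfl | rfl | rfl)
  · exact ⟨0, str_D1_mem⟩
  · exact ⟨0, str_D2_mem⟩
  · exact ⟨0, str_D3_mem⟩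

/-- evaluation of the generators -/
theorem str_not_mem {f : MvPolynomial (Fin 6) k} (v : Fin 6 → k) (h1 : eval v (str_D1 k) = 0)
    (h2 : eval v (str_D2 k) = 0) (h3 : eval v (str_D3 k) = 0) (hf : eval v f ≠ 0) :
    f ∉ PZ k := by
  intro hfP
  have : PZ k ≤ RingHom.ker (eval v) := by
    rw [str_PZ, Ideal.span_le]
    rintro _ (rfl | rfl | rfl)
    · exact h1
    · exact h2
    · exact h3
  exact hf (this hfP)

theorem str_X0 : (X 0 : MvPolynomial (Fin 6) k) ∉ PZ k :=
  str_not_mem ![1, 0, 0, 0, 0, 0] (by simp [str_D1]) (by simp [str_D2]) (by simp [str_D3]) (by simp)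

theorem str_X1 : (X 1 : MvPolynomial (Fin 6) k) ∉ PZ k :=
  str_not_mem ![0, 1, 0, 0, 0, 0] (by simp [str_D1]) (by simp [str_D2]) (by simp [str_D3]) (by simp)

theorem str_X03 : (X 0 * X 3 : MvPolynomial (Fin 6) k) ∉ PZ k :=
  str_not_mem ![1, 0, 0, 1, 0, 0] (by simp [str_D1]) (by simp [str_D2]) (by simp [str_D3]) (by simp)

theorem str_min : PZ k ∈ (Ideal.span {str_D2 k, str_D3 k}).minimalPrimes := by
  refine ⟨⟨pz_prime, Ideal.span_mono (by intro x hx; simp at hx ⊢; tauto)⟩, ?_⟩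
  rintro Q ⟨hQ, hle⟩ hQP
  have h2 : str_D2 k ∈ Q := hle (Ideal.subset_span (by simp))
  have h3 : str_D3 k ∈ Q := hle (Ideal.subset_span (by simp))
  have h1 : str_D1 k ∈ Q := by
    have : X 0 * str_D1 k ∈ Q := by
      have : X 0 * str_D1 k = -(X 1 * str_D2 k + X 2 * str_D3 k) := by
        simp only [str_D1, str_D2, str_D3]; ring
      rw [this]
      exact Q.neg_mem (Q.add_mem (Q.mul_mem_left _ h2) (Q.mul_mem_left _ h3))
    rcases hQ.mem_or_mem this with h | h
    · exact absurd (hQP h) str_X0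
    · exact h
  rw [str_PZ, Ideal.span_le]
  rintro _ (rfl | rfl | rfl)
  · exact h1
  · exact h2
  · exact h3

theorem str_le : (PZ k).height ≤ 2 := str_height_le _ _ str_min

theorem str_min' : (PZ k).comap (Inv k w₀).val ∈ (Ideal.span
    {(⟨str_D2 k, str_D2_mem⟩ : Inv k w₀), ⟨str_D3 k, str_D3_mem⟩}).minimalPrimes := by
  have := pz_prime (k := k)
  refine ⟨⟨Ideal.comap_isPrime _ _, ?_⟩, ?_⟩
  · rw [Ideal.span_le]
    rintro _ (rfl | rfl)
    · exact Ideal.mem_comap.2 str_D2_PZ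
    · exact Ideal.mem_comap.2 str_D3_PZ
  rintro Q ⟨hQ, hle⟩ hQP
  have h2 : (⟨str_D2 k, str_D2_mem⟩ : Inv k w₀) ∈ Q := hle (Ideal.subset_span (by simp))
  have h3 : (⟨str_D3 k, str_D3_mem⟩ : Inv k w₀) ∈ Q := hle (Ideal.subset_span (by simp))
  have h1 : (⟨str_D1 k, str_D1_mem⟩ : Inv k w₀) ∈ Q := by
    have : (⟨X 0 * X 3, str_monoInv 0 3 rfl rfl⟩ : Inv k w₀) * ⟨str_D1 k, str_D1_mem⟩ ∈ Q := by
      have : (⟨X 0 * X 3, str_monoInv 0 3 rfl rfl⟩ : Inv k w₀) * ⟨str_D1 k, str_D1_mem⟩ =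
          -((⟨X 1 * X 3, str_monoInv 1 3 rfl rfl⟩ : Inv k w₀) * ⟨str_D2 k, str_D2_mem⟩ +
          (⟨X 2 * X 3, str_monoInv 2 3 rfl rfl⟩ : Inv k w₀) * ⟨str_D3 k, str_D3_mem⟩) := by
        apply Subtype.ext
        change X 0 * X 3 * str_D1 k = -(X 1 * X 3 * str_D2 k + X 2 * X 3 * str_D3 k)
        simp only [str_D1, str_D2, str_D3]; ring
      rw [this]
      exact Q.neg_mem (Q.add_mem (Q.mul_mem_left _ h2) (Q.mul_mem_left _ h3))
    rcases hQ.mem_or_mem this with h | h
    · exact absurd (Ideal.mem_comap.1 (hQP h)) str_X03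
    · exact h
  rw [← str_comap_map w₀ Q]
  refine Ideal.comap_mono ?_
  rw [str_PZ, Ideal.span_le]
  rintro _ (rfl | rfl | rfl)
  · exact Ideal.mem_map_of_mem _ h1
  · exact Ideal.mem_map_of_mem _ h2
  · exact Ideal.mem_map_of_mem _ h3

theorem str_le' : ((PZ k).comap (Inv k w₀).val).height ≤ 2 := by
  have := str_noeth (k := k) w₀
  exact str_height_le _ _ str_min'

/-- the fraction field -/
abbrev StrK (k : Type u) [Field k] : Type u := FractionRing (MvPolynomial (Fin 6) k)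

/-- `X 5 ↦ X 2 * X 4 / X 1` -/
noncomputable def str_th (k : Type u) [Field k] : MvPolynomial (Fin 6) k →ₐ[k] StrK k :=
  aeval fun i => if i = 5 then algebraMap (MvPolynomial (Fin 6) k) (StrK k) (X 2 * X 4) /
      algebraMap (MvPolynomial (Fin 6) k) (StrK k) (X 1)
    else algebraMap (MvPolynomial (Fin 6) k) (StrK k) (X i)

theorem str_th_X (i : Fin 6) (hi : i ≠ 5) :
    str_th k (X i) = algebraMap (MvPolynomial (Fin 6) k) (StrK k) (X i) := by
  simp [str_th, hi]

theorem str_X1_ne : algebraMap (MvPolynomial (Fin 6) k) (StrK k) (X 1) ≠ 0 := by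
  intro h
  have := (IsFractionRing.injective (MvPolynomial (Fin 6) k) (StrK k)) (h.trans (map_zero _).symm)
  exact X_ne_zero _ this

theorem str_th_X5 : algebraMap (MvPolynomial (Fin 6) k) (StrK k) (X 1) * str_th k (X 5) =
    algebraMap (MvPolynomial (Fin 6) k) (StrK k) (X 2 * X 4) := by
  have : str_th k (X 5) = algebraMap (MvPolynomial (Fin 6) k) (StrK k) (X 2 * X 4) /
      algebraMap (MvPolynomial (Fin 6) k) (StrK k) (X 1) := by
    simp [str_th]
  rw [this, mul_div_cancel₀ _ str_X1_ne]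

theorem str_th_D1 : str_th k (str_D1 k) = 0 := by
  rw [str_D1, map_sub, map_mul, map_mul, str_th_X 1 (by decide), str_th_X 2 (by decide),
    str_th_X 4 (by decide), str_th_X5, map_mul, sub_self]

theorem str_th_D3 : str_th k (str_D3 k) ≠ 0 := by
  rw [str_D3, map_sub, map_mul, map_mul, str_th_X 0 (by decide), str_th_X 4 (by decide),
    str_th_X 1 (by decide), str_th_X 3 (by decide), ← map_mul, ← map_mul, ← map_sub]
  intro h
  have := (IsFractionRing.injective (MvPolynomial (Fin 6) k) (StrK k)) (h.trans (map_zero _).symm)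
  have h2 := congrArg (eval (![1, 0, 0, 0, 1, 0] : Fin 6 → k)) this
  simp at h2

/-- the subalgebra of the polynomials without `X 5` -/
noncomputable def str_A (k : Type u) [Field k] : Subalgebra k (MvPolynomial (Fin 6) k) :=
  Algebra.adjoin k (X '' {i : Fin 6 | i ≠ 5})

theorem str_th_A {g : MvPolynomial (Fin 6) k} (hg : g ∈ str_A k) :
    str_th k g = algebraMap (MvPolynomial (Fin 6) k) (StrK k) g := by
  refine Algebra.adjoin_induction (R := k) ?_ ?_ ?_ ?_ hg
  · rintro _ ⟨i, hi, rfl⟩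
    exact str_th_X i hi
  · intro r
    rw [AlgHom.commutes, ← IsScalarTower.algebraMap_apply]
  · intro x y _ _ hx hy
    rw [map_add, map_add, hx, hy]
  · intro x y _ _ hx hy
    rw [map_mul, map_mul, hx, hy]

theorem str_red (f : MvPolynomial (Fin 6) k) : ∃ (N : ℕ) (g : MvPolynomial (Fin 6) k),
    g ∈ str_A k ∧ X 1 ^ N * f - g ∈ Ideal.span {str_D1 k} := by
  have hX1 : (X 1 : MvPolynomial (Fin 6) k) ∈ str_A k :=
    Algebra.subset_adjoin ⟨1, by decide, rfl⟩
  induction f using MvPolynomial.induction_on with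
  | C a => exact ⟨0, C a, (str_A k).algebraMap_mem a, by simp⟩
  | add p q hp hq =>
    obtain ⟨N, g, hg, h1⟩ := hp
    obtain ⟨M, h, hh, h2⟩ := hq
    refine ⟨N + M, X 1 ^ M * g + X 1 ^ N * h, (str_A k).add_mem
      ((str_A k).mul_mem ((str_A k).pow_mem hX1 _) hg)
      ((str_A k).mul_mem ((str_A k).pow_mem hX1 _) hh), ?_⟩
    have : X 1 ^ (N + M) * (p + q) - (X 1 ^ M * g + X 1 ^ N * h) =
        X 1 ^ M * (X 1 ^ N * p - g) + X 1 ^ N * (X 1 ^ M * q - h) := by ring
    rw [this]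
    exact Ideal.add_mem _ (Ideal.mul_mem_left _ _ h1) (Ideal.mul_mem_left _ _ h2)
  | mul_X p i hp =>
    obtain ⟨N, g, hg, h1⟩ := hp
    by_cases hi : i = 5
    · subst hi
      refine ⟨N + 1, g * (X 2 * X 4), (str_A k).mul_mem hg ((str_A k).mul_mem
        (Algebra.subset_adjoin ⟨2, by decide, rfl⟩) (Algebra.subset_adjoin ⟨4, by decide, rfl⟩)), ?_⟩
      have : X 1 ^ (N + 1) * (p * X 5) - g * (X 2 * X 4) =
          (X 1 * X 5) * (X 1 ^ N * p - g) + g * str_D1 k := by
        rw [str_D1]; ring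
      rw [this]
      exact Ideal.add_mem _ (Ideal.mul_mem_left _ _ h1)
        (Ideal.mul_mem_left _ _ (Ideal.subset_span rfl))
    · refine ⟨N, g * X i, (str_A k).mul_mem hg (Algebra.subset_adjoin ⟨i, hi, rfl⟩), ?_⟩
      have : X 1 ^ N * (p * X i) - g * X i = X i * (X 1 ^ N * p - g) := by ring
      rw [this]
      exact Ideal.mul_mem_left _ _ h1

/-- the prime `P1` -/
noncomputable def str_P1 (k : Type u) [Field k] : Ideal (MvPolynomial (Fin 6) k) :=
  RingHom.ker (str_th k)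

theorem str_P1_prime : (str_P1 k).IsPrime := RingHom.ker_isPrime _

theorem str_P1_le : str_P1 k ≤ PZ k := by
  intro f hf
  obtain ⟨N, g, hg, h⟩ := str_red f
  have hle : Ideal.span {str_D1 k} ≤ str_P1 k := by
    rw [Ideal.span_le]
    rintro _ rfl
    exact str_th_D1
  have hg0 : str_th k g = 0 := by
    have h1 : X 1 ^ N * f - g ∈ str_P1 k := hle h
    have h2 : g ∈ str_P1 k := by
      have := (str_P1 k).sub_mem ((str_P1 k).mul_mem_left (X 1 ^ N) hf) h1
      simpa using this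
    exact h2
  rw [str_th_A hg] at hg0
  have hg' : g = 0 :=
    (IsFractionRing.injective (MvPolynomial (Fin 6) k) (StrK k)) (hg0.trans (map_zero _).symm)
  rw [hg', sub_zero] at h
  have hle2 : Ideal.span {str_D1 k} ≤ PZ k := by
    rw [Ideal.span_le]
    rintro _ rfl
    exact str_D1_PZ
  rcases (pz_prime (k := k)).mem_or_mem (hle2 h) with h' | h'
  · exact absurd ((pz_prime (k := k)).mem_of_pow_mem _ h') str_X1
  · exact h'

theorem str_D1_ne : str_D1 k ≠ 0 := by
  intro h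
  have h2 := congrArg (eval (![0, 1, 0, 0, 0, 1] : Fin 6 → k)) h
  simp [str_D1] at h2

theorem str_ge : 2 ≤ (PZ k).height := by
  have := pz_prime (k := k)
  have := str_P1_prime (k := k)
  have h1 : (⊥ : Ideal (MvPolynomial (Fin 6) k)) < str_P1 k := by
    rw [bot_lt_iff_ne_bot]
    intro h
    have : str_D1 k ∈ str_P1 k := str_th_D1
    rw [h] at this
    exact str_D1_ne this
  have h2 : str_P1 k < PZ k := by
    refine lt_of_le_of_ne str_P1_le ?_
    intro h
    have : str_D3 k ∈ PZ k := str_D3_PZ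
    rw [← h] at this
    exact str_th_D3 this
  have e1 := Ideal.height_add_one_le_of_lt_of_isPrime h1
  have e2 := Ideal.height_add_one_le_of_lt_of_isPrime h2
  calc (2 : ℕ∞) = 0 + 1 + 1 := by norm_num
    _ ≤ (⊥ : Ideal (MvPolynomial (Fin 6) k)).height + 1 + 1 := by gcongr; exact bot_le
    _ ≤ (str_P1 k).height + 1 := by gcongr
    _ ≤ _ := e2

theorem str_ge' : 2 ≤ ((PZ k).comap (Inv k w₀).val).height := by
  have := pz_prime (k := k)
  have := str_P1_prime (k := k)
  have : ((PZ k).comap (Inv k w₀).val).IsPrime := Ideal.comap_isPrime _ _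
  have : ((str_P1 k).comap (Inv k w₀).val).IsPrime := Ideal.comap_isPrime _ _
  have h1 : (⊥ : Ideal (Inv k w₀)) < (str_P1 k).comap (Inv k w₀).val := by
    rw [bot_lt_iff_ne_bot]
    intro h
    have : (⟨str_D1 k, str_D1_mem⟩ : Inv k w₀) ∈ (str_P1 k).comap (Inv k w₀).val := str_th_D1
    rw [h] at this
    exact str_D1_ne (congrArg Subtype.val (this : (⟨str_D1 k, str_D1_mem⟩ : Inv k w₀) = 0))
  have h2 : (str_P1 k).comap (Inv k w₀).val < (PZ k).comap (Inv k w₀).val := by
    refine lt_of_le_of_ne (Ideal.comap_mono str_P1_le) ?_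
    intro h
    have : (⟨str_D3 k, str_D3_mem⟩ : Inv k w₀) ∈ (PZ k).comap (Inv k w₀).val :=
      Ideal.mem_comap.2 str_D3_PZ
    rw [← h] at this
    exact str_th_D3 this
  have e1 := Ideal.height_add_one_le_of_lt_of_isPrime h1
  have e2 := Ideal.height_add_one_le_of_lt_of_isPrime h2
  calc (2 : ℕ∞) = 0 + 1 + 1 := by norm_num
    _ ≤ (⊥ : Ideal (Inv k w₀)).height + 1 + 1 := by gcongr; exact bot_le
    _ ≤ ((str_P1 k).comap (Inv k w₀).val).height + 1 := by gcongr
    _ ≤ _ := e2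

theorem pz_strong : PrimarilyStrong k w₀ (PZ k) where
  prime := pz_prime
  hom := str_hom
  codim := (le_antisymm str_le str_ge).trans (le_antisymm str_le' str_ge').symm
  primary := by
    rw [str_map_comap]
    exact (pz_prime (k := k)).isPrimary
  radical := by
    rw [str_map_comap]
    exact (pz_prime (k := k)).radical

end Pool.Agent.OpChow
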