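import Pool.Agent.Lib_helper48.OpChow.KAP
import Pool.Agent.Lib_helper48.OpChow.STR
import Pool.Agent.Lib_helper48.OpChow.DIM
import Pool.Agent.Lib_helper48.OpChow.MUL
import Pool.Agent.Lib_helper48.OpChow.CYC
import Pool.Agent.Lib_helper48.OpChow.RAT
import Pool.Agent.Lib_helper48.OpChow.HOM
import Pool.Agent.Lib_helper48.OpChow.PS
/-!
# Block FIN: assembly
-/

namespace Pool.Agent.OpChow

open MvPolynomial

universe u

attribute [local instance] MvPolynomial.weightedGradedAlgebra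

variable {k : Type u} [Field k]

/-! ### general facts -/

theorem fin_dim_lt {B : Type u} [CommRing B] {P Q : Ideal B} (hP : P.IsPrime) (h : P < Q) :
    ringKrullDim (B ⧸ Q) + 1 ≤ ringKrullDim (B ⧸ P) := by
  obtain ⟨x, hxQ, hxP⟩ := Set.exists_of_ssubset h
  haveI := hP
  refine ringKrullDim_succ_le_of_surjective (Ideal.Quotient.factor h.le)
    (Ideal.Quotient.factor_surjective h.le) (r := Ideal.Quotient.mk P x) ?_ ?_
  · rw [mem_nonZeroDivisors_iff_ne_zero, ne_eq, Ideal.Quotient.eq_zero_iff_mem]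
    exact hxP
  · rw [Ideal.Quotient.factor_mk, Ideal.Quotient.eq_zero_iff_mem]
    exact hxQ

theorem fin_dim_map {B B' : Type u} [CommRing B] [CommRing B'] (φ : B →+* B')
    (hφ : Function.Surjective φ) {P : Ideal B} (hP : P.IsPrime) {s : B} (hs : s ∉ P)
    (hs0 : φ s = 0) {Q : Ideal B'} (hle : P.map φ ≤ Q) {d : ℕ}
    (hd : ringKrullDim (B ⧸ P) = ((d + 1 : ℕ) : WithBot ℕ∞)) :
    ringKrullDim (B' ⧸ Q) ≤ (d : WithBot ℕ∞) := by
  haveI := hP
  have hle' : P ≤ Q.comap φ := Ideal.map_le_iff_le_comap.1 hle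
  have h1 : ringKrullDim (B' ⧸ Q) + 1 ≤ ringKrullDim (B ⧸ P) := by
    refine ringKrullDim_succ_le_of_surjective (Ideal.quotientMap Q φ hle')
      (Ideal.quotientMap_surjective hφ) (r := Ideal.Quotient.mk P s) ?_ ?_
    · rw [mem_nonZeroDivisors_iff_ne_zero, ne_eq, Ideal.Quotient.eq_zero_iff_mem]
      exact hs
    · rw [Ideal.quotientMap_mk, hs0, map_zero]
  rw [hd] at h1
  have h3 : ringKrullDim (B' ⧸ Q) + 1 ≤ (d : WithBot ℕ∞) + 1 := by
    refine h1.trans (le_of_eq ?_)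
    push_cast
    rfl
  exact ENat.WithBot.add_le_add_one_right_iff.1 h3

theorem fin_dim_eq {B : Type u} [CommRing B] {P Q : Ideal B} (hP : P.IsPrime) (h : P ≤ Q) {d : ℕ}
    (h1 : ringKrullDim (B ⧸ P) = (d : WithBot ℕ∞)) (h2 : ringKrullDim (B ⧸ Q) = (d : WithBot ℕ∞)) :
    P = Q := by
  by_contra hc
  have h3 := fin_dim_lt hP (lt_of_le_of_ne h hc)
  rw [h1, h2] at h3
  have h4 : ((d + 1 : ℕ) : WithBot ℕ∞) ≤ (d : WithBot ℕ∞) := by
    push_cast
    exact h3
  have h5 : d + 1 ≤ d := by exact_mod_cast h4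
  omega

theorem fin_cyc_prime (T : QP k) (m : ℕ) (V : T.Sub m) : T.cyc m V.P = Finsupp.single V 1 := by
  haveI := V.prime
  unfold QP.cyc
  rw [finsum_eq_single _ V]
  · have : mult V.P V.P = 1 := by
      have h := lenQ_self V.P
      unfold lenQ at h
      unfold mult
      rw [h]; rfl
    rw [this]; simp
  · intro W hW
    haveI := W.prime
    have h1 : ¬ V.P ≤ W.P := by
      intro hle
      apply hW
      have := fin_dim_eq V.prime hle V.dim W.dim
      cases V; cases W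
      simp only at this
      subst this
      rfl
    have : mult V.P W.P = 0 := by
      have h := lenQ_zero h1
      unfold lenQ at h
      unfold mult
      rw [h]; rfl
    rw [this]; simp

theorem fin_div_dim {T T' : QP k} (D : QP.Div T T') (m : ℕ) (V : T.Sub (m + 1)) (hs : D.s ∉ V.P)
    (Q : Ideal T'.B) (hle : V.P.map D.φ ≤ Q) :
    ringKrullDim (T'.B ⧸ Q) ≤ ((m + 1 : ℕ) : WithBot ℕ∞) := by
  have h0 : D.φ D.s = 0 := by
    have : D.s ∈ RingHom.ker D.φ := by rw [D.ker]; exact Ideal.subset_span rfl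
    exact this
  exact fin_dim_map D.φ.toRingHom D.surj V.prime hs h0 hle V.dim

theorem fin_gysin_single {T T' : QP k} (D : QP.Div T T') (m : ℕ) (V : T.Sub (m + 1)) :
    D.gysin m (Finsupp.single V 1) =
      open scoped Classical in if D.s ∈ V.P then 0 else T'.cyc m (V.P.map D.φ) := by
  unfold QP.Div.gysin
  rw [Finsupp.sum_single_index (by simp), one_smul]

/-- the linear version of `gysin` -/
noncomputable def fin_gysinL {T T' : QP k} (D : QP.Div T T') (m : ℕ) :
    T.Cyc (m + 1) →ₗ[ℚ] T'.Cyc m :=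
  open scoped Classical in
  Finsupp.linearCombination ℚ fun V : T.Sub (m + 1) =>
    if D.s ∈ V.P then (0 : T'.Cyc m) else T'.cyc m (V.P.map D.φ)

theorem fin_gysinL_eq {T T' : QP k} (D : QP.Div T T') (m : ℕ) (z : T.Cyc (m + 1)) :
    fin_gysinL D m z = D.gysin m z := by
  classical
  unfold fin_gysinL QP.Div.gysin
  rw [Finsupp.linearCombination_apply]
  refine Finsupp.sum_congr fun V _ => ?_
  split_ifs
  · rw [smul_zero]
  · rfl

theorem fin_aeval_graded {σ τ : Type} (w : σ → ℤ) (w' : τ → ℤ) (g : σ → MvPolynomial τ k)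
    (hg : ∀ i, g i ∈ wg k w' (w i)) (i : ℤ) (b : MvPolynomial σ k) (hb : b ∈ wg k w i) :
    aeval g b ∈ wg k w' i := by
  have hb' : IsWeightedHomogeneous w b i := hb
  rw [b.as_sum, map_sum]
  refine Submodule.sum_mem _ fun d hd => ?_
  have hw := hb' (mem_support_iff.1 hd)
  rw [aeval_monomial]
  have h0 : (0 : ℤ) + i = i := zero_add i
  rw [← h0]
  refine SetLike.GradedMul.mul_mem (isWeightedHomogeneous_C w' _) ?_
  rw [← hw, Finsupp.weight_apply, Finsupp.prod, Finsupp.sum]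
  have h1 : IsWeightedHomogeneous w' (∏ x ∈ d.support, (g x) ^ d x)
      (∑ x ∈ d.support, d x • w x) :=
    IsWeightedHomogeneous.prod _ _ _ fun x _ => IsWeightedHomogeneous.pow (hg x) _
  exact h1

theorem fin_hom_map {B B' : Type u} [CommRing B] [Algebra k B] [CommRing B'] [Algebra k B']
    {gr : ℤ → Submodule k B} {gr' : ℤ → Submodule k B'} [GradedAlgebra gr] [GradedAlgebra gr']
    (φ : B →ₐ[k] B') (hg : ∀ i, ∀ b ∈ gr i, φ b ∈ gr' i) {J : Ideal B}
    (hJ : J.IsHomogeneous gr) : (J.map φ).IsHomogeneous gr' := by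
  classical
  have : J.map φ = Ideal.span (φ '' {x | x ∈ J ∧ SetLike.IsHomogeneousElem gr x}) := by
    apply le_antisymm
    · rw [Ideal.map_le_iff_le_comap]
      intro x hx
      rw [Ideal.mem_comap, ← DirectSum.sum_support_decompose gr x, map_sum]
      exact Ideal.sum_mem _ fun i _ =>
        Ideal.subset_span ⟨_, ⟨hJ i hx, ⟨i, SetLike.coe_mem _⟩⟩, rfl⟩
    · rw [Ideal.span_le]
      rintro _ ⟨x, ⟨hx, -⟩, rfl⟩
      exact Ideal.mem_map_of_mem φ hx
  rw [this]
  refine Ideal.homogeneous_span _ _ ?_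
  rintro _ ⟨x, ⟨-, ⟨i, hi⟩⟩, rfl⟩
  exact ⟨i, hg i x hi⟩

/-! ### the product with the line -/

section Line

variable (k) {n : ℕ} (w : Fin n → ℤ) (N : ℕ)

/-- `approx × 𝔸¹` -/
noncomputable def lineQP : QP k where
  B := MvPolynomial (Option (Fin N ⊕ Fin n)) k
  gr := weightedHomogeneousSubmodule k (wtl (wts N w))
  I := Ideal.span (Set.range fun j : Fin N => X (some (Sum.inl j)))
  I_hom := by
    refine Ideal.homogeneous_span _ _ ?_
    rintro _ ⟨j, rfl⟩
    exact ⟨1, isWeightedHomogeneous_X k (wtl (wts N w)) (some (Sum.inl j))⟩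
  free := by
    intro Q hQ hI
    by_contra hc
    push Not at hc
    apply hI
    rw [Ideal.span_le]
    rintro _ ⟨j, rfl⟩
    exact hc _ (isWeightedHomogeneous_X k (wtl (wts N w)) (some (Sum.inl j)))

/-- the fibre at `s = a` -/
noncomputable def lineDiv (a : k) : QP.Div (lineQP k w N) (approx k w N) where
  s := (X none - C a : MvPolynomial (Option (Fin N ⊕ Fin n)) k)
  s_deg := kp_sub_hom (wts N w) a
  s_reg := by
    change (X none - C a : MvPolynomial (Option (Fin N ⊕ Fin n)) k) ∈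
      nonZeroDivisors (MvPolynomial (Option (Fin N ⊕ Fin n)) k)
    rw [mem_nonZeroDivisors_iff_ne_zero]
    intro h0
    apply kp_sub_notMem (σ := Fin N ⊕ Fin n) a
    rw [h0]
    exact Ideal.zero_mem _
  φ := evs a
  surj := evs_surj a
  graded := evs_graded (wts N w) a
  ker := evs_ker a
  I_map := by
    change Ideal.span _ = Ideal.map (evs a) (Ideal.span _)
    rw [Ideal.map_span, ← Set.range_comp]
    congr 1
    congr 1
    funext j
    exact (evs_X_some a _).symm

end Line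

/-- the functional after intersection with the fibre -/
theorem fin_lam_gysin {n : ℕ} (p : ℕ) (w : Fin n → ℤ) (hw : ∀ i, w i ≠ 0)
    (κ : Kap (wg k (wts (p + 1) w))) (a : k) (κa : Kap (wg k (wtl (wts (p + 1) w))))
    (h : ∀ P : Ideal (MvPolynomial (Option (Fin (p + 1) ⊕ Fin n)) k), P.IsPrime →
      P.IsHomogeneous (wg k (wtl (wts (p + 1) w))) →
          (X none - C a ∉ P → κa.κ P = κ.κ (P.map (evs a))) ∧
          (X none - C a ∈ P → κa.κ P = 0)) (z : (lineQP k w (p + 1)).Cyc (n + 1)) :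
    Lam p w κ ((lineDiv k w (p + 1) a).gysin n z) =
      Finsupp.linearCombination ℚ (fun V : (lineQP k w (p + 1)).Sub (n + 1) =>
        PowerSeries.coeff p (κa.κ V.P)) z := by
  classical
  have key : (Lam p w κ).comp (fin_gysinL (lineDiv k w (p + 1) a) n) =
      Finsupp.linearCombination ℚ (fun V : (lineQP k w (p + 1)).Sub (n + 1) =>
        PowerSeries.coeff p (κa.κ V.P)) := by
    refine Finsupp.lhom_ext' fun V => LinearMap.ext_ring ?_
    rw [LinearMap.comp_apply, LinearMap.comp_apply, LinearMap.comp_apply, Finsupp.lsingle_apply,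
      fin_gysinL_eq, fin_gysin_single, Finsupp.linearCombination_single, one_smul]
    have hV := h V.P V.prime V.hom
    by_cases hs : (lineDiv k w (p + 1) a).s ∈ V.P
    · rw [if_pos hs, map_zero, hV.2 hs, map_zero]
    · rw [if_neg hs, hV.1 hs]
      symm
      refine kap_cyc p w hw κ _ (fin_hom_map (evs a) (evs_graded (wts (p + 1) w) a) V.hom) ?_
      intro Q hQ hle
      exact fin_div_dim (lineDiv k w (p + 1) a) n V hs Q hle
  have h := LinearMap.congr_fun key z
  rw [LinearMap.comp_apply, fin_gysinL_eq] at h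
  exact h

/-! ### the value of `κ` on the example -/

theorem fin_incl_map {n N : ℕ} (P : Ideal (MvPolynomial (Fin n) k)) :
    Nonempty ((MvPolynomial (Fin N ⊕ Fin n) k ⧸ P.map (incl k n N)) ≃+*
      MvPolynomial (Fin N) (MvPolynomial (Fin n) k ⧸ P)) := by
  let e : MvPolynomial (Fin N ⊕ Fin n) k ≃+* MvPolynomial (Fin N) (MvPolynomial (Fin n) k) :=
    sumRingEquiv k (Fin N) (Fin n)
  have h3 : (e : MvPolynomial (Fin N ⊕ Fin n) k →+*
      MvPolynomial (Fin N) (MvPolynomial (Fin n) k)).comp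
      (incl k n N).toRingHom = C := by
    refine MvPolynomial.ringHom_ext (fun x => ?_) (fun x => ?_)
    · change sumRingEquiv k (Fin N) (Fin n) (rename Sum.inr (C x)) = C (C x)
      rw [rename_C, sumRingEquiv_C]
    · change sumRingEquiv k (Fin N) (Fin n) (rename Sum.inr (X x)) = C (X x)
      rw [rename_X, sumRingEquiv_X_inr]
  have h2 : P.map (C : _ →+* MvPolynomial (Fin N) (MvPolynomial (Fin n) k)) =
      (P.map (incl k n N)).map (e : MvPolynomial (Fin N ⊕ Fin n) k →+*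
        MvPolynomial (Fin N) (MvPolynomial (Fin n) k)) := by
    rw [← h3, ← Ideal.map_map]
    rfl
  have e2 : (MvPolynomial (Fin N ⊕ Fin n) k ⧸ P.map (incl k n N)) ≃+*
      (MvPolynomial (Fin N) (MvPolynomial (Fin n) k) ⧸
        P.map (C : _ →+* MvPolynomial (Fin N) (MvPolynomial (Fin n) k))) :=
    Ideal.quotientEquiv _ _ e h2
  have e3 : (MvPolynomial (Fin N) (MvPolynomial (Fin n) k) ⧸
        P.map (C : _ →+* MvPolynomial (Fin N) (MvPolynomial (Fin n) k))) ≃+*
      MvPolynomial (Fin N) (MvPolynomial (Fin n) k ⧸ P) :=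
    (quotientEquivQuotientMvPolynomial (σ := Fin N) P).symm.toRingEquiv
  exact ⟨e2.trans e3⟩

/-- extension of a prime ideal to the approximation -/
theorem fin_incl_prime {n N : ℕ} {P : Ideal (MvPolynomial (Fin n) k)} (hP : P.IsPrime) :
    (P.map (incl k n N)).IsPrime := by
  haveI := hP
  obtain ⟨e⟩ := fin_incl_map (N := N) P
  rw [← Ideal.Quotient.isDomain_iff_prime]
  exact e.toMulEquiv.isDomain _

theorem fin_incl_dim {n N : ℕ} {P : Ideal (MvPolynomial (Fin n) k)} :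
    ringKrullDim (MvPolynomial (Fin N ⊕ Fin n) k ⧸ P.map (incl k n N)) =
      ringKrullDim (MvPolynomial (Fin n) k ⧸ P) + N := by
  obtain ⟨e⟩ := fin_incl_map (N := N) P
  rw [ringKrullDim_eq_of_ringEquiv e, MvPolynomial.ringKrullDim_of_isNoetherianRing]
  simp


theorem fin_notMem {σ : Type} (s : Set σ) (v : σ → k) (hv : ∀ i ∈ s, v i = 0)
    (f : MvPolynomial σ k) (hf : eval v f ≠ 0) : f ∉ (Ideal.span (X '' s) : Ideal _) := by
  intro h
  have h1 : (Ideal.span (X '' s) : Ideal (MvPolynomial σ k)) ≤ RingHom.ker (eval v) := by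
    rw [Ideal.span_le]
    rintro _ ⟨i, hi, rfl⟩
    change eval v (X i) = 0
    rw [eval_X, hv i hi]
  exact hf (h1 h)

theorem fin_tz_one : 1 - tz 1 = PowerSeries.X := by
  simp [tz, tau]

/-- the value of `κ` on the example -/
theorem fin_value (κ : Kap (wg k (wts 3 w₀)))
    (h1 : κ.κ (Ideal.span (Set.range X)) = ∏ i, (1 - tz (wts 3 w₀ i))) :
    PowerSeries.coeff 2 (κ.κ ((PZ k).map (incl k 6 3))) = 1 := by
  classical
  -- `κ ⊥ = 1`
  have hw : ∀ i, wts 3 w₀ i ≠ 0 := by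
    rintro (i | i)
    · exact one_ne_zero
    · fin_cases i <;> decide
  have hne : ∀ a : ℤ, a ≠ 0 → (1 - tz a) ≠ 0 := by
    intro a ha h0
    obtain ⟨u, hu, -⟩ := tz_one_sub ha
    rw [h0] at hu
    exact mul_ne_zero PowerSeries.X_ne_zero (Units.ne_zero u) hu.symm
  have hbot : κ.κ ⊥ = 1 := by
    have h2 := kap_vars (wts 3 w₀) κ Finset.univ
    rw [Finset.coe_univ, Set.image_univ, h1] at h2
    have h3 : (∏ i, (1 - tz (wts 3 w₀ i))) ≠ 0 :=
      Finset.prod_ne_zero_iff.2 fun i _ => hne _ (hw i)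
    exact mul_left_cancel₀ h3 (by rw [mul_one, ← h2])
  -- the ideals
  let x : Fin 6 → MvPolynomial (Fin 3 ⊕ Fin 6) k := fun i => X (Sum.inr i)
  have hx : ∀ i, x i ∈ wg k (wts 3 w₀) (w₀ i) := fun i =>
    isWeightedHomogeneous_X k (wts 3 w₀) (Sum.inr i)
  set P : Ideal (MvPolynomial (Fin 3 ⊕ Fin 6) k) := (PZ k).map (incl k 6 3) with hP
  have hPspan : P = Ideal.span {x 1 * x 5 - x 2 * x 4, x 2 * x 3 - x 0 * x 5,
      x 0 * x 4 - x 1 * x 3} := by
    rw [hP, PZ, Ideal.map_span, Set.image_insert_eq, Set.image_insert_eq, Set.image_singleton]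
    simp only [incl, map_sub, map_mul, rename_X, x]
  have hPp : P.IsPrime := fin_incl_prime pz_prime
  have d1 : x 1 * x 5 - x 2 * x 4 ∈ P := by rw [hPspan]; exact Ideal.subset_span (by simp)
  have d2 : x 2 * x 3 - x 0 * x 5 ∈ P := by rw [hPspan]; exact Ideal.subset_span (by simp)
  have d3 : x 0 * x 4 - x 1 * x 3 ∈ P := by rw [hPspan]; exact Ideal.subset_span (by simp)
  have hPle : ∀ J : Ideal (MvPolynomial (Fin 3 ⊕ Fin 6) k), x 1 * x 5 - x 2 * x 4 ∈ J →
      x 2 * x 3 - x 0 * x 5 ∈ J → x 0 * x 4 - x 1 * x 3 ∈ J → P ≤ J := by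
    intro J e1 e2 e3
    rw [hPspan, Ideal.span_le]
    rintro _ (rfl | rfl | rfl)
    · exact e1
    · exact e2
    · exact e3
  have hdeg : ∀ i j, w₀ i + w₀ j = 0 → x i * x j ∈ wg k (wts 3 w₀) 0 := by
    intro i j hij
    rw [← hij]
    exact SetLike.GradedMul.mul_mem (hx i) (hx j)
  have hPh : P.IsHomogeneous (wg k (wts 3 w₀)) := by
    rw [hPspan]
    refine Ideal.homogeneous_span _ _ ?_
    rintro _ (rfl | rfl | rfl)
    · exact ⟨0, Submodule.sub_mem _ (hdeg 1 5 (by decide)) (hdeg 2 4 (by decide))⟩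
    · exact ⟨0, Submodule.sub_mem _ (hdeg 2 3 (by decide)) (hdeg 0 5 (by decide))⟩
    · exact ⟨0, Submodule.sub_mem _ (hdeg 0 4 (by decide)) (hdeg 1 3 (by decide))⟩
  -- the two coordinate ideals
  let sA : Finset (Fin 3 ⊕ Fin 6) := {Sum.inr 0, Sum.inr 1, Sum.inr 2}
  let A : Ideal (MvPolynomial (Fin 3 ⊕ Fin 6) k) := Ideal.span (X '' (sA : Set (Fin 3 ⊕ Fin 6)))
  let sB : Finset (Fin 3 ⊕ Fin 6) := {Sum.inr 0, Sum.inr 3}
  let Bi : Ideal (MvPolynomial (Fin 3 ⊕ Fin 6) k) := Ideal.span (X '' (sB : Set (Fin 3 ⊕ Fin 6)))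
  have hAmem : ∀ i : Fin 6, i = 0 ∨ i = 1 ∨ i = 2 → x i ∈ A := by
    intro i hi
    refine Ideal.subset_span ⟨Sum.inr i, ?_, rfl⟩
    rcases hi with rfl | rfl | rfl <;> simp [sA]
  have hBmem : ∀ i : Fin 6, i = 0 ∨ i = 3 → x i ∈ Bi := by
    intro i hi
    refine Ideal.subset_span ⟨Sum.inr i, ?_, rfl⟩
    rcases hi with rfl | rfl <;> simp [sB]
  have hAp : A.IsPrime := vars_prime _
  have hBp : Bi.IsPrime := vars_prime _
  have hBh : Bi.IsHomogeneous (wg k (wts 3 w₀)) := by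
    refine Ideal.homogeneous_span _ _ ?_
    rintro _ ⟨i, -, rfl⟩
    exact ⟨wts 3 w₀ i, isWeightedHomogeneous_X k (wts 3 w₀) i⟩
  have hx0P : x 0 ∉ P := by
    intro h
    let s0 : Set (Fin 3 ⊕ Fin 6) := {Sum.inr 1, Sum.inr 2, Sum.inr 4, Sum.inr 5}
    have m : ∀ i : Fin 6, Sum.inr i ∈ s0 → x i ∈ (Ideal.span (X '' s0) :
        Ideal (MvPolynomial (Fin 3 ⊕ Fin 6) k)) := fun i hi =>
      Ideal.subset_span ⟨Sum.inr i, hi, rfl⟩
    have hle : P ≤ Ideal.span (X '' s0) := by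
      refine hPle _ ?_ ?_ ?_
      · exact Ideal.sub_mem _ (Ideal.mul_mem_right _ _ (m 1 (by simp [s0])))
          (Ideal.mul_mem_right _ _ (m 2 (by simp [s0])))
      · exact Ideal.sub_mem _ (Ideal.mul_mem_right _ _ (m 2 (by simp [s0])))
          (Ideal.mul_mem_left _ _ (m 5 (by simp [s0])))
      · exact Ideal.sub_mem _ (Ideal.mul_mem_left _ _ (m 4 (by simp [s0])))
          (Ideal.mul_mem_right _ _ (m 1 (by simp [s0])))
    refine fin_notMem s0 (fun i => if i = Sum.inr 0 then (1 : k) else 0) ?_ (x 0) ?_ (hle h)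
    · intro i hi
      rcases hi with rfl | rfl | rfl | rfl <;> simp
    · simp [x]
  -- first step: add `x 0`
  have e1 := kap_prime κ hPp hPh (hx 0) hx0P
  have w0 : w₀ 0 = 1 := rfl
  have w3 : w₀ 3 = -1 := rfl
  rw [w0, fin_tz_one] at e1
  have hJh : (P ⊔ Ideal.span {x 0}).IsHomogeneous (wg k (wts 3 w₀)) := by
    refine hPh.sup (Ideal.homogeneous_span _ _ ?_)
    rintro _ rfl
    exact ⟨w₀ 0, hx 0⟩
  -- second step: add `x 3`
  have e2 := κ.add _ hJh (w₀ 3) (x 3) (hx 3)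
  have hcol : colI (x 3) (P ⊔ Ideal.span {x 0}) = A := by
    apply le_antisymm
    · intro g hg
      have hle : P ⊔ Ideal.span {x 0} ≤ A := by
        refine sup_le (hPle _ ?_ ?_ ?_) ?_
        · exact Ideal.sub_mem _ (Ideal.mul_mem_right _ _ (hAmem 1 (by decide)))
            (Ideal.mul_mem_right _ _ (hAmem 2 (by decide)))
        · exact Ideal.sub_mem _ (Ideal.mul_mem_right _ _ (hAmem 2 (by decide)))
            (Ideal.mul_mem_right _ _ (hAmem 0 (by decide)))
        · exact Ideal.sub_mem _ (Ideal.mul_mem_right _ _ (hAmem 0 (by decide)))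
            (Ideal.mul_mem_right _ _ (hAmem 1 (by decide)))
        · rw [Ideal.span_singleton_le_iff_mem]
          exact hAmem 0 (by decide)
      refine (hAp.mem_or_mem (hle hg)).resolve_left ?_
      refine fin_notMem _ (fun i => if i = Sum.inr 3 then (1 : k) else 0) ?_ (x 3) ?_
      · intro i hi
        simp only [sA, Finset.coe_insert, Finset.coe_singleton] at hi
        rcases hi with rfl | rfl | rfl <;> simp
      · simp [x]
    · change Ideal.span _ ≤ _
      rw [Ideal.span_le]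
      rintro _ ⟨i, hi, rfl⟩
      simp only [sA, Finset.coe_insert, Finset.coe_singleton] at hi
      have hx0 : x 0 ∈ P ⊔ Ideal.span {x 0} := Ideal.mem_sup_right (Ideal.subset_span rfl)
      rcases hi with rfl | rfl | rfl
      · exact Ideal.mul_mem_left _ _ hx0
      · change x 3 * x 1 ∈ P ⊔ Ideal.span {x 0}
        have : x 3 * x 1 = x 4 * x 0 - (x 0 * x 4 - x 1 * x 3) := by ring
        rw [this]
        exact Ideal.sub_mem _ (Ideal.mul_mem_left _ _ hx0) (Ideal.mem_sup_left d3)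
      · change x 3 * x 2 ∈ P ⊔ Ideal.span {x 0}
        have : x 3 * x 2 = x 5 * x 0 + (x 2 * x 3 - x 0 * x 5) := by ring
        rw [this]
        exact Ideal.add_mem _ (Ideal.mul_mem_left _ _ hx0) (Ideal.mem_sup_left d2)
  have hJ3 : P ⊔ Ideal.span {x 0} ⊔ Ideal.span {x 3} = Bi ⊔ Ideal.span {x 1 * x 5 - x 2 * x 4} := by
    have b0 : x 0 ∈ Bi ⊔ Ideal.span {x 1 * x 5 - x 2 * x 4} :=
      Ideal.mem_sup_left (hBmem 0 (by decide))
    have b3 : x 3 ∈ Bi ⊔ Ideal.span {x 1 * x 5 - x 2 * x 4} :=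
      Ideal.mem_sup_left (hBmem 3 (by decide))
    apply le_antisymm
    · refine sup_le (sup_le (hPle _ ?_ ?_ ?_) ?_) ?_
      · exact Ideal.mem_sup_right (Ideal.subset_span rfl)
      · exact Ideal.sub_mem _ (Ideal.mul_mem_left _ _ b3) (Ideal.mul_mem_right _ _ b0)
      · exact Ideal.sub_mem _ (Ideal.mul_mem_right _ _ b0) (Ideal.mul_mem_left _ _ b3)
      · rw [Ideal.span_singleton_le_iff_mem]; exact b0
      · rw [Ideal.span_singleton_le_iff_mem]; exact b3
    · refine sup_le ?_ ?_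
      · change Ideal.span _ ≤ _
        rw [Ideal.span_le]
        rintro _ ⟨i, hi, rfl⟩
        simp only [sB, Finset.coe_insert, Finset.coe_singleton] at hi
        rcases hi with rfl | rfl
        · exact Ideal.mem_sup_left (Ideal.mem_sup_right (Ideal.subset_span rfl))
        · exact Ideal.mem_sup_right (Ideal.subset_span rfl)
      · rw [Ideal.span_singleton_le_iff_mem]
        exact Ideal.mem_sup_left (Ideal.mem_sup_left d1)
  have hD : x 1 * x 5 - x 2 * x 4 ∉ Bi := by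
    refine fin_notMem _ (fun i => if i = Sum.inr 1 ∨ i = Sum.inr 5 then (1 : k) else 0) ?_ _ ?_
    · intro i hi
      simp only [sB, Finset.coe_insert, Finset.coe_singleton] at hi
      rcases hi with rfl | rfl <;> simp
    · simp [x]
  have e3 := kap_prime κ hBp hBh
    (Submodule.sub_mem _ (hdeg 1 5 (by decide)) (hdeg 2 4 (by decide))) hD
  rw [tz_zero, sub_self, zero_mul] at e3
  have e4 : κ.κ A = PowerSeries.X ^ 3 := by
    have := kap_vars (wts 3 w₀) κ sA
    rw [hbot, mul_one] at this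
    rw [this]
    have hs : sA = {Sum.inr 0, Sum.inr 1, Sum.inr 2} := rfl
    rw [hs, Finset.prod_insert (by simp), Finset.prod_insert (by simp), Finset.prod_singleton]
    have c : ∀ i : Fin 6, w₀ i = 1 → 1 - tz (wts 3 w₀ (Sum.inr i)) = PowerSeries.X := by
      intro i hi
      change 1 - tz (w₀ i) = _
      rw [hi, fin_tz_one]
    rw [c 0 rfl, c 1 rfl, c 2 rfl]
    ring
  rw [hcol, hJ3, e3, e4, add_zero, w3, e1] at e2
  have e5 : κ.κ P = tz (-1) * PowerSeries.X ^ 2 := by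
    refine mul_left_cancel₀ (PowerSeries.X_ne_zero (R := ℚ)) ?_
    rw [e2]; ring
  rw [e5]
  have e6 : tz (-1) = PowerSeries.mk fun _ => 1 := by
    simp [tz, tau]
  rw [e6, PowerSeries.coeff_mul_X_pow']
  simp

/-! ### the homotopy and the final theorem -/

/-- the map `(x, y) ↦ (x, s y)` -/
noncomputable def finG (i : Fin 6) : MvPolynomial (Option (Fin 3 ⊕ Fin 6)) k :=
  if w₀ i = 1 then X (some (Sum.inr i)) else X none * X (some (Sum.inr i))

theorem finG_mem (i : Fin 6) : (finG i : MvPolynomial (Option (Fin 3 ⊕ Fin 6)) k) ∈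
    wg k (wtl (wts 3 w₀)) (w₀ i) := by
  unfold finG
  split_ifs with h
  · exact isWeightedHomogeneous_X k (wtl (wts 3 w₀)) (some (Sum.inr i))
  · have h0 : (0 : ℤ) + w₀ i = w₀ i := zero_add _
    rw [← h0]
    exact SetLike.GradedMul.mul_mem (isWeightedHomogeneous_X k (wtl (wts 3 w₀)) none)
      (isWeightedHomogeneous_X k (wtl (wts 3 w₀)) (some (Sum.inr i)))

/-- the map from `approx × 𝔸¹` to the good moduli space -/
noncomputable def finPsi (k : Type u) [Field k] : Inv k w₀ →ₐ[k] (lineQP k w₀ 3).B :=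
  (aeval (finG (k := k))).comp (Inv k w₀).val

theorem finPsi_mem (a : Inv k w₀) : finPsi k a ∈ (lineQP k w₀ 3).gr 0 :=
  fin_aeval_graded w₀ (wtl (wts 3 w₀)) finG finG_mem 0 _ a.2

theorem finPsi_one : ((lineDiv k w₀ 3 1).φ.comp (finPsi k)) = toX k w₀ 3 := by
  have h1 : (evs (1 : k)).comp (aeval (finG (k := k))) = incl k 6 3 := by
    refine MvPolynomial.algHom_ext fun i => ?_
    rw [AlgHom.comp_apply, aeval_X, incl, rename_X]
    unfold finG
    split_ifs
    · exact evs_X_some _ _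
    · rw [map_mul, evs_X_some, evs_X_none]; simp
  refine AlgHom.ext fun a => ?_
  exact congrArg (fun φ : MvPolynomial (Fin 6) k →ₐ[k] MvPolynomial (Fin 3 ⊕ Fin 6) k => φ a.1) h1

/-- the vertex -/
noncomputable def finChi (k : Type u) [Field k] : Inv k w₀ →ₐ[k] k :=
  (aeval (fun _ : Fin 6 => (0 : k))).comp (Inv k w₀).val

theorem finPsi_zero (a : Inv k w₀) : ((lineDiv k w₀ 3 0).φ.comp (finPsi k)) a =
    algebraMap k (approx k w₀ 3).B (finChi k a) := by
  obtain ⟨f, hf⟩ := a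
  have hf' : IsWeightedHomogeneous w₀ f 0 := hf
  have h1 : (evs (0 : k)).comp (aeval (finG (k := k))) =
      aeval (fun i : Fin 6 => if w₀ i = 1 then (X (Sum.inr i) : MvPolynomial (Fin 3 ⊕ Fin 6) k)
        else 0) := by
    refine MvPolynomial.algHom_ext fun i => ?_
    rw [AlgHom.comp_apply, aeval_X, aeval_X]
    unfold finG
    split_ifs
    · exact evs_X_some _ _
    · rw [map_mul, evs_X_some, evs_X_none]; simp
  change (evs (0 : k)) (aeval (finG (k := k)) f) = C (aeval (fun _ : Fin 6 => (0 : k)) f)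
  have h2 : (evs (0 : k)) (aeval (finG (k := k)) f) =
      aeval (fun i : Fin 6 => if w₀ i = 1 then (X (Sum.inr i) : MvPolynomial (Fin 3 ⊕ Fin 6) k)
        else 0) f := by
    rw [← h1, AlgHom.comp_apply]
  rw [h2, f.as_sum, map_sum, map_sum, map_sum]
  refine Finset.sum_congr rfl fun d hd => ?_
  rw [aeval_monomial, aeval_monomial]
  by_cases hd0 : d = 0
  · subst hd0
    simp
  · have hw := hf' (mem_support_iff.1 hd)
    obtain ⟨i, hi, hwi⟩ : ∃ i, d i ≠ 0 ∧ w₀ i ≠ 1 := by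
      by_contra hc
      push Not at hc
      have h3 : ∀ i, w₀ i = 1 ∨ w₀ i = -1 := by decide
      have h4 : Finsupp.weight w₀ d = d.sum fun _ c => (c : ℤ) := by
        rw [Finsupp.weight_apply]
        refine Finsupp.sum_congr fun i hi => ?_
        rw [hc i (Finsupp.mem_support_iff.1 hi)]
        simp
      rw [h4, Finsupp.sum] at hw
      have h5 := (Finset.sum_eq_zero_iff_of_nonneg (fun i _ => Int.natCast_nonneg (d i))).1 hw
      apply hd0
      ext i
      by_contra hi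
      have := h5 i (Finsupp.mem_support_iff.2 hi)
      exact hi (by exact_mod_cast this)
    have e1 : (d.prod fun j m => (if w₀ j = 1 then
        (X (Sum.inr j) : MvPolynomial (Fin 3 ⊕ Fin 6) k) else 0) ^ m) = 0 := by
      refine Finset.prod_eq_zero (Finsupp.mem_support_iff.2 hi) ?_
      beta_reduce
      rw [if_neg hwi, zero_pow hi]
    have e2 : (d.prod fun _ m => (0 : k) ^ m) = 0 := by
      refine Finset.prod_eq_zero (Finsupp.mem_support_iff.2 hi) ?_
      beta_reduce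
      rw [zero_pow hi]
    rw [e1, e2, mul_zero, mul_zero, C_0]

/-- the product with the line, over the good moduli space -/
noncomputable def finOver (k : Type u) [Field k] : Over k (Inv k w₀) where
  T := lineQP k w₀ 3
  ψ := finPsi k
  deg := finPsi_mem

theorem finOver_one : (finOver k).restrict (lineDiv k w₀ 3 1) = overX k w₀ 3 := by
  unfold Over.restrict overX
  congr 1
  exact finPsi_one

theorem finOver_zero : ((finOver k).restrict (lineDiv k w₀ 3 0)).IsPoint :=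
  ⟨finChi k, finPsi_zero⟩

/-- the generic point of the line -/
noncomputable def finV (k : Type u) [Field k] : (lineQP k w₀ 3).Sub (2 + (6 + 1)) where
  P := ⊥
  prime := (Ideal.isPrime_bot : (⊥ : Ideal (MvPolynomial (Option (Fin 3 ⊕ Fin 6)) k)).IsPrime)
  hom := Ideal.IsHomogeneous.bot _
  not_le := by
    intro h
    have h1 : (X (some (Sum.inl 0)) : MvPolynomial (Option (Fin 3 ⊕ Fin 6)) k) ∈
        (⊥ : Ideal (MvPolynomial (Option (Fin 3 ⊕ Fin 6)) k)) :=
      h (Ideal.subset_span ⟨0, rfl⟩)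
    rw [Ideal.mem_bot] at h1
    exact MvPolynomial.X_ne_zero _ h1
  dim := by
    change ringKrullDim (MvPolynomial (Option (Fin 3 ⊕ Fin 6)) k ⧸
      (⊥ : Ideal (MvPolynomial (Option (Fin 3 ⊕ Fin 6)) k))) = _
    rw [ringKrullDim_eq_of_ringEquiv (RingEquiv.quotientBot _),
      MvPolynomial.ringKrullDim_of_isNoetherianRing, ringKrullDim_eq_zero_of_field]
    simp

theorem fin_gysin_fund (a : k) :
    (lineDiv k w₀ 3 a).gysin (2 + 6) ((lineQP k w₀ 3).cyc (2 + (6 + 1)) ⊥) =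
      (approx k w₀ 3).cyc (2 + 6) ⊥ := by
  classical
  have h1 := fin_cyc_prime (lineQP k w₀ 3) (2 + (6 + 1)) (finV k)
  have h2 : (finV k).P = (⊥ : Ideal (lineQP k w₀ 3).B) := rfl
  rw [h2] at h1
  rw [h1]
  have h3 := fin_gysin_single (lineDiv k w₀ 3 a) (2 + 6) (finV k)
  rw [h3, if_neg, h2, Ideal.map_bot]
  rw [h2]
  intro h
  rw [Ideal.mem_bot] at h
  have h4 : (X none - C a : MvPolynomial (Option (Fin 3 ⊕ Fin 6)) k) = 0 := h
  apply kp_sub_notMem (σ := Fin 3 ⊕ Fin 6) a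
  rw [h4]
  exact Ideal.zero_mem _

theorem fin_w₀ : ∀ i, w₀ i ≠ 0 := by decide

theorem final [IsAlgClosed k] : ∃ z ∈ Apst k w₀ 2, ∀ c : OpClass k (Inv k w₀) 2,
    pull k w₀ 2 c ≠ z := by
  obtain ⟨κ, hκ1, hκ2⟩ := exists_kap (k := k) (wts 3 w₀)
  obtain ⟨κ0, h00, h01⟩ := hκ2 0
  obtain ⟨κ1, h10, h11⟩ := hκ2 1
  have hwts : ∀ i, wts 3 w₀ i ≠ 0 := by
    rintro (i | i)
    · exact one_ne_zero
    · exact fin_w₀ i
  refine ⟨cls k w₀ 2 (PZ k), Submodule.subset_span ⟨PZ k, pz_strong, pz_dim, rfl⟩, ?_⟩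
  intro c hc
  obtain ⟨z, hz⟩ : ∃ z : (lineQP k w₀ 3).Cyc (6 + 1), (lineQP k w₀ 3).cl z =
      c.c (finOver k) (6 + 1) ((lineQP k w₀ 3).cl ((lineQP k w₀ 3).cyc (2 + (6 + 1)) ⊥)) :=
    Submodule.mkQ_surjective _ _
  have hdiv : ∀ a : k, c.c ((finOver k).restrict (lineDiv k w₀ 3 a)) 6
      ((approx k w₀ 3).cl ((approx k w₀ 3).cyc (2 + 6) ⊥)) =
        (approx k w₀ 3).cl ((lineDiv k w₀ 3 a).gysin 6 z) := fun a => by
    have h := c.div (finOver k) (approx k w₀ 3) (lineDiv k w₀ 3 a) 6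
      ((lineQP k w₀ 3).cyc (2 + (6 + 1)) ⊥) z hz.symm
    exact (congrArg (fun t => c.c ((finOver k).restrict (lineDiv k w₀ 3 a)) 6
      ((approx k w₀ 3).cl t)) (fin_gysin_fund a)).symm.trans h
  -- the fibre at `1`
  have h1' : (approx k w₀ 3).cl ((lineDiv k w₀ 3 1).gysin 6 z) =
      (approx k w₀ 3).cl ((approx k w₀ 3).cyc 6 ((PZ k).map (incl k 6 3))) := by
    refine Eq.trans ?_ hc
    refine (hdiv 1).symm.trans ?_
    have h2 : ∀ Y : Over k (Inv k w₀), Y = overX k w₀ 3 → ∀ (z : Y.T.Chow (2 + 6))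
        (z' : (overX k w₀ 3).T.Chow (2 + 6)), HEq z z' →
          HEq (c.c Y 6 z) (c.c (overX k w₀ 3) 6 z') := by
      intro Y hY z z' hz
      subst hY
      rw [eq_of_heq hz]
    exact eq_of_heq (h2 _ finOver_one _ _ HEq.rfl)
  -- the fibre at `0`
  have h0 : 0 = (approx k w₀ 3).cl ((lineDiv k w₀ 3 0).gysin 6 z) :=
    (c.point (by norm_num) _ finOver_zero 6
      ((approx k w₀ 3).cl ((approx k w₀ 3).cyc (2 + 6) ⊥))).symm.trans (hdiv 0)
  -- the functional
  have hL0 : Lam 2 w₀ κ ((lineDiv k w₀ 3 0).gysin 6 z) = 0 := by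
    refine lam_rat 2 w₀ fin_w₀ κ _ ?_
    rw [← Submodule.Quotient.mk_eq_zero]
    exact h0.symm
  have hL1 : Lam 2 w₀ κ ((lineDiv k w₀ 3 1).gysin 6 z) = 1 := by
    have h2 : (lineDiv k w₀ 3 1).gysin 6 z - (approx k w₀ 3).cyc 6 ((PZ k).map (incl k 6 3)) ∈
        (approx k w₀ 3).Rat 6 := by
      rw [← Submodule.Quotient.mk_eq_zero, Submodule.Quotient.mk_sub, sub_eq_zero]
      exact h1'
    have h3 := lam_rat 2 w₀ fin_w₀ κ _ h2
    rw [map_sub, sub_eq_zero] at h3
    have hcyc := kap_cyc 2 w₀ fin_w₀ κ ((PZ k).map (incl k 6 3)) ?_ ?_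
    · rw [h3]
      exact hcyc.symm.trans (fin_value κ hκ1)
    · have hincl : incl k 6 3 = aeval (fun j => X (Sum.inr j)) :=
        MvPolynomial.algHom_ext fun i => by rw [incl, rename_X, aeval_X]
      refine fin_hom_map (incl k 6 3) (gr := wg k w₀) (gr' := wg k (wts 3 w₀)) (fun i b hb => ?_)
        (pz_strong (k := k)).hom
      rw [hincl]
      exact fin_aeval_graded w₀ (wts 3 w₀) (fun j => X (Sum.inr j))
          (fun j => isWeightedHomogeneous_X k (wts 3 w₀) (Sum.inr j)) i b hb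
    · intro Q hQ hle
      have h4 : ringKrullDim (MvPolynomial (Fin 3 ⊕ Fin 6) k ⧸ Q) ≤
          ringKrullDim (MvPolynomial (Fin 3 ⊕ Fin 6) k ⧸ (PZ k).map (incl k 6 3)) :=
        ringKrullDim_le_of_surjective (Ideal.Quotient.factor hle)
          (Ideal.Quotient.factor_surjective hle)
      refine h4.trans ?_
      rw [fin_incl_dim]
      have h5 := pz_dim (k := k)
      have h6 : ringKrullDim (MvPolynomial (Fin 6) k ⧸ PZ k) = ((4 : ℕ) : WithBot ℕ∞) := by
        have h7 : ringKrullDim (MvPolynomial (Fin 6) k ⧸ PZ k) + ((2 : ℕ) : WithBot ℕ∞) =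
            ((4 : ℕ) : WithBot ℕ∞) + ((2 : ℕ) : WithBot ℕ∞) := by
          rw [← Nat.cast_add]
          exact_mod_cast h5
        exact ENat.WithBot.add_natCast_cancel.1 h7
      rw [h6, ← Nat.cast_add]
  -- comparison
  have hcmp : Lam 2 w₀ κ ((lineDiv k w₀ 3 0).gysin 6 z) =
      Lam 2 w₀ κ ((lineDiv k w₀ 3 1).gysin 6 z) := by
    rw [fin_lam_gysin 2 w₀ fin_w₀ κ 0 κ0 h01, fin_lam_gysin 2 w₀ fin_w₀ κ 1 κ1 h11]
    have h8 : ∀ J : Ideal (MvPolynomial (Option (Fin 3 ⊕ Fin 6)) k),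
        J.IsHomogeneous (wg k (wtl (wts 3 w₀))) → κ0.κ J = κ1.κ J :=
      kap_unique (wts 3 w₀) hwts κ0 κ1 (by rw [h00, h10])
    have h9 : (fun V : (lineQP k w₀ 3).Sub (6 + 1) => PowerSeries.coeff 2 (κ0.κ V.P)) =
        fun V : (lineQP k w₀ 3).Sub (6 + 1) => PowerSeries.coeff 2 (κ1.κ V.P) := by
      funext V
      rw [h8 V.P V.hom]
    rw [h9]
  rw [hL0, hL1] at hcmp
  exact zero_ne_one hcmp

end Pool.Agent.OpChow
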