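import Pool.Agent.Lib_helper48.OpChow.VAR
/-!
# Block KAP: K-polynomials of pairs of homogeneous ideals
-/

namespace Pool.Agent.OpChow

open MvPolynomial

universe u

attribute [local instance] MvPolynomial.weightedGradedAlgebra

section Lin

variable {k : Type u} [Field k] {V V' : Type u} [AddCommGroup V] [Module k V]
  [AddCommGroup V'] [Module k V']

theorem kp_mem_sub {U' U : Submodule k V} {x : U} : x ∈ U'.submoduleOf U ↔ (x : V) ∈ U' :=
  Iff.rfl

theorem kp_quot_equiv (U' U : Submodule k V) (W' W : Submodule k V') (F : V →ₗ[k] V')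
    (hU : U' = U ⊓ W'.comap F) (hW : W = U.map F ⊔ W') :
    Nonempty ((U ⧸ U'.submoduleOf U) ≃ₗ[k] (W ⧸ W'.submoduleOf W)) := by
  have hmap : ∀ x ∈ U, F x ∈ W := by
    intro x hx
    rw [hW]
    exact Submodule.mem_sup_left (Submodule.mem_map_of_mem hx)
  let g : U →ₗ[k] W := F.restrict hmap
  let G : U →ₗ[k] (W ⧸ W'.submoduleOf W) := (W'.submoduleOf W).mkQ.comp g
  have hker : LinearMap.ker G = U'.submoduleOf U := by
    ext x
    rw [LinearMap.mem_ker, LinearMap.comp_apply, Submodule.mkQ_apply,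
      Submodule.Quotient.mk_eq_zero, kp_mem_sub, kp_mem_sub, hU]
    simp [g, LinearMap.restrict_apply]
  have hsurj : Function.Surjective G := by
    intro y
    obtain ⟨y, rfl⟩ := Submodule.mkQ_surjective _ y
    have hy : (y : V') ∈ U.map F ⊔ W' := hW ▸ y.2
    obtain ⟨z, ⟨x, hx, rfl⟩, t, ht, hzt⟩ := Submodule.mem_sup.1 hy
    refine ⟨⟨x, hx⟩, ?_⟩
    change (W'.submoduleOf W).mkQ (g ⟨x, hx⟩) = (W'.submoduleOf W).mkQ y
    rw [← sub_eq_zero, ← map_sub, Submodule.mkQ_apply, Submodule.Quotient.mk_eq_zero,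
      kp_mem_sub]
    have : ((g ⟨x, hx⟩ - y : W) : V') = -t := by
      simp only [g, Submodule.coe_sub, LinearMap.restrict_apply]
      rw [← hzt]
      abel
    rw [this]
    exact W'.neg_mem ht
  rw [← hker]
  exact ⟨LinearMap.quotKerEquivOfSurjective G hsurj⟩

theorem kp_finrank_eq (U' U : Submodule k V) (W' W : Submodule k V') (F : V →ₗ[k] V')
    (hU : U' = U ⊓ W'.comap F) (hW : W = U.map F ⊔ W') :
    Module.finrank k (U ⧸ U'.submoduleOf U) = Module.finrank k (W ⧸ W'.submoduleOf W) := by
  obtain ⟨e⟩ := kp_quot_equiv U' U W' W F hU hW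
  exact e.finrank_eq

theorem kp_finrank_add {A B C : Submodule k V} (hAB : A ≤ B) (hBC : B ≤ C)
    [FiniteDimensional k (C ⧸ A.submoduleOf C)] :
    Module.finrank k (C ⧸ A.submoduleOf C) =
      Module.finrank k (B ⧸ A.submoduleOf B) + Module.finrank k (C ⧸ B.submoduleOf C) := by
  have h1 : A.submoduleOf C ≤ B.submoduleOf C := Submodule.comap_mono hAB
  let f : (C ⧸ A.submoduleOf C) →ₗ[k] (C ⧸ B.submoduleOf C) :=
    Submodule.mapQ _ _ LinearMap.id h1
  let j : (B ⧸ A.submoduleOf B) →ₗ[k] (C ⧸ A.submoduleOf C) :=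
    Submodule.mapQ _ _ (Submodule.inclusion hBC) (by
      intro x hx
      rw [kp_mem_sub] at hx
      rw [Submodule.mem_comap, kp_mem_sub]
      exact hx)
  have hj : Function.Injective j := by
    rw [injective_iff_map_eq_zero]
    intro x hx
    obtain ⟨x, rfl⟩ := Submodule.mkQ_surjective _ x
    rw [Submodule.mkQ_apply] at hx ⊢
    rw [Submodule.mapQ_apply, Submodule.Quotient.mk_eq_zero, kp_mem_sub] at hx
    rw [Submodule.Quotient.mk_eq_zero, kp_mem_sub]
    exact hx
  have hf : Function.Surjective f := by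
    intro y
    obtain ⟨y, rfl⟩ := Submodule.mkQ_surjective _ y
    exact ⟨Submodule.Quotient.mk y, rfl⟩
  have hr : LinearMap.range j = LinearMap.ker f := by
    ext x
    obtain ⟨x, rfl⟩ := Submodule.mkQ_surjective _ x
    rw [LinearMap.mem_range, LinearMap.mem_ker, Submodule.mkQ_apply, Submodule.mapQ_apply,
      Submodule.Quotient.mk_eq_zero, kp_mem_sub]
    constructor
    · rintro ⟨y, hy⟩
      obtain ⟨y, rfl⟩ := Submodule.mkQ_surjective _ y
      rw [Submodule.mkQ_apply, Submodule.mapQ_apply, Submodule.Quotient.eq,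
        kp_mem_sub] at hy
      have h2 : (y : V) - x ∈ B := hAB hy
      have h3 : (x : V) = y - (y - x) := by abel
      change (x : V) ∈ B
      rw [h3]
      exact B.sub_mem y.2 h2
    · intro hx
      exact ⟨Submodule.Quotient.mk ⟨x, hx⟩, rfl⟩
  have h4 := LinearMap.finrank_range_add_finrank_ker f
  rw [LinearMap.range_eq_top.2 hf, finrank_top, ← hr, LinearMap.finrank_range_of_inj hj] at h4
  omega

end Lin

variable {k : Type u} [Field k]

section Pairs

variable {B : Type u} [CommRing B] [Algebra k B] (gr : ℤ → Submodule k B)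

/-- the ideal `z N` -/
def mulI (z : B) (N : Ideal B) : Ideal B := Submodule.map (LinearMap.lsmul B B z) N

theorem mem_mulI {z x : B} {N : Ideal B} : x ∈ mulI z N ↔ ∃ n ∈ N, z * n = x := Iff.rfl

theorem mem_colI {z x : B} {N : Ideal B} : x ∈ colI z N ↔ z * x ∈ N := Iff.rfl

theorem mulI_mono (z : B) {N M : Ideal B} (h : N ≤ M) : mulI z N ≤ mulI z M :=
  Submodule.map_mono h

theorem mulI_le (z : B) (N : Ideal B) : mulI z N ≤ N := by
  rintro _ ⟨n, hn, rfl⟩
  exact N.mul_mem_left z hn

theorem mulI_top (z : B) : mulI z ⊤ = Ideal.span {z} := by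
  ext x
  rw [mem_mulI, Ideal.mem_span_singleton]
  constructor
  · rintro ⟨n, -, rfl⟩; exact dvd_mul_right z n
  · rintro ⟨n, rfl⟩; exact ⟨n, trivial, rfl⟩

theorem le_colI (z : B) (N : Ideal B) : N ≤ colI z N := fun _ hx => N.mul_mem_left z hx

/-- the graded pieces -/
def grp (N : Ideal B) (t : ℤ) : Submodule k B := N.restrictScalars k ⊓ gr t

theorem mem_grp {N : Ideal B} {t : ℤ} {x : B} : x ∈ grp gr N t ↔ x ∈ N ∧ x ∈ gr t := Iff.rfl

/-- dimension of the graded pieces of `C / A` -/
noncomputable def hdim (A C : Ideal B) (t : ℤ) : ℕ :=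
  Module.finrank k (grp gr C t ⧸ (grp gr A t).submoduleOf (grp gr C t))

/-- the graded dimension -/
noncomputable def K0 (A C : Ideal B) : PowerSeries ℚ :=
  ∑ᶠ t : ℤ, (hdim gr A C t : PowerSeries ℚ) * tz t

/-- the K-polynomial of `C / A` -/
noncomputable def KK : List (B × ℤ) → Ideal B → Ideal B → PowerSeries ℚ
  | [], A, C => K0 gr A C
  | p :: L, A, C => KK L (A ⊔ mulI p.1 C) C - tz p.2 * KK L A (C ⊓ colI p.1 A)

variable [GradedAlgebra gr]

theorem colI_hom {a : ℤ} {z : B} (hz : z ∈ gr a) {N : Ideal B} (hN : N.IsHomogeneous gr) :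
    (colI z N).IsHomogeneous gr := by
  intro i x hx
  rw [mem_colI] at hx ⊢
  have := hN (a + i) hx
  rwa [DirectSum.coe_decompose_mul_add_of_left_mem gr hz] at this

theorem mulI_hom {a : ℤ} {z : B} (hz : z ∈ gr a) {N : Ideal B} (hN : N.IsHomogeneous gr) :
    (mulI z N).IsHomogeneous gr := by
  rintro i _ ⟨n, hn, rfl⟩
  refine ⟨_, hN (i - a) hn, ?_⟩
  have := DirectSum.coe_decompose_mul_add_of_left_mem gr (b := n) (j := i - a) hz
  rw [add_sub_cancel] at this
  exact this.symm

/-- `C/A` is a finite-dimensional graded vector space -/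
structure FinP (A C : Ideal B) : Prop where
  fd : ∀ t, FiniteDimensional k (grp gr C t ⧸ (grp gr A t).submoduleOf (grp gr C t))
  supp : {t | hdim gr A C t ≠ 0}.Finite

variable {gr}

theorem tz_ne_zero (a : ℤ) : tz a ≠ 0 := Units.ne_zero _

theorem tz_zero : tz 0 = 1 := by simp [tz]

theorem tz_add (a b : ℤ) : tz (a + b) = tz a * tz b := by
  simp [tz, zpow_add]

theorem FinP.suppf {A C : Ideal B} (h : FinP gr A C) :
    (Function.support fun t : ℤ => (hdim gr A C t : PowerSeries ℚ) * tz t).Finite := by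
  refine h.supp.subset fun t ht => ?_
  rw [Function.mem_support] at ht
  intro h0
  apply ht
  rw [h0]
  simp

theorem K0_add {A C D : Ideal B} (hAC : A ≤ C) (hCD : C ≤ D) (h : FinP gr A D) :
    K0 gr A D = K0 gr A C + K0 gr C D := by
  have hd : ∀ t, hdim gr A D t = hdim gr A C t + hdim gr C D t := by
    intro t
    haveI := h.fd t
    exact kp_finrank_add (inf_le_inf_right _ hAC) (inf_le_inf_right _ hCD)
  have h1 : {t | hdim gr A C t ≠ 0}.Finite := h.supp.subset fun t (ht : hdim gr A C t ≠ 0) => by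
    change hdim gr A D t ≠ 0
    rw [hd t]; omega
  have h2 : {t | hdim gr C D t ≠ 0}.Finite := h.supp.subset fun t (ht : hdim gr C D t ≠ 0) => by
    change hdim gr A D t ≠ 0
    rw [hd t]; omega
  unfold K0
  rw [← finsum_add_distrib]
  · refine finsum_congr fun t => ?_
    rw [hd t]; push_cast; ring
  · refine h1.subset fun t ht h0 => ht ?_
    simp [h0]
  · refine h2.subset fun t ht h0 => ht ?_
    simp [h0]

/-- multiplication by `f` induces an isomorphism from `N/N'` to `M/M'` -/
structure FIso (f : B) (N' N M' M : Ideal B) : Prop where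
  eM : M = mulI f N ⊔ M'
  eN : N' = N ⊓ colI f M'

theorem FIso.K0_eq {f : B} {a : ℤ} (hf : f ∈ gr a) {N' N M' M : Ideal B}
    (hN : N.IsHomogeneous gr) (hM' : M'.IsHomogeneous gr) (h : FIso f N' N M' M) :
    tz a * K0 gr N' N = K0 gr M' M := by
  have hd : ∀ t, hdim gr N' N t = hdim gr M' M (a + t) := by
    intro t
    refine kp_finrank_eq _ _ _ _ (LinearMap.lsmul B B f |>.restrictScalars k) ?_ ?_
    · ext x
      simp only [Submodule.mem_inf, Submodule.mem_comap, mem_grp, h.eN, mem_colI,
        LinearMap.coe_restrictScalars, LinearMap.lsmul_apply, smul_eq_mul]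
      constructor
      · rintro ⟨⟨h1, h2⟩, h3⟩
        exact ⟨⟨h1, h3⟩, h2, SetLike.GradedMul.mul_mem hf h3⟩
      · rintro ⟨⟨h1, h3⟩, h2, -⟩
        exact ⟨⟨h1, h2⟩, h3⟩
    · ext x
      rw [mem_grp, h.eM, Submodule.mem_sup]
      constructor
      · rintro ⟨⟨y, ⟨n, hn, rfl⟩, m, hm, hx⟩, hxt⟩
        refine Submodule.mem_sup.2 ⟨f * (DirectSum.decompose gr n t : B),
          ⟨(DirectSum.decompose gr n t : B), ⟨hN t hn, SetLike.coe_mem _⟩, rfl⟩,
          (DirectSum.decompose gr m (a + t) : B), ⟨hM' _ hm, SetLike.coe_mem _⟩, ?_⟩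
        have h1 : (DirectSum.decompose gr x (a + t) : B) = x :=
          DirectSum.decompose_of_mem_same gr hxt
        rw [← h1, ← hx]
        change _ = ((DirectSum.decompose gr (f * n + m) (a + t) : gr (a + t)) : B)
        rw [DirectSum.decompose_add, DirectSum.add_apply, Submodule.coe_add,
          DirectSum.coe_decompose_mul_add_of_left_mem gr hf]
      · intro hx
        obtain ⟨_, ⟨n, ⟨hn, hnt⟩, rfl⟩, m, ⟨hm, hmt⟩, rfl⟩ := Submodule.mem_sup.1 hx
        refine ⟨⟨f * n, ⟨n, hn, rfl⟩, m, hm, rfl⟩, ?_⟩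
        exact (gr (a + t)).add_mem (SetLike.GradedMul.mul_mem hf hnt) hmt
  unfold K0
  have h1 : ∑ᶠ t : ℤ, (hdim gr M' M t : PowerSeries ℚ) * tz t =
      ∑ᶠ t : ℤ, (hdim gr M' M (a + t) : PowerSeries ℚ) * tz (a + t) :=
    (finsum_comp_equiv (Equiv.addLeft a)
      (f := fun t : ℤ => (hdim gr M' M t : PowerSeries ℚ) * tz t)).symm
  rw [h1]
  rw [mul_finsum]
  refine finsum_congr fun t => ?_
  rw [← hd, tz_add]; ring

theorem FIso.step1 {f : B} {N' N M' M : Ideal B} (h : FIso f N' N M' M) (z : B) :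
    FIso f (N' ⊔ mulI z N) N (M' ⊔ mulI z M) M where
  eM := by
    apply le_antisymm
    · conv_lhs => rw [h.eM]
      exact sup_le_sup_left le_sup_left _
    · refine sup_le ?_ (sup_le ?_ (mulI_le z M))
      · rw [h.eM]; exact le_sup_left
      · rw [h.eM]; exact le_sup_right
  eN := by
    ext x
    rw [Submodule.mem_sup, Submodule.mem_inf, mem_colI, Submodule.mem_sup]
    constructor
    · rintro ⟨n', hn', _, ⟨n, hn, rfl⟩, rfl⟩
      rw [h.eN] at hn'
      refine ⟨N.add_mem hn'.1 (N.mul_mem_left z hn), f * n', hn'.2, z * (f * n), ?_, ?_⟩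
      · refine ⟨f * n, ?_, rfl⟩
        rw [h.eM]
        exact Submodule.mem_sup_left ⟨n, hn, rfl⟩
      · change f * n' + z * (f * n) = f * (n' + z * n)
        ring
    · rintro ⟨hx, m', hm', _, ⟨m, hm, rfl⟩, hfx⟩
      have hm0 : m ∈ mulI f N ⊔ M' := h.eM ▸ hm
      rw [Submodule.mem_sup] at hm0
      obtain ⟨_, ⟨n₁, hn₁, rfl⟩, m₁, hm₁, rfl⟩ := hm0
      refine ⟨x - z * n₁, ?_, z * n₁, ⟨n₁, hn₁, rfl⟩, by ring⟩
      rw [h.eN]
      refine ⟨N.sub_mem hx (N.mul_mem_left z hn₁), ?_⟩
      change f * (x - z * n₁) ∈ M'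
      have : f * (x - z * n₁) = m' + z * m₁ := by
        have h2 : m' + z * (f * n₁ + m₁) = f * x := hfx
        linear_combination (-1 : B) * h2
      rw [this]
      exact M'.add_mem hm' (M'.mul_mem_left z hm₁)

theorem FIso.step2 {f : B} {N' N M' M : Ideal B} (h : FIso f N' N M' M) (z : B) :
    FIso f N' (N ⊓ colI z N') M' (M ⊓ colI z M') where
  eM := by
    ext x
    rw [Submodule.mem_inf, mem_colI, Submodule.mem_sup]
    constructor
    · rintro ⟨hx, hzx⟩
      rw [h.eM, Submodule.mem_sup] at hx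
      obtain ⟨_, ⟨n, hn, rfl⟩, m', hm', rfl⟩ := hx
      refine ⟨f * n, ⟨n, ⟨hn, ?_⟩, rfl⟩, m', hm', rfl⟩
      change z * n ∈ N'
      rw [h.eN]
      refine ⟨N.mul_mem_left z hn, ?_⟩
      change f * (z * n) ∈ M'
      have : f * (z * n) = z * (f * n + m') - z * m' := by ring
      rw [this]
      exact M'.sub_mem hzx (M'.mul_mem_left z hm')
    · rintro ⟨_, ⟨n, ⟨hn, hzn⟩, rfl⟩, m', hm', rfl⟩
      constructor
      · rw [h.eM]
        exact Submodule.add_mem_sup ⟨n, hn, rfl⟩ hm'
      · change z * (f * n + m') ∈ M'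
        have h1 : z * n ∈ N' := hzn
        rw [h.eN] at h1
        have h2 : f * (z * n) ∈ M' := h1.2
        have : z * (f * n + m') = f * (z * n) + z * m' := by ring
        rw [this]
        exact M'.add_mem h2 (M'.mul_mem_left z hm')
  eN := by
    ext x
    constructor
    · intro hx
      have hx' := hx
      rw [h.eN] at hx
      exact ⟨⟨hx.1, le_colI z N' hx'⟩, hx.2⟩
    · rintro ⟨⟨h1, h2⟩, h3⟩
      rw [h.eN]
      exact ⟨h1, h3⟩

/-- a list of homogeneous elements -/
def HomL (gr : ℤ → Submodule k B) (L : List (B × ℤ)) : Prop := ∀ p ∈ L, p.1 ∈ gr p.2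

theorem FIso.KK_eq {f : B} {a : ℤ} (hf : f ∈ gr a) {L : List (B × ℤ)} (hL : HomL gr L) :
    ∀ {N' N M' M : Ideal B}, N'.IsHomogeneous gr → N.IsHomogeneous gr → M'.IsHomogeneous gr →
      M.IsHomogeneous gr → FIso f N' N M' M → tz a * KK gr L N' N = KK gr L M' M := by
  induction L with
  | nil =>
    intro N' N M' M _ hN hM' _ h
    exact h.K0_eq hf hN hM'
  | cons p L ih =>
    intro N' N M' M hN' hN hM' hM h
    have hL' : HomL gr L := fun q hq => hL q (List.mem_cons_of_mem _ hq)
    have hp : p.1 ∈ gr p.2 := hL p List.mem_cons_self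
    have h1 := ih hL' (hN'.sup (mulI_hom gr hp hN)) hN (hM'.sup (mulI_hom gr hp hM)) hM
      (h.step1 p.1)
    have h2 := ih hL' hN' (hN.inf (colI_hom gr hp hN')) hM' (hM.inf (colI_hom gr hp hM'))
      (h.step2 p.1)
    simp only [KK]
    rw [← h1, ← h2]
    ring

/-- pairs killed by the elements of `Z` outside `L` -/
def Adm (Z L : List (B × ℤ)) (A C : Ideal B) : Prop :=
  ∀ p ∈ Z, p ∈ L ∨ mulI p.1 C ≤ A

theorem KK_add (Z : List (B × ℤ))
    (hbase : ∀ A C : Ideal B, A.IsHomogeneous gr → C.IsHomogeneous gr → A ≤ C → Adm Z [] A C →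
      FinP gr A C) {L : List (B × ℤ)} (hL : HomL gr L) :
    ∀ {A D C : Ideal B}, A.IsHomogeneous gr → D.IsHomogeneous gr → C.IsHomogeneous gr →
      A ≤ D → D ≤ C → Adm Z L A C → KK gr L A C = KK gr L A D + KK gr L D C := by
  induction L with
  | nil =>
    intro A D C hA hD hC hAD hDC had
    exact K0_add hAD hDC (hbase A C hA hC (hAD.trans hDC) had)
  | cons p L ih =>
    intro A D C hA hD hC hAD hDC had
    have hL' : HomL gr L := fun q hq => hL q (List.mem_cons_of_mem _ hq)
    have hp : p.1 ∈ gr p.2 := hL p List.mem_cons_self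
    have ih := @ih hL'
    set z := p.1 with hz
    have hzC := mulI_hom gr hp hC
    have hzD := mulI_hom gr hp hD
    have hcA := colI_hom gr hp hA
    have hcD := colI_hom gr hp hD
    -- `q` outside `L`
    have hq : ∀ q ∈ Z, q ∉ L → mulI q.1 C ≤ A ∨ q.1 = z := by
      intro q hqZ hqL
      rcases had q hqZ with h | h
      · rcases List.mem_cons.1 h with rfl | h
        · exact Or.inr rfl
        · exact absurd h hqL
      · exact Or.inl h
    have e1 : KK gr L (A ⊔ mulI z C) C =
        KK gr L (A ⊔ mulI z C) (D ⊔ mulI z C) + KK gr L (D ⊔ mulI z C) C := by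
      refine ih (hA.sup hzC) (hD.sup hzC) hC (sup_le_sup_right hAD _)
        (sup_le hDC (mulI_le z C)) ?_
      intro q hqZ
      by_cases hqL : q ∈ L
      · exact Or.inl hqL
      · right
        rcases hq q hqZ hqL with h | h
        · exact h.trans le_sup_left
        · rw [h]; exact le_sup_right
    have e2 : tz 0 * KK gr L (D ⊓ colI 1 (A ⊔ mulI z C)) D =
        KK gr L (A ⊔ mulI z C) (D ⊔ mulI z C) := by
      refine FIso.KK_eq (SetLike.GradedOne.one_mem) hL'
        (hD.inf (colI_hom gr SetLike.GradedOne.one_mem (hA.sup hzC))) hD (hA.sup hzC)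
        (hD.sup hzC) ⟨?_, rfl⟩
      have : mulI 1 D = D := by
        ext x; rw [mem_mulI]; simp
      rw [this, ← sup_assoc, sup_eq_left.2 hAD]
    have hc1 : colI 1 (A ⊔ mulI z C) = A ⊔ mulI z C := by
      ext x; rw [mem_colI, one_mul]
    rw [hc1, tz_zero, one_mul] at e2
    have e3 : KK gr L (A ⊔ mulI z D) D =
        KK gr L (A ⊔ mulI z D) (D ⊓ (A ⊔ mulI z C)) + KK gr L (D ⊓ (A ⊔ mulI z C)) D := by
      refine ih (hA.sup hzD) (hD.inf (hA.sup hzC)) hD
        (le_inf (sup_le hAD (mulI_le z D)) (sup_le_sup_left (mulI_mono z hDC) _)) inf_le_left ?_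
      intro q hqZ
      by_cases hqL : q ∈ L
      · exact Or.inl hqL
      · right
        rcases hq q hqZ hqL with h | h
        · exact (mulI_mono _ hDC).trans (h.trans le_sup_left)
        · rw [h]; exact le_sup_right
    have e4 : KK gr L A (C ⊓ colI z A) =
        KK gr L A (D ⊓ colI z A) + KK gr L (D ⊓ colI z A) (C ⊓ colI z A) := by
      refine ih hA (hD.inf hcA) (hC.inf hcA) (le_inf hAD (le_colI z A))
        (inf_le_inf_right _ hDC) ?_
      intro q hqZ
      by_cases hqL : q ∈ L
      · exact Or.inl hqL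
      · right
        rcases hq q hqZ hqL with h | h
        · exact (mulI_mono _ inf_le_left).trans h
        · rw [h]
          rintro _ ⟨n, hn, rfl⟩
          exact hn.2
    have e5 : tz 0 * KK gr L ((C ⊓ colI z A) ⊓ colI 1 D) (C ⊓ colI z A) =
        KK gr L D ((C ⊓ colI z A) ⊔ D) := by
      refine FIso.KK_eq (SetLike.GradedOne.one_mem) hL'
        ((hC.inf hcA).inf (colI_hom gr SetLike.GradedOne.one_mem hD)) (hC.inf hcA) hD
        ((hC.inf hcA).sup hD) ⟨?_, rfl⟩
      have : mulI 1 (C ⊓ colI z A) = C ⊓ colI z A := by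
        ext x; rw [mem_mulI]; simp
      rw [this]
    have hc2 : (C ⊓ colI z A) ⊓ colI 1 D = D ⊓ colI z A := by
      have : colI 1 D = D := by ext x; rw [mem_colI, one_mul]
      rw [this]
      apply le_antisymm
      · exact le_inf inf_le_right (inf_le_left.trans inf_le_right)
      · exact le_inf (le_inf (inf_le_left.trans hDC) inf_le_right) inf_le_left
    rw [hc2, tz_zero, one_mul] at e5
    have e6 : KK gr L D (C ⊓ colI z D) =
        KK gr L D ((C ⊓ colI z A) ⊔ D) + KK gr L ((C ⊓ colI z A) ⊔ D) (C ⊓ colI z D) := by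
      refine ih hD ((hC.inf hcA).sup hD) (hC.inf hcD) le_sup_right
        (sup_le (inf_le_inf_left _ (Submodule.comap_mono hAD)) (le_inf hDC (le_colI z D))) ?_
      intro q hqZ
      by_cases hqL : q ∈ L
      · exact Or.inl hqL
      · right
        rcases hq q hqZ hqL with h | h
        · exact (mulI_mono _ inf_le_left).trans (h.trans hAD)
        · rw [h]
          rintro _ ⟨n, hn, rfl⟩
          exact hn.2
    have e7 : tz p.2 * KK gr L ((C ⊓ colI z A) ⊔ D) (C ⊓ colI z D) =
        KK gr L (A ⊔ mulI z D) (D ⊓ (A ⊔ mulI z C)) := by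
      refine FIso.KK_eq hp hL' ((hC.inf hcA).sup hD) (hC.inf hcD) (hA.sup hzD)
        (hD.inf (hA.sup hzC)) ⟨?_, ?_⟩
      · ext x
        constructor
        · rintro ⟨hxD, hx⟩
          obtain ⟨y, hy, _, ⟨c, hc, rfl⟩, rfl⟩ := Submodule.mem_sup.1 hx
          have hzc : z * c ∈ D := by
            have h1 : y + z * c ∈ D := hxD
            have : z * c = (y + z * c) - y := by ring
            rw [this]
            exact D.sub_mem h1 (hAD hy)
          refine Submodule.mem_sup.2 ⟨z * c, ⟨c, ⟨hc, hzc⟩, rfl⟩, y,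
            Submodule.mem_sup_left hy, ?_⟩
          change z * c + y = y + z * c
          ring
        · intro hx
          obtain ⟨_, ⟨c, ⟨hc, hzc⟩, rfl⟩, y, hy, rfl⟩ := Submodule.mem_sup.1 hx
          refine ⟨D.add_mem hzc ((sup_le hAD (mulI_le z D)) hy), ?_⟩
          exact Submodule.add_mem _ (Submodule.mem_sup_right ⟨c, hc, rfl⟩)
            ((sup_le_sup_left (mulI_mono z hDC) _) hy)
      · ext x
        constructor
        · intro hx
          obtain ⟨c, ⟨hc, hzc⟩, d, hd, rfl⟩ := Submodule.mem_sup.1 hx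
          have hzc' : z * c ∈ A := hzc
          refine ⟨⟨C.add_mem hc (hDC hd), ?_⟩, ?_⟩
          · change z * (c + d) ∈ D
            rw [mul_add]
            exact D.add_mem (hAD hzc') (D.mul_mem_left z hd)
          · change z * (c + d) ∈ A ⊔ mulI z D
            rw [mul_add]
            exact Submodule.add_mem_sup hzc' ⟨d, hd, rfl⟩
        · rintro ⟨⟨hxC, -⟩, hx⟩
          have hx' : z * x ∈ A ⊔ mulI z D := hx
          obtain ⟨y, hy, _, ⟨d, hd, rfl⟩, hyd⟩ := Submodule.mem_sup.1 hx'
          refine Submodule.mem_sup.2 ⟨x - d, ⟨C.sub_mem hxC (hDC hd), ?_⟩, d, hd, by ring⟩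
          change z * (x - d) ∈ A
          have h2 : y + z * d = z * x := hyd
          have : z * (x - d) = y := by linear_combination (-1 : B) * h2
          rw [this]; exact hy
    simp only [KK]
    rw [← hz]
    linear_combination e1 - e2 - e3 + e7 - tz p.2 * e4 - tz p.2 * e5 + tz p.2 * e6

theorem KK_self (Z : List (B × ℤ))
    (hbase : ∀ A C : Ideal B, A.IsHomogeneous gr → C.IsHomogeneous gr → A ≤ C → Adm Z [] A C →
      FinP gr A C) {L : List (B × ℤ)} (hL : HomL gr L) {A : Ideal B} (hA : A.IsHomogeneous gr) :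
    KK gr L A A = 0 := by
  have h := KK_add Z hbase hL hA hA hA le_rfl le_rfl (fun p _ => Or.inr (mulI_le p.1 A))
  linear_combination (-1 : PowerSeries ℚ) * h

theorem KK_killed {L : List (B × ℤ)} {A C : Ideal B} (hAC : A ≤ C)
    (h : ∀ p ∈ L, mulI p.1 C ≤ A) :
    KK gr L A C = (L.map fun p => 1 - tz p.2).prod * K0 gr A C := by
  induction L with
  | nil => simp [KK]
  | cons p L ih =>
    have h1 : A ⊔ mulI p.1 C = A := sup_eq_left.2 (h p List.mem_cons_self)
    have h2 : C ⊓ colI p.1 A = C := by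
      refine inf_eq_left.2 fun x hx => ?_
      exact h p List.mem_cons_self ⟨x, hx, rfl⟩
    simp only [KK]
    rw [h1, h2, ih fun q hq => h q (List.mem_cons_of_mem _ hq), List.map_cons, List.prod_cons]
    ring

/-- every element is a scalar modulo the elements of `Z` -/
def Gen (k : Type u) [Field k] [Algebra k B] (Z : List (B × ℤ)) : Prop :=
  ∀ b : B, ∃ c : k, ∃ d ∈ Ideal.span {z | ∃ p ∈ Z, z = p.1}, b = algebraMap k B c + d

theorem base_fin [IsNoetherianRing B] {Z : List (B × ℤ)} (hZ : Gen k Z) (A C : Ideal B)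
    (hA : A.IsHomogeneous gr) (hC : C.IsHomogeneous gr) (hAC : A ≤ C) (had : Adm Z [] A C) :
    FinP gr A C := by
  classical
  obtain ⟨S, hS⟩ := (isNoetherianRing_iff_ideal_fg B).1 inferInstance C
  have hJ : ∀ d ∈ Ideal.span {z : B | ∃ p ∈ Z, z = p.1}, ∀ x ∈ C, d * x ∈ A := by
    intro d hd x hx
    induction hd using Submodule.span_induction with
    | mem d hd =>
      obtain ⟨p, hp, rfl⟩ := hd
      exact ((had p hp).resolve_left List.not_mem_nil) ⟨x, hx, rfl⟩
    | zero => rw [zero_mul]; exact A.zero_mem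
    | add d e _ _ h1 h2 => rw [add_mul]; exact A.add_mem h1 h2
    | smul b d _ h1 => rw [smul_eq_mul, mul_assoc]; exact A.mul_mem_left b h1
  have hSC : ∀ g ∈ S, g ∈ C := fun g hg => hS ▸ Submodule.subset_span hg
  -- every element of `C` is a combination of `S` with scalar coefficients, modulo `A`
  have hx : ∀ x ∈ C, ∃ c : B → k, x - ∑ g ∈ S, c g • g ∈ A := by
    intro x hx
    rw [← hS] at hx
    obtain ⟨b, hb⟩ := Submodule.mem_span_finset'.1 hx
    choose c d hd hcd using hZ
    refine ⟨fun g => if h : g ∈ S then c (b ⟨g, h⟩) else 0, ?_⟩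
    have h1 : ∑ g ∈ S, (if h : g ∈ S then c (b ⟨g, h⟩) else 0) • g =
        ∑ g : S, c (b g) • (g : B) := by
      rw [← Finset.sum_coe_sort S]
      refine Finset.sum_congr rfl fun g _ => ?_
      simp
    rw [h1, ← hb, ← Finset.sum_sub_distrib]
    refine A.sum_mem fun g _ => ?_
    have h2 : b g • (g : B) - c (b g) • (g : B) = d (b g) * g := by
      rw [smul_eq_mul, Algebra.smul_def]
      linear_combination (hcd (b g)) * (g : B)
    rw [h2]
    exact hJ _ (hd _) _ (hSC g g.2)
  -- graded version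
  have hgr : ∀ t : ℤ, ∀ x ∈ grp gr C t, ∃ c : B → k,
      x - ∑ g ∈ S, c g • (DirectSum.decompose gr g t : B) ∈ A := by
    rintro t x ⟨hxC, hxt⟩
    obtain ⟨c, hc⟩ := hx x hxC
    refine ⟨c, ?_⟩
    have h1 := hA t hc
    rw [DirectSum.decompose_sub, DirectSum.sub_apply, Submodule.coe_sub,
      DirectSum.decompose_of_mem_same gr hxt, DirectSum.decompose_sum, DFinsupp.finsetSum_apply,
      Submodule.coe_sum] at h1
    have h2 : ∀ g ∈ S, ((DirectSum.decompose gr (c g • g) t : gr t) : B) =
        c g • (DirectSum.decompose gr g t : B) := by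
      intro g _
      rw [DirectSum.decompose_smul]
      rfl
    rwa [Finset.sum_congr rfl h2] at h1
  constructor
  · intro t
    have hmem : ∀ g : S, (DirectSum.decompose gr (g : B) t : B) ∈ grp gr C t := fun g =>
      ⟨hC t (hSC g g.2), SetLike.coe_mem _⟩
    let f : (S → k) →ₗ[k] (grp gr C t ⧸ (grp gr A t).submoduleOf (grp gr C t)) :=
      Fintype.linearCombination k fun g : S =>
        (((grp gr A t).submoduleOf (grp gr C t)).mkQ ⟨_, hmem g⟩)
    refine FiniteDimensional.of_surjective f ?_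
    intro y
    obtain ⟨⟨x, hx⟩, rfl⟩ := Submodule.mkQ_surjective _ y
    obtain ⟨c, hc⟩ := hgr t x hx
    refine ⟨fun g => c g, ?_⟩
    rw [Fintype.linearCombination_apply]
    simp only [← map_smul, ← map_sum]
    rw [← sub_eq_zero, ← map_sub, Submodule.mkQ_apply, Submodule.Quotient.mk_eq_zero, kp_mem_sub]
    have h1 : ((∑ g : S, c g • (⟨_, hmem g⟩ : grp gr C t) - ⟨x, hx⟩ : grp gr C t) : B) =
        -(x - ∑ g ∈ S, c g • (DirectSum.decompose gr g t : B)) := by
      rw [Submodule.coe_sub, Submodule.coe_sum, neg_sub, ← Finset.sum_coe_sort S]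
      rfl
    rw [h1]
    have h3 : x - ∑ g ∈ S, c g • (DirectSum.decompose gr g t : B) ∈ grp gr A t := by
      refine ⟨hc, (gr t).sub_mem hx.2 ((gr t).sum_mem fun g _ => (gr t).smul_mem _ (SetLike.coe_mem _))⟩
    exact (grp gr A t).neg_mem h3
  · have hfin : (⋃ g ∈ S, {t : ℤ | DirectSum.decompose gr g t ≠ 0}).Finite := by
      refine S.finite_toSet.biUnion fun g _ => ?_
      refine ((DirectSum.decompose gr g).support.finite_toSet).subset fun t ht => ?_
      simpa using ht
    refine hfin.subset fun t ht => ?_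
    by_contra hc
    apply ht
    simp only [Set.mem_iUnion, Set.mem_ofPred_eq, not_exists, not_not] at hc
    have hle : grp gr C t ≤ grp gr A t := by
      intro x hx
      obtain ⟨c, hc'⟩ := hgr t x hx
      have : ∑ g ∈ S, c g • (DirectSum.decompose gr g t : B) = 0 := by
        refine Finset.sum_eq_zero fun g hg => ?_
        rw [hc g hg]; simp
      rw [this, sub_zero] at hc'
      exact ⟨hc', hx.2⟩
    unfold hdim
    have htop : (grp gr A t).submoduleOf (grp gr C t) = ⊤ := by
      rw [eq_top_iff]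
      intro x _
      exact hle x.2
    rw [htop]
    exact Module.finrank_zero_of_subsingleton

end Pairs

/-! ### surjections -/

section Comap

variable {B B' : Type u} [CommRing B] [Algebra k B] [CommRing B'] [Algebra k B']
  {gr : ℤ → Submodule k B} {gr' : ℤ → Submodule k B'} [GradedAlgebra gr] [GradedAlgebra gr']

theorem K0_comap (φ : B →ₐ[k] B') (hs : Function.Surjective φ)
    (hg : ∀ i, ∀ b ∈ gr i, φ b ∈ gr' i) (A C : Ideal B') (hAC : A ≤ C) :
    K0 gr' A C = K0 gr (A.comap φ) (C.comap φ) := by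
  classical
  unfold K0
  refine finsum_congr fun t => ?_
  congr 2
  symm
  refine kp_finrank_eq _ _ _ _ φ.toLinearMap ?_ ?_
  · ext x
    constructor
    · rintro ⟨h1, h2⟩
      exact ⟨⟨hAC h1, h2⟩, h1, hg t x h2⟩
    · rintro ⟨⟨h1, h2⟩, h3, h4⟩
      exact ⟨h3, h2⟩
  · ext y
    constructor
    · rintro ⟨h1, h2⟩
      obtain ⟨x, rfl⟩ := hs y
      have h3 : φ (DirectSum.decompose gr x t : B) = φ x := by
        have h4 : ∀ i, (DirectSum.decompose gr' (φ x) i : B') = φ (DirectSum.decompose gr x i : B) := by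
          intro i
          conv_lhs => rw [← DirectSum.sum_support_decompose gr x, map_sum,
            DirectSum.decompose_sum, DFinsupp.finsetSum_apply, Submodule.coe_sum]
          rw [Finset.sum_eq_single i]
          · exact DirectSum.decompose_of_mem_same gr' (hg i _ (SetLike.coe_mem _))
          · intro j _ hji
            exact DirectSum.decompose_of_mem_ne gr' (hg j _ (SetLike.coe_mem _)) hji
          · intro hi
            rw [DFinsupp.notMem_support_iff] at hi
            rw [hi]
            simp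
        rw [← h4 t]
        exact DirectSum.decompose_of_mem_same gr' h2
      refine Submodule.mem_sup_left ⟨(DirectSum.decompose gr x t : B), ⟨?_, SetLike.coe_mem _⟩, h3⟩
      change φ (DirectSum.decompose gr x t : B) ∈ C
      rw [h3]
      exact h1
    · intro hy
      obtain ⟨_, ⟨x, ⟨hx1, hx2⟩, rfl⟩, z, ⟨hz1, hz2⟩, rfl⟩ := Submodule.mem_sup.1 hy
      exact ⟨C.add_mem hx1 (hAC hz1), (gr' t).add_mem (hg t x hx2) hz2⟩

theorem KK_comap (φ : B →ₐ[k] B') (hs : Function.Surjective φ)
    (hg : ∀ i, ∀ b ∈ gr i, φ b ∈ gr' i) (L : List (B × ℤ)) :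
    ∀ (A C : Ideal B'), A ≤ C →
      KK gr' (L.map fun p => (φ p.1, p.2)) A C = KK gr L (A.comap φ) (C.comap φ) := by
  induction L with
  | nil =>
    intro A C hAC
    exact K0_comap φ hs hg A C hAC
  | cons p L ih =>
    intro A C hAC
    simp only [List.map_cons, KK]
    rw [ih _ _ (sup_le hAC (mulI_le _ _)), ih _ _ (le_inf hAC (le_colI _ _))]
    have h1 : (A ⊔ mulI (φ p.1) C).comap φ = A.comap φ ⊔ mulI p.1 (C.comap φ) := by
      ext x
      rw [Ideal.mem_comap, Submodule.mem_sup, Submodule.mem_sup]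
      constructor
      · rintro ⟨y, hy, _, ⟨c, hc, rfl⟩, h⟩
        obtain ⟨c, rfl⟩ := hs c
        have h2 : y + φ p.1 * φ c = φ x := h
        refine ⟨x - p.1 * c, ?_, p.1 * c, ⟨c, hc, rfl⟩, by ring⟩
        change φ (x - p.1 * c) ∈ A
        rw [map_sub, map_mul, ← h2, add_sub_cancel_right]
        exact hy
      · rintro ⟨y, hy, _, ⟨c, hc, rfl⟩, rfl⟩
        refine ⟨φ y, hy, φ p.1 * φ c, ⟨φ c, hc, rfl⟩, ?_⟩
        change φ y + φ p.1 * φ c = φ (y + p.1 * c)
        rw [map_add, map_mul]
    have h2 : (C ⊓ colI (φ p.1) A).comap φ = C.comap φ ⊓ colI p.1 (A.comap φ) := by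
      ext x
      constructor
      · rintro ⟨h3, h4⟩
        refine ⟨h3, ?_⟩
        change φ (p.1 * x) ∈ A
        rw [map_mul]; exact h4
      · rintro ⟨h3, h4⟩
        refine ⟨h3, ?_⟩
        change φ p.1 * φ x ∈ A
        rw [← map_mul]; exact h4
    rw [h1, h2]

end Comap

/-! ### polynomial rings -/

section Poly

variable {σ : Type}

theorem kp_fiso_span {B : Type u} [CommRing B] (f : B) (J : Ideal B) :
    FIso f (colI f J) ⊤ J (J ⊔ Ideal.span {f}) where
  eM := by rw [mulI_top, sup_comm]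
  eN := by rw [top_inf_eq]

/-- The function `κ` for the polynomial ring, from a list -/
theorem kp_exists {B : Type u} [CommRing B] [Algebra k B] [IsNoetherianRing B]
    {gr : ℤ → Submodule k B} [GradedAlgebra gr] {Z : List (B × ℤ)} (hZ : HomL gr Z)
    (hG : Gen k Z) : ∃ κ : Kap gr, ∀ J, κ.κ J = KK gr Z J ⊤ := by
  have htop : (⊤ : Ideal B).IsHomogeneous gr := Ideal.IsHomogeneous.top gr
  refine ⟨⟨fun J => KK gr Z J ⊤, KK_self Z (base_fin hG) hZ htop, ?_⟩, fun J => rfl⟩
  intro J hJ a f hf
  have hspan : (Ideal.span {f} : Ideal B).IsHomogeneous gr := by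
    refine Ideal.homogeneous_span _ _ ?_
    rintro _ rfl
    exact ⟨a, hf⟩
  have h1 := KK_add Z (base_fin hG) hZ hJ (hJ.sup hspan) htop
    (le_sup_left : J ≤ J ⊔ Ideal.span {f}) le_top (fun p hp => Or.inl hp)
  have h2 := FIso.KK_eq hf hZ (colI_hom gr hf hJ) htop hJ (hJ.sup hspan) (kp_fiso_span f J)
  change KK gr Z J ⊤ = tz a * KK gr Z (colI f J) ⊤ + KK gr Z (J ⊔ Ideal.span {f}) ⊤
  rw [h1, h2]

/-- the list of the variables -/
noncomputable def kpL [Fintype σ] (w : σ → ℤ) : List (MvPolynomial σ k × ℤ) :=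
  Finset.univ.toList.map fun i => (X i, w i)

theorem kp_const (b : MvPolynomial σ k) :
    b - C (constantCoeff b) ∈ Ideal.span (Set.range (X : σ → MvPolynomial σ k)) := by
  induction b using MvPolynomial.induction_on with
  | C a => simp
  | add p q hp hq =>
    have : p + q - C (constantCoeff (p + q)) =
      (p - C (constantCoeff p)) + (q - C (constantCoeff q)) := by
      rw [map_add, C_add]; ring
    rw [this]
    exact Ideal.add_mem _ hp hq
  | mul_X p i _ =>
    rw [map_mul, constantCoeff_X, mul_zero, C_0, sub_zero]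
    exact Ideal.mul_mem_left _ _ (Ideal.subset_span ⟨i, rfl⟩)

theorem kpL_hom [Fintype σ] (w : σ → ℤ) : HomL (wg k w) (kpL w) := by
  intro p hp
  obtain ⟨i, -, rfl⟩ := List.mem_map.1 hp
  exact isWeightedHomogeneous_X k w i

theorem kpL_gen [Fintype σ] (w : σ → ℤ) : Gen k (kpL (k := k) w) := by
  intro b
  refine ⟨constantCoeff b, b - C (constantCoeff b), ?_, ?_⟩
  · refine Ideal.span_mono ?_ (kp_const b)
    rintro _ ⟨i, rfl⟩
    exact ⟨(X i, w i), List.mem_map.2 ⟨i, by simp, rfl⟩, rfl⟩
  · rw [MvPolynomial.algebraMap_eq]; ring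

theorem kp_constantCoeff_mem {b : MvPolynomial σ k}
    (h : b ∈ Ideal.span (Set.range (X : σ → MvPolynomial σ k))) : constantCoeff b = 0 := by
  have : Ideal.span (Set.range (X : σ → MvPolynomial σ k)) ≤ RingHom.ker (constantCoeff (R := k)) := by
    rw [Ideal.span_le]
    rintro _ ⟨i, rfl⟩
    exact constantCoeff_X k i
  exact this h

theorem kp_K0_one (w : σ → ℤ) :
    K0 (wg k w) (Ideal.span (Set.range (X : σ → MvPolynomial σ k))) ⊤ = 1 := by
  unfold K0
  rw [finsum_eq_single _ (0 : ℤ)]
  · have h1 : hdim (wg k w) (Ideal.span (Set.range (X : σ → MvPolynomial σ k))) ⊤ 0 = 1 := by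
      unfold hdim
      rw [kp_finrank_eq (V' := k) _ _ ⊥ ⊤ (lcoeff k 0)]
      · have h0 : (⊥ : Submodule k k).submoduleOf ⊤ = ⊥ := by
          ext x
          rw [kp_mem_sub]
          simp
        rw [(Submodule.quotEquivOfEqBot _ h0).finrank_eq, finrank_top, Module.finrank_self]
      · ext x
        constructor
        · rintro ⟨h1, h2⟩
          refine ⟨⟨trivial, h2⟩, ?_⟩
          exact kp_constantCoeff_mem h1
        · rintro ⟨⟨-, h2⟩, h3⟩
          refine ⟨?_, h2⟩
          have h4 : constantCoeff x = 0 := h3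
          have := kp_const x
          rw [h4, C_0, sub_zero] at this
          exact this
      · symm
        rw [eq_top_iff]
        intro x _
        refine Submodule.mem_sup_left ⟨C x, ⟨trivial, isWeightedHomogeneous_C w x⟩, ?_⟩
        simp
    rw [h1, tz_zero]
    simp
  · intro t ht
    have h1 : hdim (wg k w) (Ideal.span (Set.range (X : σ → MvPolynomial σ k))) ⊤ t = 0 := by
      unfold hdim
      have htop : (grp (wg k w) (Ideal.span (Set.range (X : σ → MvPolynomial σ k))) t).submoduleOf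
          (grp (wg k w) ⊤ t) = ⊤ := by
        rw [eq_top_iff]
        rintro ⟨x, -, hx⟩ -
        refine ⟨?_, hx⟩
        have h2 : constantCoeff x = 0 := by
          by_contra hc
          apply ht
          have h3 : IsWeightedHomogeneous w x t := hx
          have h4 := h3 (d := 0) hc
          rw [← h4]
          simp
        have := kp_const x
        rw [h2, C_0, sub_zero] at this
        exact this
      rw [htop]
      exact Module.finrank_zero_of_subsingleton
    rw [h1]
    simp

theorem kpL_prod [Fintype σ] (w : σ → ℤ) :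
    ((kpL (k := k) w).map fun p => 1 - tz p.2).prod = ∏ i, (1 - tz (w i)) := by
  unfold kpL
  rw [List.map_map]
  exact Finset.prod_map_toList _ _

theorem kp_max [Fintype σ] (w : σ → ℤ) :
    KK (wg k w) (kpL w) (Ideal.span (Set.range (X : σ → MvPolynomial σ k))) ⊤ =
      ∏ i, (1 - tz (w i)) := by
  rw [KK_killed le_top, kp_K0_one, mul_one, kpL_prod]
  intro p hp
  obtain ⟨i, -, rfl⟩ := List.mem_map.1 hp
  rw [mulI_top, Ideal.span_singleton_le_iff_mem]
  exact Ideal.subset_span ⟨i, rfl⟩

/-! the line -/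

theorem evs_X_some (a : k) (i : σ) : evs a (X (some i)) = X i := by simp [evs]

theorem evs_X_none (a : k) : evs (σ := σ) a (X none) = C a := by simp [evs]

theorem evs_rename (a : k) (f : MvPolynomial σ k) : evs a (rename some f) = f := by
  have : (evs a).comp (rename some) = AlgHom.id k (MvPolynomial σ k) := by
    ext i; simp [evs]
  exact congrArg (fun φ : MvPolynomial σ k →ₐ[k] MvPolynomial σ k => φ f) this

theorem evs_surj (a : k) : Function.Surjective (evs (σ := σ) a) := fun f => ⟨_, evs_rename a f⟩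

theorem evs_sub (a : k) (f : MvPolynomial (Option σ) k) :
    f - rename some (evs a f) ∈ Ideal.span {(X none - C a : MvPolynomial (Option σ) k)} := by
  induction f using MvPolynomial.induction_on with
  | C c => simp [evs]
  | add p q hp hq =>
    have : p + q - rename some (evs a (p + q)) =
      (p - rename some (evs a p)) + (q - rename some (evs a q)) := by
      rw [map_add, map_add]; ring
    rw [this]
    exact Ideal.add_mem _ hp hq
  | mul_X p i hp =>
    rw [map_mul, map_mul]
    rcases i with _ | i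
    · rw [evs_X_none, rename_C]
      have : p * X none - rename some (evs a p) * C a =
        (X none) * (p - rename some (evs a p)) + rename some (evs a p) * (X none - C a) := by ring
      rw [this]
      exact Ideal.add_mem _ (Ideal.mul_mem_left _ _ hp)
        (Ideal.mul_mem_left _ _ (Ideal.subset_span rfl))
    · rw [evs_X_some, rename_X]
      have : p * X (some i) - rename some (evs a p) * X (some i) =
        X (some i) * (p - rename some (evs a p)) := by ring
      rw [this]
      exact Ideal.mul_mem_left _ _ hp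

theorem evs_ker (a : k) : RingHom.ker (evs (σ := σ) a) = Ideal.span {X none - C a} := by
  apply le_antisymm
  · intro f hf
    have h1 := evs_sub a f
    rw [RingHom.mem_ker] at hf
    rwa [hf, map_zero, sub_zero] at h1
  · rw [Ideal.span_singleton_le_iff_mem, RingHom.mem_ker, map_sub, evs_X_none]
    simp [evs]

theorem evs_comap_map (a : k) (I : Ideal (MvPolynomial (Option σ) k)) :
    (I.map (evs a)).comap (evs a) = I ⊔ mulI (X none - C a) ⊤ := by
  rw [mulI_top, ← evs_ker a]
  exact Ideal.comap_map_of_surjective _ (evs_surj a) I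

theorem evs_graded (w : σ → ℤ) (a : k) (i : ℤ) (b : MvPolynomial (Option σ) k)
    (hb : b ∈ wg k (wtl w) i) : evs a b ∈ wg k w i := by
  have hb' : IsWeightedHomogeneous (wtl w) b i := hb
  rw [b.as_sum, map_sum]
  refine Submodule.sum_mem _ fun d hd => ?_
  have hw := hb' (mem_support_iff.1 hd)
  rw [evs, aeval_monomial]
  have h0 : (0 : ℤ) + i = i := zero_add i
  rw [← h0]
  refine SetLike.GradedMul.mul_mem (isWeightedHomogeneous_C w _) ?_
  rw [← hw, Finsupp.weight_apply, Finsupp.prod, Finsupp.sum]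
  have h1 : IsWeightedHomogeneous w (∏ x ∈ d.support, (Option.elim x (C a) X : MvPolynomial σ k) ^ d x)
      (∑ x ∈ d.support, d x • wtl w x) := by
    refine IsWeightedHomogeneous.prod _ _ _ fun x _ => ?_
    refine IsWeightedHomogeneous.pow ?_ _
    rcases x with _ | x
    · exact isWeightedHomogeneous_C w a
    · exact isWeightedHomogeneous_X k w x
  exact h1

theorem colI_prime {B : Type u} [CommRing B] {P : Ideal B} (hP : P.IsPrime) {z : B}
    (hz : z ∉ P) : colI z P = P := by
  apply le_antisymm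
  · intro x hx
    exact (hP.mem_or_mem hx).resolve_left hz
  · exact le_colI z P

/-- the list for the line, at `s = a` -/
noncomputable def kpS [Fintype σ] (w : σ → ℤ) : List (MvPolynomial (Option σ) k × ℤ) :=
  Finset.univ.toList.map fun i => (X (some i), w i)

theorem kpS_hom [Fintype σ] (w : σ → ℤ) : HomL (wg k (wtl w)) (kpS w) := by
  intro p hp
  obtain ⟨i, -, rfl⟩ := List.mem_map.1 hp
  exact isWeightedHomogeneous_X k (wtl w) (some i)

theorem kp_sub_hom (w : σ → ℤ) (a : k) :
    (X none - C a : MvPolynomial (Option σ) k) ∈ wg k (wtl w) 0 :=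
  Submodule.sub_mem _ (isWeightedHomogeneous_X k (wtl w) none) (isWeightedHomogeneous_C _ _)

theorem kpS_map [Fintype σ] (w : σ → ℤ) (a : k) :
    ((kpS w).map fun p => (evs a p.1, p.2)) = kpL w := by
  unfold kpS kpL
  rw [List.map_map]
  refine List.map_congr_left fun i _ => ?_
  simp only [Function.comp_apply, evs_X_some]

theorem kp_z_prime : (Ideal.span (Set.range fun i : σ => X (some i)) :
    Ideal (MvPolynomial (Option σ) k)).IsPrime := by
  have := vars_prime (k := k) (Set.range (some : σ → Option σ))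
  rw [← Set.range_comp] at this
  exact this

theorem kp_sub_notMem (a : k) : (X none - C a : MvPolynomial (Option σ) k) ∉
    Ideal.span (Set.range fun i : σ => X (some i)) := by
  intro h
  let φ : MvPolynomial (Option σ) k →ₐ[k] Polynomial k :=
    aeval fun o => o.elim Polynomial.X fun _ => 0
  have h1 : Ideal.span (Set.range fun i : σ => X (some i)) ≤ RingHom.ker φ := by
    rw [Ideal.span_le]
    rintro _ ⟨i, rfl⟩
    simp [φ]
  have h2 := h1 h
  rw [RingHom.mem_ker] at h2
  have h3 : φ (X none - C a) = Polynomial.X - Polynomial.C a := by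
    simp [φ, MvPolynomial.algebraMap_eq]
  rw [h3] at h2
  exact Polynomial.X_sub_C_ne_zero a h2

end Poly

/-- block KAP -/
theorem exists_kap {σ : Type} [Fintype σ] (w : σ → ℤ) :
    ∃ κ : Kap (wg k w), κ.κ (Ideal.span (Set.range X)) = ∏ i, (1 - tz (w i)) ∧
      ∀ a : k, ∃ κa : Kap (wg k (wtl w)),
        κa.κ (Ideal.span (Set.range fun i : σ => X (some i))) = ∏ i, (1 - tz (w i)) ∧
        ∀ P : Ideal (MvPolynomial (Option σ) k), P.IsPrime → P.IsHomogeneous (wg k (wtl w)) →
          (X none - C a ∉ P → κa.κ P = κ.κ (P.map (evs a))) ∧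
          (X none - C a ∈ P → κa.κ P = 0) := by
  obtain ⟨κ, hκ⟩ := kp_exists (kpL_hom w) (kpL_gen (k := k) w)
  refine ⟨κ, by rw [hκ, kp_max], fun a => ?_⟩
  have hom : HomL (wg k (wtl w)) (((X none - C a : MvPolynomial (Option σ) k), (0 : ℤ)) :: kpS w) := by
    intro p hp
    rcases List.mem_cons.1 hp with rfl | hp
    · exact kp_sub_hom w a
    · exact kpS_hom w p hp
  have gen : Gen k (((X none - C a : MvPolynomial (Option σ) k), (0 : ℤ)) :: kpS w) := by
    intro b
    refine ⟨constantCoeff (evs a b), b - C (constantCoeff (evs a b)), ?_, ?_⟩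
    · have e : b - C (constantCoeff (evs a b)) = (b - rename some (evs a b)) +
          rename some (evs a b - C (constantCoeff (evs a b))) := by
        rw [map_sub, rename_C]; ring
      rw [e]
      refine Ideal.add_mem _ ?_ ?_
      · refine Ideal.span_mono ?_ (evs_sub a b)
        rintro _ rfl
        exact ⟨_, List.mem_cons_self, rfl⟩
      · have h1 := Ideal.mem_map_of_mem (rename some : MvPolynomial σ k →ₐ[k] MvPolynomial (Option σ) k)
          (kp_const (evs a b))
        rw [Ideal.map_span] at h1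
        refine Ideal.span_mono ?_ h1
        rintro _ ⟨_, ⟨i, rfl⟩, rfl⟩
        refine ⟨(X (some i), w i), List.mem_cons_of_mem _ (List.mem_map.2 ⟨i, by simp, rfl⟩), ?_⟩
        exact rename_X some i
    · rw [MvPolynomial.algebraMap_eq]; ring
  obtain ⟨κa, hκa⟩ := kp_exists hom gen
  have htop : (⊤ : Ideal (MvPolynomial (Option σ) k)).IsHomogeneous (wg k (wtl w)) :=
    Ideal.IsHomogeneous.top _
  -- the value on a prime not containing `s - a`
  have key : ∀ P : Ideal (MvPolynomial (Option σ) k), P.IsPrime →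
      P.IsHomogeneous (wg k (wtl w)) → X none - C a ∉ P → κa.κ P = κ.κ (P.map (evs a)) := by
    intro P hP hPh hs
    rw [hκa, hκ]
    simp only [KK]
    rw [colI_prime hP hs, top_inf_eq, KK_self _ (base_fin gen) (kpS_hom w) hPh, mul_zero, sub_zero,
      ← evs_comap_map, ← kpS_map w a,
      KK_comap (gr := wg k (wtl w)) (evs a) (evs_surj a) (evs_graded w a) (kpS w) _ _ le_top]
    rfl
  refine ⟨κa, ?_, fun P hP hPh => ⟨key P hP hPh, fun hs => ?_⟩⟩
  · rw [key _ kp_z_prime ?_ (kp_sub_notMem a), Ideal.map_span, ← Set.range_comp]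
    · have : (evs a ∘ fun i : σ => X (some i)) = (X : σ → MvPolynomial σ k) := by
        funext i; exact evs_X_some a i
      rw [this, hκ, kp_max]
    · refine Ideal.homogeneous_span _ _ ?_
      rintro _ ⟨i, rfl⟩
      exact ⟨w i, isWeightedHomogeneous_X k (wtl w) (some i)⟩
  · rw [hκa]
    simp only [KK]
    have h1 : colI (X none - C a) P = ⊤ := by
      rw [eq_top_iff]
      intro x _
      rw [mem_colI]
      exact P.mul_mem_right _ hs
    have h2 : P ⊔ mulI (X none - C a) ⊤ = P := by
      rw [mulI_top, sup_eq_left, Ideal.span_singleton_le_iff_mem]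
      exact hs
    rw [h1, h2, top_inf_eq, tz_zero, one_mul, sub_self]

end Pool.Agent.OpChow
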