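import Pool.Agent.Lib_helper48.OpChow.Basics
/-!
# Block PZ: the ideal of the minors of a generic 2 by 3 matrix is prime
-/

namespace Pool.Agent.OpChow

open MvPolynomial

universe u

section swap

variable {R : Type*} [CommRing R] (x y : Fin 3 → R)

/-- a monomial -/
def blkPZ_m (α β : Fin 3 → ℕ) : R := (∏ i, x i ^ α i) * ∏ i, y i ^ β i

theorem blkPZ_m_single (α β : Fin 3 → ℕ) (i j : Fin 3) :
    blkPZ_m x y (α + Pi.single i 1) (β + Pi.single j 1) = blkPZ_m x y α β * (x i * y j) := by
  have h : ∀ (z : Fin 3 → R) (γ : Fin 3 → ℕ) (i : Fin 3),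
      ∏ k, z k ^ (γ + Pi.single i 1 : Fin 3 → ℕ) k = (∏ k, z k ^ γ k) * z i := by
    intro z γ i
    simp only [Pi.add_apply, pow_add, Finset.prod_mul_distrib]
    congr 1
    rw [Finset.prod_eq_single i]
    · simp
    · intro b _ hb
      simp [Pi.single_eq_of_ne hb]
    · simp
  rw [blkPZ_m, h, h, blkPZ_m]
  ring

theorem blkPZ_swap (h : ∀ i j, x i * y j = x j * y i) (α β : Fin 3 → ℕ) (i j : Fin 3) :
    blkPZ_m x y (α + Pi.single i 1) (β + Pi.single j 1) =
      blkPZ_m x y (α + Pi.single j 1) (β + Pi.single i 1) := by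
  rw [blkPZ_m_single, blkPZ_m_single, h i j]

theorem blkPZ_eq (h : ∀ i j, x i * y j = x j * y i) (n : ℕ) : ∀ (α β α' β' : Fin 3 → ℕ),
    ∑ i, (α i - α' i) = n → ∑ i, α i = ∑ i, α' i → (∀ i, α i + β i = α' i + β' i) →
    blkPZ_m x y α β = blkPZ_m x y α' β' := by
  induction n with
  | zero =>
    intro α β α' β' h0 h1 h2
    have h3 : ∀ i, α i ≤ α' i := by
      intro i
      have := (Finset.sum_eq_zero_iff.1 h0) i (Finset.mem_univ i)
      omega
    have h4 : ∀ i, α i = α' i := by
      intro i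
      exact (Finset.sum_eq_sum_iff_of_le fun i _ => h3 i).1 h1 i (Finset.mem_univ i)
    have h5 : α = α' := funext h4
    have h6 : β = β' := by
      funext i
      have := h2 i
      have := h4 i
      omega
    rw [h5, h6]
  | succ n ih =>
    intro α β α' β' h0 h1 h2
    obtain ⟨i, hi⟩ : ∃ i, α' i < α i := by
      by_contra hc
      push Not at hc
      have : ∑ i, (α i - α' i) = 0 := Finset.sum_eq_zero fun i _ => by have := hc i; omega
      omega
    obtain ⟨j, hj⟩ : ∃ j, α j < α' j := by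
      by_contra hc
      push Not at hc
      have := Finset.sum_lt_sum (fun i _ => hc i) ⟨i, Finset.mem_univ i, hi⟩
      omega
    have hij : i ≠ j := by
      rintro rfl
      omega
    have e1 : α = (fun k => α k - (Pi.single i 1 : Fin 3 → ℕ) k) + Pi.single i 1 := by
      funext k
      by_cases hk : k = i
      · subst hk
        simp
        omega
      · simp [Pi.single_eq_of_ne hk]
    have e2 : β = (fun k => β k - (Pi.single j 1 : Fin 3 → ℕ) k) + Pi.single j 1 := by
      funext k
      by_cases hk : k = j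
      · subst hk
        have := h2 k
        simp
        omega
      · simp [Pi.single_eq_of_ne hk]
    have key : blkPZ_m x y α β = blkPZ_m x y
        ((fun k => α k - (Pi.single i 1 : Fin 3 → ℕ) k) + Pi.single j 1)
        ((fun k => β k - (Pi.single j 1 : Fin 3 → ℕ) k) + Pi.single i 1) := by
      conv_lhs => rw [e1, e2]
      exact blkPZ_swap x y h _ _ i j
    clear e1 e2
    have hbj : 0 < β j := by
      have := h2 j
      omega
    rw [key]
    clear key
    apply ih
    · simp only [Fin.sum_univ_three] at h0 ⊢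
      fin_cases i <;> fin_cases j <;> simp_all <;> omega
    · simp only [Fin.sum_univ_three] at h1 ⊢
      fin_cases i <;> fin_cases j <;> simp_all <;> omega
    · intro k
      have hk := h2 k
      simp only [Pi.add_apply]
      by_cases h5 : k = i
      · subst h5
        rw [Pi.single_eq_same, Pi.single_eq_of_ne hij]
        omega
      · by_cases h6 : k = j
        · subst h6
          rw [Pi.single_eq_of_ne h5, Pi.single_eq_same]
          omega
        · rw [Pi.single_eq_of_ne h5, Pi.single_eq_of_ne h6]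
          omega

end swap

variable {k : Type u} [Field k]

/-- the parametrization -/
noncomputable def blkPZ_phi (k : Type u) [Field k] :
    MvPolynomial (Fin 6) k →ₐ[k] MvPolynomial (Fin 5) k :=
  aeval ![X 0 * X 2, X 0 * X 3, X 0 * X 4, X 1 * X 2, X 1 * X 3, X 1 * X 4]

/-- the map on exponents -/
noncomputable def blkPZ_L (d : Fin 6 →₀ ℕ) : Fin 5 →₀ ℕ :=
  Finsupp.equivFunOnFinite.symm
    ![d 0 + d 1 + d 2, d 3 + d 4 + d 5, d 0 + d 3, d 1 + d 4, d 2 + d 5]

theorem blkPZ_phi_monomial (d : Fin 6 →₀ ℕ) :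
    blkPZ_phi k (monomial d 1) = monomial (blkPZ_L d) 1 := by
  rw [monomial_eq, monomial_eq, Finsupp.prod_fintype _ _ (by simp),
    Finsupp.prod_fintype _ _ (by simp)]
  simp only [blkPZ_phi, map_mul, map_pow, aeval_X, Fin.prod_univ_six, Fin.prod_univ_five, blkPZ_L,
    Finsupp.equivFunOnFinite_symm_apply_apply, map_one]
  simp [pow_add]
  ring

theorem blkPZ_mk_monomial (d : Fin 6 →₀ ℕ) :
    Ideal.Quotient.mk (PZ k) (monomial d 1) =
      blkPZ_m (fun i : Fin 3 => Ideal.Quotient.mk (PZ k) (X (![0, 1, 2] i)))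
        (fun i : Fin 3 => Ideal.Quotient.mk (PZ k) (X (![3, 4, 5] i)))
        (fun i => d (![0, 1, 2] i)) (fun i => d (![3, 4, 5] i)) := by
  rw [monomial_eq, Finsupp.prod_fintype _ _ (by simp)]
  simp [blkPZ_m, Fin.prod_univ_six, Fin.prod_univ_three]
  ring

theorem blkPZ_rel (i j : Fin 3) :
    Ideal.Quotient.mk (PZ k) (X (![0, 1, 2] i)) * Ideal.Quotient.mk (PZ k) (X (![3, 4, 5] j)) =
      Ideal.Quotient.mk (PZ k) (X (![0, 1, 2] j)) *
        Ideal.Quotient.mk (PZ k) (X (![3, 4, 5] i)) := by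
  rw [← map_mul, ← map_mul, Ideal.Quotient.eq]
  have g1 : (X 1 * X 5 - X 2 * X 4 : MvPolynomial (Fin 6) k) ∈ PZ k :=
    Ideal.subset_span (by simp)
  have g2 : (X 2 * X 3 - X 0 * X 5 : MvPolynomial (Fin 6) k) ∈ PZ k :=
    Ideal.subset_span (by simp)
  have g3 : (X 0 * X 4 - X 1 * X 3 : MvPolynomial (Fin 6) k) ∈ PZ k :=
    Ideal.subset_span (by simp)
  fin_cases i <;> fin_cases j <;> simp
  · exact g3
  · have := (PZ k).neg_mem g2
    rwa [neg_sub] at this
  · have := (PZ k).neg_mem g3
    rwa [neg_sub] at this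
  · exact g1
  · exact g2
  · have := (PZ k).neg_mem g1
    rwa [neg_sub] at this

theorem blkPZ_mk_eq {d d' : Fin 6 →₀ ℕ} (h : blkPZ_L d = blkPZ_L d') :
    Ideal.Quotient.mk (PZ k) (monomial d 1) = Ideal.Quotient.mk (PZ k) (monomial d' 1) := by
  rw [blkPZ_mk_monomial, blkPZ_mk_monomial]
  have e : ∀ i, blkPZ_L d i = blkPZ_L d' i := fun i => by rw [h]
  have e0 := e 0
  have e1 := e 1
  have e2 := e 2
  have e3 := e 3
  have e4 := e 4
  simp [blkPZ_L] at e0 e1 e2 e3 e4
  refine blkPZ_eq _ _ blkPZ_rel _ _ _ _ _ rfl ?_ ?_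
  · simp [Fin.sum_univ_three]
    omega
  · intro i
    fin_cases i <;> simp <;> omega

/-- the linear map in the other direction -/
noncomputable def blkPZ_psi (k : Type u) [Field k] :
    MvPolynomial (Fin 5) k →ₗ[k] MvPolynomial (Fin 6) k ⧸ PZ k :=
  open scoped Classical in
  (basisMonomials (Fin 5) k).constr k fun e =>
    if h : ∃ d, blkPZ_L d = e then Ideal.Quotient.mk (PZ k) (monomial h.choose 1) else 0

theorem blkPZ_psi_phi (f : MvPolynomial (Fin 6) k) :
    blkPZ_psi k (blkPZ_phi k f) = Ideal.Quotient.mk (PZ k) f := by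
  have : (blkPZ_psi k).comp (blkPZ_phi k).toLinearMap = (Ideal.Quotient.mkₐ k (PZ k)).toLinearMap := by
    refine (basisMonomials (Fin 6) k).ext fun d => ?_
    simp only [coe_basisMonomials, LinearMap.comp_apply, AlgHom.toLinearMap_apply,
      blkPZ_phi_monomial, Ideal.Quotient.mkₐ_eq_mk]
    have : (monomial (blkPZ_L d) 1 : MvPolynomial (Fin 5) k) =
        basisMonomials (Fin 5) k (blkPZ_L d) := by simp
    rw [this, blkPZ_psi, Module.Basis.constr_basis]
    have h : ∃ d', blkPZ_L d' = blkPZ_L d := ⟨d, rfl⟩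
    rw [dif_pos h]
    exact blkPZ_mk_eq h.choose_spec
  exact LinearMap.congr_fun this f

theorem blkPZ_ker : RingHom.ker (blkPZ_phi k) = PZ k := by
  apply le_antisymm
  · intro f hf
    rw [RingHom.mem_ker] at hf
    have := blkPZ_psi_phi f
    rw [hf, map_zero] at this
    exact Ideal.Quotient.eq_zero_iff_mem.1 this.symm
  · rw [PZ, Ideal.span_le]
    rintro f (rfl | rfl | rfl) <;>
    · simp [RingHom.mem_ker, blkPZ_phi]
      ring

theorem pz_prime : (PZ k).IsPrime := by
  rw [← blkPZ_ker]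
  exact RingHom.ker_isPrime _

end Pool.Agent.OpChow
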