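import Pool.Agent.Lib_helper48.OpChow.Basics
namespace Pool.Agent.OpChow

open MvPolynomial

universe u

attribute [local instance] MvPolynomial.weightedGradedAlgebra

variable {k : Type u} [Field k]

/-- the map killing the variables in `s` -/
noncomputable def VAR_kill {σ : Type} (s : Set σ) : MvPolynomial σ k →ₐ[k] MvPolynomial σ k :=
  open scoped Classical in aeval fun i => if i ∈ s then 0 else X i

theorem VAR_sub_mem {σ : Type} (s : Set σ) (f : MvPolynomial σ k) :
    f - VAR_kill s f ∈ (Ideal.span (X '' s) : Ideal (MvPolynomial σ k)) := by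
  classical
  induction f using MvPolynomial.induction_on with
  | C a => simp [VAR_kill]
  | add p q hp hq =>
    have : p + q - VAR_kill s (p + q) = (p - VAR_kill s p) + (q - VAR_kill s q) := by
      rw [map_add]; ring
    rw [this]
    exact Ideal.add_mem _ hp hq
  | mul_X p i hp =>
    have h1 : (X i : MvPolynomial σ k) - VAR_kill s (X i) ∈
        (Ideal.span (X '' s) : Ideal (MvPolynomial σ k)) := by
      by_cases hi : i ∈ s
      · have : VAR_kill (k := k) s (X i) = 0 := by simp [VAR_kill, hi]
        rw [this, sub_zero]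
        exact Ideal.subset_span ⟨i, hi, rfl⟩
      · have : VAR_kill (k := k) s (X i) = X i := by simp [VAR_kill, hi]
        rw [this, sub_self]
        exact Ideal.zero_mem _
    have : p * X i - VAR_kill s (p * X i) =
        X i * (p - VAR_kill s p) + VAR_kill s p * (X i - VAR_kill s (X i)) := by
      rw [map_mul]; ring
    rw [this]
    exact Ideal.add_mem _ (Ideal.mul_mem_left _ _ hp) (Ideal.mul_mem_left _ _ h1)

theorem VAR_ker {σ : Type} (s : Set σ) :
    (Ideal.span (X '' s) : Ideal (MvPolynomial σ k)) = RingHom.ker (VAR_kill (k := k) s) := by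
  classical
  apply le_antisymm
  · rw [Ideal.span_le]
    rintro _ ⟨i, hi, rfl⟩
    change VAR_kill s (X i) = 0
    simp [VAR_kill, hi]
  · intro f hf
    have hf' : VAR_kill s f = 0 := hf
    have := VAR_sub_mem s f
    rwa [hf', sub_zero] at this

/-- block VAR -/
theorem vars_prime {σ : Type} (s : Set σ) :
    (Ideal.span (X '' s) : Ideal (MvPolynomial σ k)).IsPrime := by
  rw [VAR_ker]
  exact RingHom.ker_isPrime _

theorem VAR_colI_prime {B : Type u} [CommRing B] {P : Ideal B} (hP : P.IsPrime) {f : B}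
    (hfP : f ∉ P) : colI f P = P := by
  ext x
  simp only [colI, Submodule.mem_comap, LinearMap.lsmul_apply, smul_eq_mul]
  constructor
  · intro h
    exact (hP.mem_or_mem h).resolve_left hfP
  · intro h
    exact Ideal.mul_mem_left _ _ h

/-- block VAR: `κ(P + f) = (1 - τ^a) κ(P)` -/
theorem kap_prime {B : Type u} [CommRing B] [Algebra k B] {gr : ℤ → Submodule k B}
    [GradedAlgebra gr] (κ : Kap gr) {P : Ideal B} (hP : P.IsPrime) (hh : P.IsHomogeneous gr)
    {a : ℤ} {f : B} (hf : f ∈ gr a) (hfP : f ∉ P) :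
    κ.κ (P ⊔ Ideal.span {f}) = (1 - tz a) * κ.κ P := by
  have h := κ.add P hh a f hf
  rw [VAR_colI_prime hP hfP] at h
  linear_combination -h

/-- block VAR -/
theorem kap_vars {σ : Type} (w : σ → ℤ) (κ : Kap (wg k w)) (s : Finset σ) :
    κ.κ (Ideal.span (X '' (s : Set σ))) = (∏ i ∈ s, (1 - tz (w i))) * κ.κ ⊥ := by
  classical
  induction s using Finset.induction_on with
  | empty => simp
  | insert i s hi ih =>
    have h1 : (Ideal.span (X '' ((insert i s : Finset σ) : Set σ)) : Ideal (MvPolynomial σ k)) =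
        Ideal.span (X '' (s : Set σ)) ⊔ Ideal.span {X i} := by
      rw [Finset.coe_insert, Set.image_insert_eq, ← Ideal.span_union, Set.union_comm,
        Set.singleton_union]
    have hni : (X i : MvPolynomial σ k) ∉
        (Ideal.span (X '' (s : Set σ)) : Ideal (MvPolynomial σ k)) := by
      rw [VAR_ker]
      intro h
      have h' : VAR_kill (s : Set σ) (X i) = (0 : MvPolynomial σ k) := h
      have h2 : VAR_kill (k := k) (s : Set σ) (X i) = X i := by
        simp [VAR_kill, hi]
      rw [h2] at h'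
      exact X_ne_zero i h'
    have hh : (Ideal.span (X '' (s : Set σ)) : Ideal (MvPolynomial σ k)).IsHomogeneous
        (wg k w) := by
      refine Ideal.homogeneous_span _ _ ?_
      rintro _ ⟨j, -, rfl⟩
      exact ⟨w j, isWeightedHomogeneous_X k w j⟩
    rw [h1, kap_prime κ (vars_prime _) hh (isWeightedHomogeneous_X k w i) hni, ih,
      Finset.prod_insert hi]
    ring

theorem VAR_const (a : ℤ) : PowerSeries.constantCoeff (tz a) = 1 := by
  have h : Units.map (PowerSeries.constantCoeff (R := ℚ) : PowerSeries ℚ →* ℚ) (tau ^ a) = 1 := by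
    rw [map_zpow]
    have : Units.map (PowerSeries.constantCoeff (R := ℚ) : PowerSeries ℚ →* ℚ) tau = 1 := by
      ext
      simp [tau]
    rw [this, one_zpow]
  exact congrArg Units.val h

theorem VAR_tz_add (a b : ℤ) : tz (a + b) = tz a * tz b := by
  simp [tz, zpow_add]

theorem VAR_coeff_one (a : ℤ) : PowerSeries.coeff 1 (tz a) = -(a : ℚ) := by
  have key : ∀ f g : PowerSeries ℚ, PowerSeries.constantCoeff f = 1 →
      PowerSeries.constantCoeff g = 1 →
      PowerSeries.coeff 1 (f * g) = PowerSeries.coeff 1 f + PowerSeries.coeff 1 g := by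
    intro f g hf hg
    rw [PowerSeries.coeff_mul, Finset.Nat.antidiagonal_succ]
    simp [hf, hg]
    ring
  have h1 : PowerSeries.coeff 1 (tz 1) = -(1 : ℚ) := by
    simp [tz, tau, PowerSeries.coeff_X, PowerSeries.coeff_one]
  have hadd : ∀ a b : ℤ, PowerSeries.coeff 1 (tz (a + b)) =
      PowerSeries.coeff 1 (tz a) + PowerSeries.coeff 1 (tz b) := by
    intro a b
    rw [VAR_tz_add]
    exact key _ _ (VAR_const a) (VAR_const b)
  let F : ℤ →+ ℚ := AddMonoidHom.mk' (fun a => PowerSeries.coeff 1 (tz a)) hadd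
  have hF : F a = a • F 1 := by
    have := map_zsmul F a (1 : ℤ)
    simpa using this
  have hF1 : F 1 = -1 := h1
  rw [hF1] at hF
  have : F a = PowerSeries.coeff 1 (tz a) := rfl
  rw [← this, hF]
  simp

/-- block VAR -/
theorem tz_one_sub {a : ℤ} (ha : a ≠ 0) : ∃ u : (PowerSeries ℚ)ˣ,
    1 - tz a = PowerSeries.X * (u : PowerSeries ℚ) ∧
      PowerSeries.constantCoeff (u : PowerSeries ℚ) = a := by
  have h0 : PowerSeries.X ∣ (1 - tz a) := by
    rw [PowerSeries.X_dvd_iff]
    simp [VAR_const a]
  obtain ⟨q, hq⟩ := h0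
  have hq1 : PowerSeries.constantCoeff q = (a : ℚ) := by
    have h := congrArg (PowerSeries.coeff (R := ℚ) 1) hq
    rw [map_sub, VAR_coeff_one, show (1 : ℕ) = 0 + 1 from rfl, PowerSeries.coeff_succ_X_mul,
      PowerSeries.coeff_zero_eq_constantCoeff] at h
    rw [← h]
    simp [PowerSeries.coeff_one]
  have hu : IsUnit q := by
    rw [PowerSeries.isUnit_iff_constantCoeff, hq1]
    exact (Int.cast_ne_zero.mpr ha).isUnit
  obtain ⟨u, rfl⟩ := hu
  exact ⟨u, hq, hq1⟩

end Pool.Agent.OpChow
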